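import Pool.Agent.Lib.Pabcv.CoreA

/-!
# The main count
-/

namespace Pool.Agent.Lib.Pabcv

open Finset

open Classical in
/-- The triples `(x, y, n)` of `[1, ⌊Y^K⌋]³` with `n = x + y` or `n = |x - y|`, `n` coprime to
`x` and `y`, `rad x ≤ rad y`, `rad x ≤ rad n`, `rad x * rad y * rad n ≤ Y`, `n ≥ Y^0.98`. -/
noncomputable def mainSet (K Y : ℝ) : Finset (ℕ × ℕ × ℕ) :=
  (Finset.Icc 1 ⌊Y ^ K⌋₊ ×ˢ (Finset.Icc 1 ⌊Y ^ K⌋₊ ×ˢ Finset.Icc 1 ⌊Y ^ K⌋₊)).filter
    (fun t : ℕ × ℕ × ℕ => Rel t.1 t.2.1 t.2.2 ∧ t.1.Coprime t.2.2 ∧ t.2.1.Coprime t.2.2 ∧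
      rad t.1 ≤ rad t.2.1 ∧ rad t.1 ≤ rad t.2.2 ∧
      ((rad t.1 * rad t.2.1 * rad t.2.2 : ℕ) : ℝ) ≤ Y ∧ Y ^ (98 / 100 : ℝ) ≤ t.2.2)

/-- The index of the cell of `r` on the logarithmic scale. -/
noncomputable def cell (η Y : ℝ) (r : ℕ) : ℕ := ⌈Real.log r / (η * Real.log Y)⌉₊

theorem le_rpow_cell {η Y : ℝ} (hη : 0 < η) (hY : 1 < Y) {r : ℕ} (hr : 1 ≤ r) :
    (r : ℝ) ≤ Y ^ (η * cell η Y r) := by
  have hl : 0 < Real.log Y := Real.log_pos hY
  have h1 : Real.log r / (η * Real.log Y) ≤ cell η Y r := Nat.le_ceil _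
  rw [div_le_iff₀ (by positivity)] at h1
  have hr0 : (0 : ℝ) < r := by exact_mod_cast hr
  rw [← Real.log_le_log_iff hr0 (Real.rpow_pos_of_pos (by linarith) _),
    Real.log_rpow (by linarith)]
  linarith

theorem cell_le {η Y : ℝ} (hη : 0 < η) (hY : 1 < Y) {r : ℕ} (hr : 1 ≤ r) :
    η * cell η Y r ≤ Real.log r / Real.log Y + η := by
  have hl : 0 < Real.log Y := Real.log_pos hY
  have hr0 : (1 : ℝ) ≤ r := by exact_mod_cast hr
  have h1 : (cell η Y r : ℝ) < Real.log r / (η * Real.log Y) + 1 :=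
    Nat.ceil_lt_add_one (by have := Real.log_nonneg hr0; positivity)
  have h2 : η * (cell η Y r : ℝ) ≤ η * (Real.log r / (η * Real.log Y) + 1) :=
    mul_le_mul_of_nonneg_left h1.le hη.le
  refine h2.trans (le_of_eq ?_)
  field_simp

theorem cell_mono {η Y : ℝ} (hη : 0 < η) (hY : 1 < Y) {r r' : ℕ} (hr : 1 ≤ r) (h : r ≤ r') :
    cell η Y r ≤ cell η Y r' := by
  have hl : 0 < Real.log Y := Real.log_pos hY
  apply Nat.ceil_mono
  apply div_le_div_of_nonneg_right _ (by positivity)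
  apply Real.log_le_log (by exact_mod_cast hr)
  exact_mod_cast h

theorem rpow_cell_sub_le {η Y : ℝ} (hη : 0 < η) (hY : 1 < Y) {r : ℕ} (hr : 1 ≤ r) :
    Y ^ (η * cell η Y r - η) ≤ r := by
  have hl : 0 < Real.log Y := Real.log_pos hY
  have hr0 : (0 : ℝ) < r := by exact_mod_cast hr
  rw [← Real.log_le_log_iff (Real.rpow_pos_of_pos (by linarith) _) hr0,
    Real.log_rpow (by linarith)]
  have h1 := cell_le hη hY hr
  have h2 : η * cell η Y r - η ≤ Real.log r / Real.log Y := by linarith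
  rwa [le_div_iff₀ hl] at h2

/-- A piecewise linear upper bound for the loss. -/
noncomputable def kp (v : ℝ) : ℝ :=
  max 0 (max (265 / 1000 * (v - 245 / 1000)) (235 / 10000 + 561 / 1000 * (v - 1 / 3)))

theorem kp_nonneg (v : ℝ) : 0 ≤ kp v := le_max_left _ _

theorem kp_spec {v : ℝ} (h1 : 49 / 100 ≤ 2 * v) (h2 : v ≤ 41 / 100) :
    (2 * v - 49 / 100) ^ 2 ≤ 4 * v * kp v := by
  have ha : 265 / 1000 * (v - 245 / 1000) ≤ kp v :=
    (le_max_left _ _).trans (le_max_right _ _)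
  have hb : 235 / 10000 + 561 / 1000 * (v - 1 / 3) ≤ kp v :=
    (le_max_right _ _).trans (le_max_right _ _)
  rcases le_or_gt v (333 / 1000) with h | h
  · have : (2 * v - 49 / 100) ^ 2 ≤ 4 * v * (265 / 1000 * (v - 245 / 1000)) := by
      have e : 4 * v * (265 / 1000 * (v - 245 / 1000)) - (2 * v - 49 / 100) ^ 2 =
          (v - 245 / 1000) * (98 / 100 - 294 / 100 * v) := by ring
      have : 0 ≤ (v - 245 / 1000) * (98 / 100 - 294 / 100 * v) :=
        mul_nonneg (by linarith) (by linarith)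
      linarith
    refine this.trans (mul_le_mul_of_nonneg_left ha (by linarith))
  · have : (2 * v - 49 / 100) ^ 2 ≤ 4 * v * (235 / 10000 + 561 / 1000 * (v - 1 / 3)) := by
      nlinarith [mul_nonneg (sub_nonneg.2 h.le) (sub_nonneg.2 h2)]
    refine this.trans (mul_le_mul_of_nonneg_left hb (by linarith))

theorem kp_cases (v : ℝ) : kp v = 0 ∨ kp v = 265 / 1000 * (v - 245 / 1000) ∨
    kp v = 235 / 10000 + 561 / 1000 * (v - 1 / 3) := by
  rw [kp]
  rcases max_choice 0 (max (265 / 1000 * (v - 245 / 1000))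
    (235 / 10000 + 561 / 1000 * (v - 1 / 3))) with h | h
  · left; exact h
  · right
    rw [h]
    exact max_choice _ _

theorem num1 {u1 u2 u3 : ℝ} (hs : u1 + u2 + u3 ≤ 10003 / 10000)
    (h12' : 5985 / 10000 ≤ u1 + u2) (h13' : 5985 / 10000 ≤ u1 + u3)
    (h23' : 5985 / 10000 ≤ u2 + u3) :
    2 / 3 * u3 + (u1 + kp (u1 + 1 / 100000) + u2 + kp (u2 + 1 / 100000)) / 2 ≤
      5984 / 10000 := by
  rcases kp_cases (u1 + 1 / 100000) with a | a | a <;>
  rcases kp_cases (u2 + 1 / 100000) with b | b | b <;>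
  rw [a, b] <;> linarith

theorem num2 {u1 u2 u3 s : ℝ} (h12 : u1 ≤ u2) (h13 : u1 ≤ u3)
    (hs : u1 + u2 + u3 ≤ 10003 / 10000)
    (h12' : 5985 / 10000 ≤ u1 + u2) (h13' : 5985 / 10000 ≤ u1 + u3)
    (h23' : 5985 / 10000 ≤ u2 + u3) :
    (s + (u1 + kp (u1 + 1 / 100000) + u2 + kp (u2 + 1 / 100000)) / 2) +
      ((u3 - s + 1 / 10000) + max u2 (u1 + u2 / 2)) ≤ 2 * (5984 / 10000) := by
  rcases max_choice u2 (u1 + u2 / 2) with c | c <;>
  rcases kp_cases (u1 + 1 / 100000) with a | a | a <;>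
  rcases kp_cases (u2 + 1 / 100000) with b | b | b <;>
  rw [a, b, c] <;> linarith

open Classical in
/-- The part of `mainSet` in the cell `(i, j, l)`. -/
noncomputable def Qcell (K Y : ℝ) (c : ℕ × ℕ × ℕ) : Finset (ℕ × ℕ × ℕ) :=
  (mainSet K Y).filter (fun t : ℕ × ℕ × ℕ =>
    (cell (1 / 10000) Y (rad t.1), cell (1 / 10000) Y (rad t.2.1),
      cell (1 / 10000) Y (rad t.2.2)) = c)

theorem mem_Qcell {K Y : ℝ} {c t : ℕ × ℕ × ℕ} (h : t ∈ Qcell K Y c) :
    ((1 ≤ t.1 ∧ t.1 ≤ ⌊Y ^ K⌋₊) ∧ (1 ≤ t.2.1 ∧ t.2.1 ≤ ⌊Y ^ K⌋₊) ∧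
      (1 ≤ t.2.2 ∧ t.2.2 ≤ ⌊Y ^ K⌋₊)) ∧
    Rel t.1 t.2.1 t.2.2 ∧ t.1.Coprime t.2.2 ∧ t.2.1.Coprime t.2.2 ∧
      rad t.1 ≤ rad t.2.1 ∧ rad t.1 ≤ rad t.2.2 ∧
      ((rad t.1 * rad t.2.1 * rad t.2.2 : ℕ) : ℝ) ≤ Y ∧ Y ^ (98 / 100 : ℝ) ≤ t.2.2 ∧
    cell (1 / 10000) Y (rad t.1) = c.1 ∧ cell (1 / 10000) Y (rad t.2.1) = c.2.1 ∧
      cell (1 / 10000) Y (rad t.2.2) = c.2.2 := by
  classical
  simp only [Qcell, mem_filter, mainSet, mem_product, mem_Icc] at h
  obtain ⟨⟨⟨h1, h2, h3⟩, h4⟩, h5⟩ := h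
  obtain ⟨c1, c2, c3⟩ := c
  simp only [Prod.mk.injEq] at h5
  exact ⟨⟨h1, h2, h3⟩, h4.1, h4.2.1, h4.2.2.1, h4.2.2.2.1, h4.2.2.2.2.1, h4.2.2.2.2.2.1,
    h4.2.2.2.2.2.2, h5.1, h5.2.1, h5.2.2⟩

theorem three_le_prod {a b c : ℕ} (ha : 1 ≤ a) (hb : 1 ≤ b) (hc : 1 ≤ c) :
    a ≤ a * b * c ∧ b ≤ a * b * c ∧ c ≤ a * b * c := by
  refine ⟨?_, ?_, ?_⟩
  · rw [mul_assoc]; exact Nat.le_mul_of_pos_right _ (Nat.mul_pos hb hc)
  · rw [mul_comm a b, mul_assoc]; exact Nat.le_mul_of_pos_right _ (Nat.mul_pos ha hc)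
  · exact Nat.le_mul_of_pos_left _ (Nat.mul_pos ha hb)

theorem cell_sum_le {Y : ℝ} (hY : 1 < Y) {a b c : ℕ} (ha : 1 ≤ a) (hb : 1 ≤ b) (hc : 1 ≤ c)
    (h : ((a * b * c : ℕ) : ℝ) ≤ Y) :
    1 / 10000 * (cell (1 / 10000) Y a : ℝ) + 1 / 10000 * (cell (1 / 10000) Y b : ℝ) +
      1 / 10000 * (cell (1 / 10000) Y c : ℝ) ≤ 10003 / 10000 := by
  have hl : 0 < Real.log Y := Real.log_pos hY
  have e1 := cell_le (η := 1 / 10000) (by norm_num) hY ha
  have e2 := cell_le (η := 1 / 10000) (by norm_num) hY hb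
  have e3 := cell_le (η := 1 / 10000) (by norm_num) hY hc
  have ha0 : (0 : ℝ) < a := by exact_mod_cast ha
  have hb0 : (0 : ℝ) < b := by exact_mod_cast hb
  have hc0 : (0 : ℝ) < c := by exact_mod_cast hc
  have h2 : Real.log a + Real.log b + Real.log c ≤ Real.log Y := by
    rw [← Real.log_mul ha0.ne' hb0.ne', ← Real.log_mul (by positivity) hc0.ne']
    apply Real.log_le_log (by positivity)
    push_cast at h
    exact h
  have h3 : Real.log a / Real.log Y + Real.log b / Real.log Y + Real.log c / Real.log Y ≤ 1 := by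
    rw [← add_div, ← add_div, div_le_one hl]
    exact h2
  linarith

theorem rad_prime_pow {p k : ℕ} (hp : p.Prime) (hk : 1 ≤ k) : rad (p ^ k) = p := by
  rw [rad, Nat.primeFactors_prime_pow (by omega) hp, Finset.prod_singleton]

/-- Membership in `pairSet` for a divisor of `n`. -/
theorem mem_pairSet_of_dvd {X α x y n : ℕ} {Z₁ Z₂ : ℝ} (hx : x ∈ radSet X Z₁)
    (hy : y ∈ radSet X Z₂) (hrel : Rel x y n) (hcop : x.Coprime n) (hα : α ∣ n) :
    (x, y) ∈ pairSet α X Z₁ Z₂ := by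
  classical
  rw [pairSet, mem_filter, mem_product]
  refine ⟨⟨hx, hy⟩, ?_, ?_⟩
  · exact (ZMod.isUnit_iff_coprime x α).2 (Nat.Coprime.coprime_dvd_right hα hcop)
  · have hn : ((n : ℕ) : ZMod α) = 0 := (ZMod.natCast_eq_zero_iff n α).2 hα
    rcases hrel with h | h | h
    · right
      have : ((x + y : ℕ) : ZMod α) = 0 := by rw [h, hn]
      push_cast at this
      exact eq_neg_of_add_eq_zero_left this
    · left
      have : ((x + n : ℕ) : ZMod α) = (y : ZMod α) := by rw [h]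
      push_cast at this
      rw [hn, add_zero] at this
      exact this
    · left
      have : ((y + n : ℕ) : ZMod α) = (x : ZMod α) := by rw [h]
      push_cast at this
      rw [hn, add_zero] at this
      exact this.symm

theorem Qcell_card (K : ℝ) (hK : 1 ≤ K) : ∃ C Y0 : ℝ, 1 ≤ C ∧ ∀ Y : ℝ, Y0 ≤ Y →
    ∀ c : ℕ × ℕ × ℕ, ((Qcell K Y c).card : ℝ) ≤ C * Y ^ (5987 / 10000 : ℝ) := by
  classical
  have hK0 : 0 < K := by linarith
  set δ : ℝ := 1 / 100000 with hδ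
  have hδ0 : 0 < δ := by rw [hδ]; norm_num
  set η : ℝ := 1 / 10000 with hη
  have hη0 : 0 < η := by rw [hη]; norm_num
  obtain ⟨C1, hC11, hC1⟩ := radSet_card_pow K δ hK0 hδ0
  obtain ⟨C2, Y2, hC21, hC2⟩ := alphaPairs_card K (49 / 100) δ (by norm_num) (by linarith) hδ0
  obtain ⟨C3, hC31, hC3⟩ := curvePairs_card K δ hK0 hδ0
  have hlog2 : 0 < Real.log 2 := Real.log_pos (by norm_num)
  set C4 : ℝ := K / (δ * Real.log 2) with hC4
  have hC40 : 0 < C4 := by positivity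
  set Ct : ℝ := 3 * C1 ^ 2 + 3 * C2 + 10002 * (3 * (C2 + C3 * C4)) with hCt
  have hCt1 : 1 ≤ Ct := by
    have h1 : 0 < C1 ^ 2 := by positivity
    have h2 : 0 < C3 * C4 := by positivity
    rw [hCt]
    nlinarith
  refine ⟨Ct, max 2 Y2, hCt1, ?_⟩
  intro Y hY c
  have hY2 : 2 ≤ Y := (le_max_left _ _).trans hY
  have hYY2 : Y2 ≤ Y := (le_max_right _ _).trans hY
  have hY1 : 1 < Y := by linarith
  have hY1' : 1 ≤ Y := by linarith
  have hY0 : 0 < Y := by linarith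
  have hlogY : 0 < Real.log Y := Real.log_pos hY1
  set X : ℕ := ⌊Y ^ K⌋₊ with hX
  have hXle : (X : ℝ) ≤ Y ^ K := rpow_floor_le hY0.le
  set Q := Qcell K Y c with hQ
  rcases Q.eq_empty_or_nonempty with hQe | ⟨q0, hq0⟩
  · rw [hQe]
    simp only [card_empty, Nat.cast_zero]
    positivity
  set u1 : ℝ := η * c.1 with hu1
  set u2 : ℝ := η * c.2.1 with hu2
  set u3 : ℝ := η * c.2.2 with hu3
  have hu10 : 0 ≤ u1 := by positivity
  have hu20 : 0 ≤ u2 := by positivity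
  have hu30 : 0 ≤ u3 := by positivity
  have hmem : ∀ t ∈ Q, t.1 ∈ radSet X (Y ^ u1) ∧ t.2.1 ∈ radSet X (Y ^ u2) ∧
      t.2.2 ∈ radSet X (Y ^ u3) := by
    intro t ht
    obtain ⟨⟨h1, h2, h3⟩, -, -, -, -, -, -, -, hc1, hc2, hc3⟩ := mem_Qcell ht
    refine ⟨mem_radSet.2 ⟨h1, ?_⟩, mem_radSet.2 ⟨h2, ?_⟩, mem_radSet.2 ⟨h3, ?_⟩⟩
    · rw [hu1, ← hc1]; exact le_rpow_cell hη0 hY1 (rad_pos _)
    · rw [hu2, ← hc2]; exact le_rpow_cell hη0 hY1 (rad_pos _)
    · rw [hu3, ← hc3]; exact le_rpow_cell hη0 hY1 (rad_pos _)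
  have hRel : ∀ t ∈ Q, Rel t.1 t.2.1 t.2.2 := fun t ht => (mem_Qcell ht).2.1
  -- constraints
  obtain ⟨-, -, -, -, hr1, hr2, hr3, -, hc1, hc2, hc3⟩ := mem_Qcell hq0
  have hu12 : u1 ≤ u2 := by
    rw [hu1, hu2, ← hc1, ← hc2]
    apply mul_le_mul_of_nonneg_left _ hη0.le
    exact_mod_cast cell_mono hη0 hY1 (rad_pos _) hr1
  have hu13 : u1 ≤ u3 := by
    rw [hu1, hu3, ← hc1, ← hc3]
    apply mul_le_mul_of_nonneg_left _ hη0.le
    exact_mod_cast cell_mono hη0 hY1 (rad_pos _) hr2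
  have hsum : u1 + u2 + u3 ≤ 10003 / 10000 := by
    rw [hu1, hu2, hu3, ← hc1, ← hc2, ← hc3]
    exact cell_sum_le hY1 (rad_pos _) (rad_pos _) (rad_pos _) hr3
  have hpair : ∀ a b : ℝ, a + b ≤ 5985 / 10000 →
      ((radSet X (Y ^ a) ×ˢ radSet X (Y ^ b)).card : ℝ) ≤ C1 ^ 2 * Y ^ (5987 / 10000 : ℝ) := by
    intro a b hab
    rw [Finset.card_product]
    push_cast
    calc ((radSet X (Y ^ a)).card : ℝ) * (radSet X (Y ^ b)).card
        ≤ (C1 * Y ^ (a + δ)) * (C1 * Y ^ (b + δ)) := by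
          gcongr
          · exact hC1 Y a hY1'
          · exact hC1 Y b hY1'
      _ = C1 ^ 2 * (Y ^ (a + δ) * Y ^ (b + δ)) := by ring
      _ = C1 ^ 2 * Y ^ ((a + δ) + (b + δ)) := by rw [← Real.rpow_add hY0]
      _ ≤ _ := by
          apply mul_le_mul_of_nonneg_left _ (by positivity)
          apply Real.rpow_le_rpow_of_exponent_le hY1'
          rw [hδ]; linarith
  have hYp : 0 < Y ^ (5987 / 10000 : ℝ) := by positivity
  have hC1t : 3 * C1 ^ 2 ≤ Ct := by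
    have h2 : 0 < C3 * C4 := by positivity
    rw [hCt]
    nlinarith
  rcases le_or_gt (u1 + u2) (5985 / 10000) with h12 | h12
  · have h1 := proj_card_xy Q hRel (radSet X (Y ^ u1) ×ˢ radSet X (Y ^ u2))
      (fun t ht => mem_product.2 ⟨(hmem t ht).1, (hmem t ht).2.1⟩)
    have h2 := hpair u1 u2 h12
    calc (Q.card : ℝ) ≤ 3 * ((radSet X (Y ^ u1) ×ˢ radSet X (Y ^ u2)).card : ℝ) := by
          exact_mod_cast h1
      _ ≤ 3 * (C1 ^ 2 * Y ^ (5987 / 10000 : ℝ)) := by gcongr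
      _ = (3 * C1 ^ 2) * Y ^ (5987 / 10000 : ℝ) := by ring
      _ ≤ _ := by gcongr
  rcases le_or_gt (u1 + u3) (5985 / 10000) with h13 | h13
  · have h1 := proj_card_xn Q hRel (radSet X (Y ^ u1) ×ˢ radSet X (Y ^ u3))
      (fun t ht => mem_product.2 ⟨(hmem t ht).1, (hmem t ht).2.2⟩)
    have h2 := hpair u1 u3 h13
    calc (Q.card : ℝ) ≤ 3 * ((radSet X (Y ^ u1) ×ˢ radSet X (Y ^ u3)).card : ℝ) := by
          exact_mod_cast h1
      _ ≤ 3 * (C1 ^ 2 * Y ^ (5987 / 10000 : ℝ)) := by gcongr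
      _ = (3 * C1 ^ 2) * Y ^ (5987 / 10000 : ℝ) := by ring
      _ ≤ _ := by gcongr
  rcases le_or_gt (u2 + u3) (5985 / 10000) with h23 | h23
  · have h1 := proj_card_yn Q hRel (radSet X (Y ^ u2) ×ˢ radSet X (Y ^ u3))
      (fun t ht => mem_product.2 ⟨(hmem t ht).2.1, (hmem t ht).2.2⟩)
    have h2 := hpair u2 u3 h23
    calc (Q.card : ℝ) ≤ 3 * ((radSet X (Y ^ u2) ×ˢ radSet X (Y ^ u3)).card : ℝ) := by
          exact_mod_cast h1
      _ ≤ 3 * (C1 ^ 2 * Y ^ (5987 / 10000 : ℝ)) := by gcongr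
      _ = (3 * C1 ^ 2) * Y ^ (5987 / 10000 : ℝ) := by ring
      _ ≤ _ := by gcongr
  -- the main case
  have hu2le : u2 ≤ 4018 / 10000 := by linarith
  have hu3le : u3 ≤ 4018 / 10000 := by linarith
  have hu1le : u1 ≤ 4018 / 10000 := by linarith
  set k0 : ℕ := ⌊K * Real.log Y / Real.log 2⌋₊ with hk0
  have hk0le : (k0 : ℝ) ≤ C4 * Y ^ δ := by
    have h1 : (k0 : ℝ) ≤ K * Real.log Y / Real.log 2 := Nat.floor_le (by positivity)
    have h2 : Real.log Y ≤ Y ^ δ / δ := Real.log_le_rpow_div hY0.le hδ0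
    calc (k0 : ℝ) ≤ K * Real.log Y / Real.log 2 := h1
      _ ≤ K * (Y ^ δ / δ) / Real.log 2 := by gcongr
      _ = C4 * Y ^ δ := by rw [hC4]; field_simp
  -- the losses
  set κ₁ : ℝ := kp (u1 + δ) with hκ₁
  set κ₂ : ℝ := kp (u2 + δ) with hκ₂
  have hsp1 : 49 / 100 ≤ 2 * (u1 + δ) →
      (2 * (u1 + δ) - 49 / 100) ^ 2 ≤ 4 * (u1 + δ) * κ₁ := fun h =>
    kp_spec h (by rw [hδ]; linarith)
  have hsp2 : 49 / 100 ≤ 2 * (u2 + δ) →
      (2 * (u2 + δ) - 49 / 100) ^ 2 ≤ 4 * (u2 + δ) * κ₂ := fun h =>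
    kp_spec h (by rw [hδ]; linarith)
  have hAl : ∀ ρ : ℝ, ((alphaPairs K Y (49 / 100) ρ u1 u2).card : ℝ) ≤
      C2 * Y ^ (ρ + (u1 + κ₁ + u2 + κ₂) / 2 + 6 * δ) := fun ρ =>
    hC2 Y hYY2 ρ u1 u2 κ₁ κ₂ hu10 hu20 (by rw [hδ]; linarith) (by rw [hδ]; linarith)
      (kp_nonneg _) (kp_nonneg _) hsp1 hsp2
  have hCu : ∀ ρ : ℝ, ((curvePairs K Y ρ u1 u2 k0).card : ℝ) ≤
      C3 * k0 * Y ^ (ρ + max u2 (u1 + u2 / 2) + 4 * δ) := fun ρ => hC3 Y hY1' ρ u1 u2 k0
  set Q1 := Q.filter (fun t : ℕ × ℕ × ℕ =>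
    (t.1, t.2.1) ∈ alphaPairs K Y (49 / 100) (2 / 3 * u3) u1 u2) with hQ1
  set Q2 : ℕ → Finset (ℕ × ℕ × ℕ) := fun s => Q.filter (fun t : ℕ × ℕ × ℕ =>
    (t.1, t.2.1) ∈ alphaPairs K Y (49 / 100) (η * s) u1 u2 ∩
      curvePairs K Y (u3 - η * s + η) u1 u2 k0) with hQ2
  have hcover : Q ⊆ Q1 ∪ (range 10002).biUnion Q2 := by
    rintro ⟨x, y, n⟩ ht
    obtain ⟨⟨hx1, hy1, hn1⟩, hrel, hcx, hcy, -, -, hr3', hn, hcc1, hcc2, hcc3⟩ := mem_Qcell ht
    obtain ⟨hmx, hmy, hmn⟩ := hmem _ ht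
    simp only at hx1 hy1 hn1 hrel hcx hcy hr3' hn hcc1 hcc2 hcc3 hmx hmy hmn
    have hn2 : 2 ≤ n := by
      have h1 : (1 : ℝ) < n := by
        have h2 : (1 : ℝ) < Y ^ (98 / 100 : ℝ) := Real.one_lt_rpow hY1 (by norm_num)
        linarith
      have h2 : 1 < n := by exact_mod_cast h1
      omega
    have hnX : (n : ℝ) ≤ X := by exact_mod_cast hn1.2
    have hradn : (rad n : ℝ) ≤ Y ^ u3 := (mem_radSet.1 hmn).2
    have hradnY : (rad n : ℝ) ≤ Y := by
      refine le_trans ?_ hr3'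
      exact_mod_cast (three_le_prod (rad_pos x) (rad_pos y) (rad_pos n)).2.2
    -- a divisor whose square is at least `n` is large
    have hbig : ∀ α : ℕ, n ≤ α ^ 2 → Y ^ (49 / 100 : ℝ) ≤ α := by
      intro α hα
      have h1 : Y ^ (98 / 100 : ℝ) ≤ (α : ℝ) ^ 2 := hn.trans (by exact_mod_cast hα)
      have h2 : (Y ^ (49 / 100 : ℝ)) ^ 2 ≤ (α : ℝ) ^ 2 := by
        rw [← Real.rpow_natCast, ← Real.rpow_mul hY0.le]
        norm_num
        norm_num at h1
        exact h1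
      exact le_of_sq_le_sq h2 (Nat.cast_nonneg _)
    rw [mem_union]
    rcases split n hn2 with ⟨α, hαn, hα2, hαr⟩ | ⟨p, k, w, hp, hk, hw, hnw, hpk, hrad, hp3⟩
    · left
      rw [hQ1, mem_filter]
      refine ⟨ht, ?_⟩
      rw [mem_alphaPairs]
      have hα1 : 1 ≤ α := Nat.pos_of_dvd_of_pos hαn (by omega)
      refine ⟨α, ?_, hbig α hα2, mem_pairSet_of_dvd hmx hmy hrel hcx hαn⟩
      rw [mem_radSet]
      refine ⟨⟨hα1, (Nat.le_of_dvd (by omega) hαn).trans hn1.2⟩, ?_⟩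
      have h1 : (rad α : ℝ) ^ 3 ≤ (Y ^ (2 / 3 * u3)) ^ 3 := by
        calc (rad α : ℝ) ^ 3 ≤ (rad n : ℝ) ^ 2 := by exact_mod_cast hαr
          _ ≤ (Y ^ u3) ^ 2 := by gcongr
          _ = (Y ^ (2 / 3 * u3)) ^ 3 := by
              rw [← Real.rpow_natCast, ← Real.rpow_mul hY0.le, ← Real.rpow_natCast,
                ← Real.rpow_mul hY0.le]
              congr 1
              push_cast
              ring
      exact le_of_pow_le_pow_left₀ (by norm_num) (by positivity) h1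
    · right
      rw [mem_biUnion]
      have hp1 : 1 ≤ p := hp.one_lt.le
      have hprad : p ≤ rad n := by
        rw [hrad]; exact Nat.le_mul_of_pos_left _ (rad_pos w)
      have hpY : (p : ℝ) ≤ Y := le_trans (by exact_mod_cast hprad) hradnY
      have hpu : (p : ℝ) ≤ Y ^ u3 := le_trans (by exact_mod_cast hprad) hradn
      refine ⟨cell η Y p, ?_, ?_⟩
      · rw [mem_range]
        have h1 := cell_le hη0 hY1 hp1
        have h2 : Real.log p / Real.log Y ≤ 1 := by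
          rw [div_le_one hlogY]
          exact Real.log_le_log (by exact_mod_cast hp1) hpY
        have h3 : (cell η Y p : ℝ) ≤ 10001 := by
          rw [hη] at h1 ⊢
          linarith
        have h4 : cell η Y p ≤ 10001 := by exact_mod_cast h3
        omega
      · simp only [hQ2]
        rw [mem_filter]
        refine ⟨ht, ?_⟩
        rw [mem_inter]
        have hpkn : p ^ k ∣ n := ⟨w, by rw [hnw]; ring⟩
        have hwn : w ∣ n := ⟨p ^ k, hnw⟩
        have hpk1 : 1 ≤ p ^ k := Nat.one_le_pow _ _ hp1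
        constructor
        · rw [mem_alphaPairs]
          refine ⟨p ^ k, ?_, ?_, mem_pairSet_of_dvd hmx hmy hrel hcx hpkn⟩
          · rw [mem_radSet]
            refine ⟨⟨hpk1, (Nat.le_of_dvd (by omega) hpkn).trans hn1.2⟩, ?_⟩
            rw [rad_prime_pow hp hk]
            exact le_rpow_cell hη0 hY1 hp1
          · exact hbig _ hpk
        · rw [mem_curvePairs]
          refine ⟨w, ?_, k, ?_, ?_⟩
          · rw [mem_radSet]
            refine ⟨⟨hw, (Nat.le_of_dvd (by omega) hwn).trans hn1.2⟩, ?_⟩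
            have h1 := rpow_cell_sub_le hη0 hY1 hp1
            have h2 : (rad w : ℝ) * Y ^ (η * cell η Y p - η) ≤ Y ^ u3 := by
              calc (rad w : ℝ) * Y ^ (η * cell η Y p - η) ≤ (rad w : ℝ) * p := by gcongr
                _ = (rad n : ℝ) := by rw [hrad]; push_cast; ring
                _ ≤ Y ^ u3 := hradn
            have h3 : Y ^ (u3 - η * cell η Y p + η) * Y ^ (η * cell η Y p - η) = Y ^ u3 := by
              rw [← Real.rpow_add hY0]; congr 1; ring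
            rw [← h3] at h2
            exact le_of_mul_le_mul_right h2 (by positivity)
          · rw [mem_Icc]
            constructor
            · by_contra hlt
              have hk1 : k = 1 := by omega
              rw [hk1, pow_one] at hpk
              have h1 := hbig p hpk
              have h2 : Y ^ u3 < Y ^ (49 / 100 : ℝ) :=
                Real.rpow_lt_rpow_of_exponent_lt hY1 (by linarith)
              linarith
            · rw [hk0]
              apply Nat.le_floor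
              rw [le_div_iff₀ hlog2]
              have h1 : ((2 : ℝ)) ^ k ≤ Y ^ K := by
                calc (2 : ℝ) ^ k ≤ (p : ℝ) ^ k := by
                      gcongr
                      exact_mod_cast hp.two_le
                  _ ≤ (n : ℝ) := by exact_mod_cast Nat.le_of_dvd (by omega) hpkn
                  _ ≤ Y ^ K := hnX.trans hXle
              have h2 := Real.log_le_log (by positivity) h1
              rw [Real.log_pow, Real.log_rpow hY0] at h2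
              exact h2
          · rw [curveSet, mem_filter, mem_product]
            refine ⟨⟨hmx, hmy⟩, p, hp1, ?_⟩
            simp only
            rw [← hnw]
            exact hrel
  -- counting
  have hQ1c : (Q1.card : ℝ) ≤ 3 * C2 * Y ^ (5987 / 10000 : ℝ) := by
    have h1 := proj_card_xy Q1 (fun t ht => hRel t (mem_filter.1 ht).1)
      (alphaPairs K Y (49 / 100) (2 / 3 * u3) u1 u2) (fun t ht => (mem_filter.1 ht).2)
    have h2 := hAl (2 / 3 * u3)
    have h3 := num1 hsum h12.le h13.le h23.le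
    calc (Q1.card : ℝ) ≤ 3 * ((alphaPairs K Y (49 / 100) (2 / 3 * u3) u1 u2).card : ℝ) := by
          exact_mod_cast h1
      _ ≤ 3 * (C2 * Y ^ (2 / 3 * u3 + (u1 + κ₁ + u2 + κ₂) / 2 + 6 * δ)) := by gcongr
      _ ≤ 3 * (C2 * Y ^ (5987 / 10000 : ℝ)) := by
          apply mul_le_mul_of_nonneg_left _ (by norm_num)
          apply mul_le_mul_of_nonneg_left _ (by linarith)
          apply Real.rpow_le_rpow_of_exponent_le hY1'
          rw [hκ₁, hκ₂, hδ]
          linarith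
      _ = _ := by ring
  have hQ2c : ∀ s ∈ range 10002, ((Q2 s).card : ℝ) ≤
      3 * (C2 + C3 * C4) * Y ^ (5987 / 10000 : ℝ) := by
    intro s _
    set R := alphaPairs K Y (49 / 100) (η * s) u1 u2 ∩
      curvePairs K Y (u3 - η * s + η) u1 u2 k0 with hR
    have h1 : (Q2 s).card ≤ 3 * R.card :=
      proj_card_xy (Q2 s) (fun t ht => hRel t (mem_filter.1 ht).1) R
        (fun t ht => (mem_filter.1 ht).2)
    have hsum2 := num2 (s := η * s) hu12 hu13 hsum h12.le h13.le h23.le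
    have h2 : (R.card : ℝ) ≤ (C2 + C3 * C4) * Y ^ (5987 / 10000 : ℝ) := by
      have hCC : 0 < C3 * C4 := by positivity
      rcases le_or_gt (η * s + (u1 + κ₁ + u2 + κ₂) / 2) (5984 / 10000) with h | h
      · calc (R.card : ℝ) ≤ ((alphaPairs K Y (49 / 100) (η * s) u1 u2).card : ℝ) := by
              exact_mod_cast Finset.card_le_card Finset.inter_subset_left
          _ ≤ C2 * Y ^ (η * s + (u1 + κ₁ + u2 + κ₂) / 2 + 6 * δ) := hAl _
          _ ≤ (C2 + C3 * C4) * Y ^ (5987 / 10000 : ℝ) := by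
              apply mul_le_mul (by linarith) _ (by positivity) (by positivity)
              apply Real.rpow_le_rpow_of_exponent_le hY1'
              rw [hδ]
              linarith
      · calc (R.card : ℝ) ≤ ((curvePairs K Y (u3 - η * s + η) u1 u2 k0).card : ℝ) := by
              exact_mod_cast Finset.card_le_card Finset.inter_subset_right
          _ ≤ C3 * k0 * Y ^ ((u3 - η * s + η) + max u2 (u1 + u2 / 2) + 4 * δ) := hCu _
          _ ≤ C3 * (C4 * Y ^ δ) *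
              Y ^ ((u3 - η * s + η) + max u2 (u1 + u2 / 2) + 4 * δ) := by gcongr
          _ = (C3 * C4) * Y ^ (δ + ((u3 - η * s + η) + max u2 (u1 + u2 / 2) + 4 * δ)) := by
              rw [Real.rpow_add hY0 δ]; ring
          _ ≤ (C2 + C3 * C4) * Y ^ (5987 / 10000 : ℝ) := by
              apply mul_le_mul (by linarith) _ (by positivity) (by positivity)
              apply Real.rpow_le_rpow_of_exponent_le hY1'
              rw [hδ]
              rw [hκ₁, hκ₂, hδ] at h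
              rw [hη] at hsum2 h ⊢
              linarith
    calc ((Q2 s).card : ℝ) ≤ 3 * (R.card : ℝ) := by exact_mod_cast h1
      _ ≤ 3 * ((C2 + C3 * C4) * Y ^ (5987 / 10000 : ℝ)) := by gcongr
      _ = _ := by ring
  have hfin : (Q.card : ℝ) ≤ (Q1.card : ℝ) + ∑ s ∈ range 10002, ((Q2 s).card : ℝ) := by
    have h1 : Q.card ≤ Q1.card + ∑ s ∈ range 10002, (Q2 s).card :=
      (Finset.card_le_card hcover).trans ((Finset.card_union_le _ _).trans
        (Nat.add_le_add_left Finset.card_biUnion_le _))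
    exact_mod_cast h1
  calc (Q.card : ℝ) ≤ (Q1.card : ℝ) + ∑ s ∈ range 10002, ((Q2 s).card : ℝ) := hfin
    _ ≤ 3 * C2 * Y ^ (5987 / 10000 : ℝ) +
        ∑ s ∈ range 10002, 3 * (C2 + C3 * C4) * Y ^ (5987 / 10000 : ℝ) :=
        add_le_add hQ1c (Finset.sum_le_sum hQ2c)
    _ = (3 * C2 + 10002 * (3 * (C2 + C3 * C4))) * Y ^ (5987 / 10000 : ℝ) := by
        rw [Finset.sum_const, nsmul_eq_mul, Finset.card_range]
        push_cast
        ring
    _ ≤ Ct * Y ^ (5987 / 10000 : ℝ) := by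
        apply mul_le_mul_of_nonneg_right _ hYp.le
        rw [hCt]
        have : 0 ≤ C1 ^ 2 := by positivity
        linarith

theorem mainSet_card_le (K : ℝ) (hK : 1 ≤ K) : ∃ Y0 : ℝ, ∀ Y : ℝ, Y0 ≤ Y →
    ((mainSet K Y).card : ℝ) ≤ Y ^ (3 / 5 - 1 / 1000 : ℝ) := by
  classical
  obtain ⟨C, Y1, hC1, hC⟩ := Qcell_card K hK
  set Ct : ℝ := (10002 : ℝ) ^ 3 * C with hCt
  have hCt0 : 0 < Ct := by positivity
  refine ⟨max (max 2 Y1) (Ct ^ (10000 / 3 : ℝ)), ?_⟩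
  intro Y hY
  have hY2 : 2 ≤ Y := (le_max_left _ _).trans ((le_max_left _ _).trans hY)
  have hYY1 : Y1 ≤ Y := (le_max_right _ _).trans ((le_max_left _ _).trans hY)
  have hY1 : 1 < Y := by linarith
  have hY0 : 0 < Y := by linarith
  have hlogY : 0 < Real.log Y := Real.log_pos hY1
  have hYC : Ct ≤ Y ^ (3 / 10000 : ℝ) := by
    have h1 : Ct ^ (10000 / 3 : ℝ) ≤ Y := (le_max_right _ _).trans hY
    have h2 : Ct = (Ct ^ (10000 / 3 : ℝ)) ^ (3 / 10000 : ℝ) := by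
      rw [← Real.rpow_mul hCt0.le]
      norm_num
    rw [h2]
    exact Real.rpow_le_rpow (by positivity) h1 (by norm_num)
  obtain ⟨N, hN⟩ : ∃ N : ℕ, N = 10002 := ⟨_, rfl⟩
  set T : Finset (ℕ × ℕ × ℕ) := range N ×ˢ (range N ×ˢ range N) with hT
  set f : ℕ × ℕ × ℕ → ℕ × ℕ × ℕ := fun t =>
    (cell (1 / 10000) Y (rad t.1), cell (1 / 10000) Y (rad t.2.1),
      cell (1 / 10000) Y (rad t.2.2)) with hf
  have hη0 : (0 : ℝ) < 1 / 10000 := by norm_num
  have hcl : ∀ r : ℕ, 1 ≤ r → (r : ℝ) ≤ Y → cell (1 / 10000) Y r < N := by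
    intro r hr hrY
    have h1 := cell_le hη0 hY1 hr
    have h2 : Real.log r / Real.log Y ≤ 1 := by
      rw [div_le_one hlogY]
      exact Real.log_le_log (by exact_mod_cast hr) hrY
    have h3 : (cell (1 / 10000) Y r : ℝ) ≤ 10001 := by linarith
    have h4 : cell (1 / 10000) Y r ≤ 10001 := by exact_mod_cast h3
    omega
  have hmaps : ∀ t ∈ mainSet K Y, f t ∈ T := by
    rintro ⟨x, y, n⟩ ht
    rw [mainSet] at ht
    have hr := (mem_filter.1 ht).2.2.2.2.2.2.1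
    simp only at hr
    have h3 := three_le_prod (rad_pos x) (rad_pos y) (rad_pos n)
    simp only [hT, hf, mem_product, mem_range]
    refine ⟨hcl _ (rad_pos _) (le_trans (by exact_mod_cast h3.1) hr),
      hcl _ (rad_pos _) (le_trans (by exact_mod_cast h3.2.1) hr),
      hcl _ (rad_pos _) (le_trans (by exact_mod_cast h3.2.2) hr)⟩
  have h1 : (mainSet K Y).card = ∑ c ∈ T, ((mainSet K Y).filter (fun t => f t = c)).card :=
    Finset.card_eq_sum_card_fiberwise hmaps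
  have h2 : ((mainSet K Y).card : ℝ) ≤ ∑ c ∈ T, C * Y ^ (5987 / 10000 : ℝ) := by
    rw [h1]
    push_cast
    refine Finset.sum_le_sum fun c _ => ?_
    have h3 := hC Y hYY1 c
    rw [Qcell] at h3
    convert h3 using 3
  have h3 : (T.card : ℝ) = (10002 : ℝ) ^ 3 := by
    rw [hT, Finset.card_product, Finset.card_product, Finset.card_range, Nat.cast_mul,
      Nat.cast_mul, hN, Nat.cast_ofNat]
    ring
  calc ((mainSet K Y).card : ℝ) ≤ ∑ c ∈ T, C * Y ^ (5987 / 10000 : ℝ) := h2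
    _ = Ct * Y ^ (5987 / 10000 : ℝ) := by
        rw [Finset.sum_const, nsmul_eq_mul, h3, hCt, mul_assoc]
    _ ≤ Y ^ (3 / 10000 : ℝ) * Y ^ (5987 / 10000 : ℝ) := by gcongr
    _ = Y ^ (3 / 5 - 1 / 1000 : ℝ) := by
        rw [← Real.rpow_add hY0]
        norm_num

end Pool.Agent.Lib.Pabcv
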