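import Pool.Agent.Lib.Pabcv.Defs

/-!
# Counting integers by their radical

Proof of `card_rad_eq_le` (Rankin's trick).  If `rad n = r` then `n = r * m` with `m` composed of
the primes of `r`; `n ≤ X` gives `1 ≤ X ^ σ * n ^ (-σ)`, and the sum of `m ^ (-σ)` over all such
`m` is `∏ p ∣ r, (1 - p ^ (-σ))⁻¹`.  So the count is at most
`X ^ σ * ∏ p ∣ r, 1 / (p ^ σ - 1)`.  Finally `1/(p^σ - 1) ≤ 1` when `p ≥ 2^(1/σ)`, and
`1/(p^σ - 1) ≤ 1/(2^σ - 1)` always, so the product is at most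
`max 1 (1/(2^σ-1)) ^ ⌈2^(1/σ)⌉`.

`card_radSet_le` follows by summing over `r = rad n ∈ [1, ⌊Z⌋]`.
-/

namespace Pool.Agent.Lib.Pabcv

open Finset

/-- The completely multiplicative function `n ^ (-σ)`. -/
noncomputable def negPow (σ : ℝ) (hσ : 0 < σ) : ℕ →*₀ ℝ where
  toFun n := (n : ℝ) ^ (-σ)
  map_zero' := by
    simp only [Nat.cast_zero]
    exact Real.zero_rpow (by linarith)
  map_one' := by simp
  map_mul' a b := by
    simp only [Nat.cast_mul]
    exact Real.mul_rpow (Nat.cast_nonneg _) (Nat.cast_nonneg _)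

theorem negPow_apply (σ : ℝ) (hσ : 0 < σ) (n : ℕ) : negPow σ hσ n = (n : ℝ) ^ (-σ) := rfl

theorem primeFactors_rad (n : ℕ) : (rad n).primeFactors = n.primeFactors :=
  Nat.primeFactors_prod (fun _ hp => Nat.prime_of_mem_primeFactors hp)

theorem sum_le_prod (σ : ℝ) (hσ : 0 < σ) (X r : ℕ) :
    (((Finset.Icc 1 X).filter (fun n => rad n = r)).card : ℝ) ≤
      (X : ℝ) ^ σ * ∏ p ∈ r.primeFactors, ((p : ℝ) ^ σ - 1)⁻¹ := by
  have hprodnn : (0 : ℝ) ≤ ∏ p ∈ r.primeFactors, ((p : ℝ) ^ σ - 1)⁻¹ := by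
    refine Finset.prod_nonneg fun p hp => inv_nonneg.mpr ?_
    have : (1 : ℝ) ≤ (p : ℝ) ^ σ :=
      Real.one_le_rpow (by exact_mod_cast (Nat.prime_of_mem_primeFactors hp).one_lt.le) hσ.le
    linarith
  have hXnn : (0 : ℝ) ≤ (X : ℝ) ^ σ := Real.rpow_nonneg (Nat.cast_nonneg _) _
  set A := (Finset.Icc 1 X).filter (fun n => rad n = r) with hA
  rcases A.eq_empty_or_nonempty with h0 | ⟨n0, hn0⟩
  · rw [h0]
    simpa using mul_nonneg hXnn hprodnn
  have hr0 : rad n0 = r := (Finset.mem_filter.mp hn0).2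
  have hrpos : 1 ≤ r := hr0 ▸ rad_pos n0
  have hrprod : ∏ p ∈ r.primeFactors, p = r := by
    rw [← hr0, primeFactors_rad]; rfl
  have hf : ∀ {p : ℕ}, p.Prime → ‖negPow σ hσ p‖ < 1 := by
    intro p hp
    rw [negPow_apply, Real.norm_of_nonneg (Real.rpow_nonneg (Nat.cast_nonneg _) _)]
    exact Real.rpow_lt_one_of_one_lt_of_neg (by exact_mod_cast hp.one_lt) (by linarith)
  have hsum := (EulerProduct.summable_and_hasSum_factoredNumbers_prod_filter_prime_geometric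
    (f := (negPow σ hσ : ℕ →* ℝ)) (fun hp => hf hp) r.primeFactors)
  have hfil : r.primeFactors.filter (fun p => p.Prime) = r.primeFactors :=
    Finset.filter_true_of_mem fun p hp => Nat.prime_of_mem_primeFactors hp
  obtain ⟨hs1, hs2⟩ := hsum
  rw [hfil] at hs2
  -- each element of A is r * m
  have hdiv : ∀ n ∈ A, r * (n / r) = n ∧ (n / r) ∈ Nat.factoredNumbers r.primeFactors := by
    intro n hn
    obtain ⟨h1, h2⟩ := Finset.mem_filter.mp hn
    have hn1 : 1 ≤ n := (Finset.mem_Icc.mp h1).1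
    have hd : r ∣ n := h2 ▸ rad_dvd n
    have he : r * (n / r) = n := Nat.mul_div_cancel' hd
    refine ⟨he, ?_⟩
    have hne : n / r ≠ 0 := by
      intro h
      rw [h] at he
      omega
    refine Nat.mem_factoredNumbers_of_primeFactors_subset hne ?_
    have h3 : (n / r).primeFactors ⊆ n.primeFactors :=
      Nat.primeFactors_mono (Nat.div_dvd_of_dvd hd) (by omega)
    rw [← primeFactors_rad n, h2] at h3
    exact h3
  have h1 : (A.card : ℝ) ≤ ∑ n ∈ A, (X : ℝ) ^ σ * ((r : ℝ) ^ (-σ) * ((n / r : ℕ) : ℝ) ^ (-σ)) := by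
    rw [Finset.card_eq_sum_ones]
    push_cast
    refine Finset.sum_le_sum fun n hn => ?_
    obtain ⟨he, _⟩ := hdiv n hn
    have hnX := Finset.mem_Icc.mp (Finset.mem_filter.mp hn).1
    rw [← Real.mul_rpow (Nat.cast_nonneg _) (Nat.cast_nonneg _), ← Nat.cast_mul, he,
      Real.rpow_neg (Nat.cast_nonneg _), ← div_eq_mul_inv, ← Real.div_rpow (Nat.cast_nonneg _)
        (Nat.cast_nonneg _)]
    refine Real.one_le_rpow ?_ hσ.le
    rw [le_div_iff₀ (by exact_mod_cast hnX.1)]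
    simpa using (by exact_mod_cast hnX.2 : (n : ℝ) ≤ X)
  refine h1.trans ?_
  rw [← Finset.mul_sum, ← Finset.mul_sum]
  refine mul_le_mul_of_nonneg_left ?_ hXnn
  have h2 : ∑ n ∈ A, ((n / r : ℕ) : ℝ) ^ (-σ) ≤ ∏ p ∈ r.primeFactors, (1 - (p : ℝ) ^ (-σ))⁻¹ := by
    classical
    have hinj : Set.InjOn (fun n : ℕ => n / r) A := by
      intro a ha b hb hab
      simp only at hab
      rw [← (hdiv a ha).1, ← (hdiv b hb).1, hab]
    rw [← Finset.sum_image (f := fun m : ℕ => (m : ℝ) ^ (-σ)) (fun a ha b hb => hinj ha hb)]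
    have h3 : ∑ m ∈ A.image (fun n => n / r), (m : ℝ) ^ (-σ) ≤
        ∑' m : Nat.factoredNumbers r.primeFactors, ((m : ℕ) : ℝ) ^ (-σ) := by
      have hsub : ∀ m ∈ A.image (fun n => n / r), m ∈ Nat.factoredNumbers r.primeFactors := by
        intro m hm
        obtain ⟨n, hn, rfl⟩ := Finset.mem_image.mp hm
        exact (hdiv n hn).2
      have := Summable.sum_le_tsum (f := fun m : Nat.factoredNumbers r.primeFactors =>
        ((m : ℕ) : ℝ) ^ (-σ)) ((A.image (fun n => n / r)).attach.map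
          ⟨fun m => (⟨m.1, hsub m.1 m.2⟩ : Nat.factoredNumbers r.primeFactors), by
            intro a b hab
            have := congrArg Subtype.val hab
            exact Subtype.ext this⟩)
        (fun m _ => Real.rpow_nonneg (Nat.cast_nonneg _) _) hs2.summable
      rw [Finset.sum_map] at this
      refine le_trans (le_of_eq ?_) this
      rw [← Finset.sum_attach]
      rfl
    refine h3.trans (le_of_eq ?_)
    exact hs2.tsum_eq
  have hrσ : (r : ℝ) ^ (-σ) = ∏ p ∈ r.primeFactors, (p : ℝ) ^ (-σ) := by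
    rw [Real.finsetProd_rpow _ _ (fun p _ => Nat.cast_nonneg p), ← Nat.cast_prod, hrprod]
  calc (r : ℝ) ^ (-σ) * ∑ n ∈ A, ((n / r : ℕ) : ℝ) ^ (-σ)
      ≤ (r : ℝ) ^ (-σ) * ∏ p ∈ r.primeFactors, (1 - (p : ℝ) ^ (-σ))⁻¹ :=
        mul_le_mul_of_nonneg_left h2 (Real.rpow_nonneg (Nat.cast_nonneg _) _)
    _ = ∏ p ∈ r.primeFactors, ((p : ℝ) ^ σ - 1)⁻¹ := by
        rw [hrσ, ← Finset.prod_mul_distrib]
        refine Finset.prod_congr rfl fun p hp => ?_
        have hp1 := (Nat.prime_of_mem_primeFactors hp).one_lt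
        have hpos : (0 : ℝ) < (p : ℝ) ^ σ := Real.rpow_pos_of_pos (by exact_mod_cast hp1.le) _
        have hgt : (1 : ℝ) < (p : ℝ) ^ σ := Real.one_lt_rpow (by exact_mod_cast hp1) hσ
        rw [Real.rpow_neg (Nat.cast_nonneg _)]
        have h5 : (p : ℝ) ^ σ - 1 ≠ 0 := by linarith
        have h6 : 1 - ((p : ℝ) ^ σ)⁻¹ ≠ 0 := by
          have : ((p : ℝ) ^ σ)⁻¹ < 1 := inv_lt_one_of_one_lt₀ hgt
          linarith
        field_simp

theorem prod_le_const (σ : ℝ) (hσ : 0 < σ) : ∃ C : ℝ, 1 ≤ C ∧ ∀ r : ℕ,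
    ∏ p ∈ r.primeFactors, ((p : ℝ) ^ σ - 1)⁻¹ ≤ C := by
  classical
  set B : ℝ := max 1 (((2 : ℝ) ^ σ - 1)⁻¹) with hB
  set P : ℕ := ⌈(2 : ℝ) ^ (1 / σ)⌉₊ with hP
  have hB1 : (1 : ℝ) ≤ B := le_max_left _ _
  refine ⟨B ^ P, one_le_pow₀ hB1, fun r => ?_⟩
  have hnn : ∀ p ∈ r.primeFactors, (0 : ℝ) ≤ ((p : ℝ) ^ σ - 1)⁻¹ := by
    intro p hp
    have : (1 : ℝ) ≤ (p : ℝ) ^ σ :=
      Real.one_le_rpow (by exact_mod_cast (Nat.prime_of_mem_primeFactors hp).one_lt.le) hσ.le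
    exact inv_nonneg.mpr (by linarith)
  have hbound : ∀ p ∈ r.primeFactors, ((p : ℝ) ^ σ - 1)⁻¹ ≤ if p < P then B else 1 := by
    intro p hp
    have hp2 : 2 ≤ p := (Nat.prime_of_mem_primeFactors hp).two_le
    have h2σ : (1 : ℝ) < (2 : ℝ) ^ σ := Real.one_lt_rpow (by norm_num) hσ
    split_ifs with h
    · refine le_trans ?_ (le_max_right _ _)
      refine inv_anti₀ (by linarith) ?_
      have : (2 : ℝ) ^ σ ≤ (p : ℝ) ^ σ :=
        Real.rpow_le_rpow (by norm_num) (by exact_mod_cast hp2) hσ.le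
      linarith
    · have h3 : (2 : ℝ) ^ (1 / σ) ≤ p := by
        have : (P : ℝ) ≤ p := by exact_mod_cast not_lt.mp h
        exact (Nat.le_ceil _).trans this
      have h4 : (2 : ℝ) ≤ (p : ℝ) ^ σ := by
        calc (2 : ℝ) = ((2 : ℝ) ^ (1 / σ)) ^ σ := by
              rw [← Real.rpow_mul (by norm_num), one_div_mul_cancel hσ.ne', Real.rpow_one]
          _ ≤ (p : ℝ) ^ σ := Real.rpow_le_rpow (Real.rpow_nonneg (by norm_num) _) h3 hσ.le
      exact inv_le_one_of_one_le₀ (by linarith)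
  calc ∏ p ∈ r.primeFactors, ((p : ℝ) ^ σ - 1)⁻¹
      ≤ ∏ p ∈ r.primeFactors, (if p < P then B else 1) :=
        Finset.prod_le_prod hnn hbound
    _ = B ^ (r.primeFactors.filter (fun p => p < P)).card := by
        rw [Finset.prod_ite, Finset.prod_const, Finset.prod_const_one, mul_one]
    _ ≤ B ^ P := by
        refine pow_le_pow_right₀ hB1 ?_
        calc (r.primeFactors.filter (fun p => p < P)).card ≤ (Finset.range P).card :=
              Finset.card_le_card fun p hp => Finset.mem_range.mpr (Finset.mem_filter.mp hp).2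
          _ = P := Finset.card_range P

theorem card_rad_eq_le (σ : ℝ) (hσ : 0 < σ) : ∃ C : ℝ, 1 ≤ C ∧ ∀ X r : ℕ,
    (((Finset.Icc 1 X).filter (fun n => rad n = r)).card : ℝ) ≤ C * (X : ℝ) ^ σ := by
  obtain ⟨C, hC, h⟩ := prod_le_const σ hσ
  refine ⟨C, hC, fun X r => ?_⟩
  have h1 := sum_le_prod σ hσ X r
  refine h1.trans ?_
  rw [mul_comm]
  exact mul_le_mul_of_nonneg_right (h r) (Real.rpow_nonneg (Nat.cast_nonneg _) _)

theorem card_radSet_le (σ : ℝ) (hσ : 0 < σ) : ∃ C : ℝ, 1 ≤ C ∧ ∀ (X : ℕ) (Z : ℝ), 0 ≤ Z →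
    ((radSet X Z).card : ℝ) ≤ C * Z * (X : ℝ) ^ σ := by
  classical
  obtain ⟨C, hC, h⟩ := card_rad_eq_le σ hσ
  refine ⟨C, hC, fun X Z hZ => ?_⟩
  have hsub : radSet X Z ⊆ (Finset.Icc 1 ⌊Z⌋₊).biUnion
      (fun r => (Finset.Icc 1 X).filter (fun n => rad n = r)) := by
    intro n hn
    obtain ⟨h1, h2⟩ := mem_radSet.mp hn
    refine Finset.mem_biUnion.mpr ⟨rad n, ?_, ?_⟩
    · exact Finset.mem_Icc.mpr ⟨rad_pos n, Nat.le_floor h2⟩
    · exact Finset.mem_filter.mpr ⟨Finset.mem_Icc.mpr h1, rfl⟩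
  have h1 : ((radSet X Z).card : ℝ) ≤ ∑ r ∈ Finset.Icc 1 ⌊Z⌋₊,
      (((Finset.Icc 1 X).filter (fun n => rad n = r)).card : ℝ) := by
    have := (Finset.card_le_card hsub).trans Finset.card_biUnion_le
    exact_mod_cast this
  calc ((radSet X Z).card : ℝ) ≤ _ := h1
    _ ≤ ∑ _r ∈ Finset.Icc 1 ⌊Z⌋₊, C * (X : ℝ) ^ σ := Finset.sum_le_sum fun r _ => h X r
    _ = (⌊Z⌋₊ : ℝ) * (C * (X : ℝ) ^ σ) := by
        rw [Finset.sum_const, Nat.card_Icc, nsmul_eq_mul]
        norm_num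
    _ ≤ Z * (C * (X : ℝ) ^ σ) := by
        refine mul_le_mul_of_nonneg_right (Nat.floor_le hZ) ?_
        exact mul_nonneg (by linarith) (Real.rpow_nonneg (Nat.cast_nonneg _) _)
    _ = C * Z * (X : ℝ) ^ σ := by ring

end Pool.Agent.Lib.Pabcv
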