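import Pool.Agent.Lib.Pabcv.Core

/-!
# From the main count to abc-triples

Sketch of `triples_card_le`.  Let `(a, b, c)` be an abc-triple with `rad (abc) ≤ Y`,
`Y^0.99 ≤ c ≤ Y^K`.  Then `rad (abc) = rad a * rad b * rad c`.  Let `m = max a b ≥ c / 2` and let
`n` be the one of `m, c` with the larger radical; let `x, y` be the two other members ordered so
that `rad x ≤ rad y`.  Then `rad x ≤ rad n` (one of `x, y` is a member of `{m, c}`),
`n ≥ Y^0.99 / 2 ≥ Y^0.98` (for `Y` large), so `(x, y, n) ∈ mainSet K Y`, and `(a, b, c)` is a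
permutation of `(x, y, n)`, so each element of `mainSet` is hit at most 6 times: the set is
contained in the union of the 6 images of `mainSet K Y` under the permutations of coordinates
(`Set.ncard_le_ncard`, `Finset.card_image_le`, `Finset.card_union_le`).  Hence
`# ≤ 6 Y^(0.6 - 0.001) ≤ Y^0.6`.
-/

namespace Pool.Agent.Lib.Pabcv

open Finset

/-- `(a, b, c)` is an abc-triple: pairwise coprime positive integers with `a + b = c`. -/
def AbcTriple (a b c : ℕ) : Prop :=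
  0 < a ∧ 0 < b ∧ 0 < c ∧ a.Coprime b ∧ a.Coprime c ∧ b.Coprime c ∧ a + b = c

theorem rad_mul_coprime {a b : ℕ} (h : a.Coprime b) : rad (a * b) = rad a * rad b := by
  unfold rad
  rw [h.primeFactors_mul, Finset.prod_union h.disjoint_primeFactors]

open Classical in
theorem mem_mainSet_of {K Y : ℝ} {x y n : ℕ}
    (h : (x, y, n) ∈ (Finset.Icc 1 ⌊Y ^ K⌋₊ ×ˢ (Finset.Icc 1 ⌊Y ^ K⌋₊ ×ˢ Finset.Icc 1 ⌊Y ^ K⌋₊)))
    (h2 : Rel x y n ∧ x.Coprime n ∧ y.Coprime n ∧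
      rad x ≤ rad y ∧ rad x ≤ rad n ∧
      ((rad x * rad y * rad n : ℕ) : ℝ) ≤ Y ∧ Y ^ (98 / 100 : ℝ) ≤ n) :
    (x, y, n) ∈ mainSet K Y :=
  Finset.mem_filter.2 ⟨h, h2⟩

/-- Two orders of the first two members. -/
theorem good_mem {K Y : ℝ} {x y n : ℕ} (hx : 0 < x) (hy : 0 < y) (hn : 0 < n)
    (hx' : (x : ℝ) ≤ Y ^ K) (hy' : (y : ℝ) ≤ Y ^ K) (hn' : (n : ℝ) ≤ Y ^ K)
    (hrel : Rel x y n) (h1 : x.Coprime n) (h2 : y.Coprime n)
    (hmin : rad x ≤ rad n ∨ rad y ≤ rad n) (hrad : ((rad x * rad y * rad n : ℕ) : ℝ) ≤ Y)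
    (hlarge : Y ^ (98 / 100 : ℝ) ≤ n) :
    (x, y, n) ∈ mainSet K Y ∨ (y, x, n) ∈ mainSet K Y := by
  have hx2 : x ∈ Finset.Icc 1 ⌊Y ^ K⌋₊ := Finset.mem_Icc.2 ⟨hx, Nat.le_floor hx'⟩
  have hy2 : y ∈ Finset.Icc 1 ⌊Y ^ K⌋₊ := Finset.mem_Icc.2 ⟨hy, Nat.le_floor hy'⟩
  have hn2 : n ∈ Finset.Icc 1 ⌊Y ^ K⌋₊ := Finset.mem_Icc.2 ⟨hn, Nat.le_floor hn'⟩
  have hrel2 : Rel y x n := by
    unfold Rel at hrel ⊢
    omega
  have hrad2 : ((rad y * rad x * rad n : ℕ) : ℝ) ≤ Y := by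
    rw [mul_comm (rad y)]; exact hrad
  rcases Nat.le_total (rad x) (rad y) with h | h
  · left
    refine mem_mainSet_of ?_ ⟨hrel, h1, h2, h, ?_, hrad, hlarge⟩
    · simp only [Finset.mem_product]
      exact ⟨hx2, hy2, hn2⟩
    · rcases hmin with h3 | h3
      · exact h3
      · exact h.trans h3
  · right
    refine mem_mainSet_of ?_ ⟨hrel2, h2, h1, h, ?_, hrad2, hlarge⟩
    · simp only [Finset.mem_product]
      exact ⟨hy2, hx2, hn2⟩
    · rcases hmin with h3 | h3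
      · exact h.trans h3
      · exact h3

open Classical in
theorem triples_card_le (K : ℝ) (hK : 1 ≤ K) : ∃ Y0 : ℝ, ∀ Y : ℝ, Y0 ≤ Y →
    ({t : ℕ × ℕ × ℕ | AbcTriple t.1 t.2.1 t.2.2 ∧ (rad (t.1 * t.2.1 * t.2.2) : ℝ) ≤ Y ∧
      Y ^ (99 / 100 : ℝ) ≤ t.2.2 ∧ (t.2.2 : ℝ) ≤ Y ^ K}.ncard : ℝ) ≤ Y ^ (3 / 5 : ℝ) := by
  obtain ⟨Y0, hY0⟩ := mainSet_card_le K hK
  obtain ⟨Y1, hY1⟩ := Filter.eventually_atTop.1
    ((tendsto_rpow_atTop (y := (1 / 100 : ℝ)) (by norm_num)).eventually_ge_atTop 2)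
  obtain ⟨Y2, hY2⟩ := Filter.eventually_atTop.1
    ((tendsto_rpow_atTop (y := (1 / 1000 : ℝ)) (by norm_num)).eventually_ge_atTop 6)
  refine ⟨max (max Y0 Y1) (max Y2 1), fun Y hY => ?_⟩
  have hYa : Y0 ≤ Y := (le_max_left _ _).trans ((le_max_left _ _).trans hY)
  have hYb : Y1 ≤ Y := (le_max_right _ _).trans ((le_max_left _ _).trans hY)
  have hYc : Y2 ≤ Y := (le_max_left _ _).trans ((le_max_right _ _).trans hY)
  have hYd : 1 ≤ Y := (le_max_right _ _).trans ((le_max_right _ _).trans hY)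
  have hpos : 0 < Y := by linarith
  have hA := hY0 Y hYa
  have hB := hY1 Y hYb
  have hC := hY2 Y hYc
  have hlarge : Y ^ (98 / 100 : ℝ) * 2 ≤ Y ^ (99 / 100 : ℝ) := by
    have : Y ^ (99 / 100 : ℝ) = Y ^ (98 / 100 : ℝ) * Y ^ (1 / 100 : ℝ) := by
      rw [← Real.rpow_add hpos]; norm_num
    rw [this]
    exact mul_le_mul_of_nonneg_left hB (Real.rpow_nonneg hpos.le _)
  set S := mainSet K Y with hS
  set T : Finset (ℕ × ℕ × ℕ) :=
    (S.image (fun t => (t.1, t.2.1, t.2.2)) ∪ S.image (fun t => (t.2.1, t.1, t.2.2))) ∪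
    ((S.image (fun t => (t.2.2, t.1, t.2.1)) ∪ S.image (fun t => (t.2.2, t.2.1, t.1))) ∪
    (S.image (fun t => (t.1, t.2.2, t.2.1)) ∪ S.image (fun t => (t.2.1, t.2.2, t.1)))) with hT
  have hTcard : T.card ≤ 6 * S.card := by
    have h6 := Finset.card_union_le
      (S.image (fun t : ℕ × ℕ × ℕ => (t.1, t.2.1, t.2.2)) ∪
        S.image (fun t : ℕ × ℕ × ℕ => (t.2.1, t.1, t.2.2)))
      ((S.image (fun t : ℕ × ℕ × ℕ => (t.2.2, t.1, t.2.1)) ∪
        S.image (fun t : ℕ × ℕ × ℕ => (t.2.2, t.2.1, t.1))) ∪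
      (S.image (fun t : ℕ × ℕ × ℕ => (t.1, t.2.2, t.2.1)) ∪
        S.image (fun t : ℕ × ℕ × ℕ => (t.2.1, t.2.2, t.1))))
    have h7 := Finset.card_union_le
      (S.image (fun t : ℕ × ℕ × ℕ => (t.1, t.2.1, t.2.2)))
      (S.image (fun t : ℕ × ℕ × ℕ => (t.2.1, t.1, t.2.2)))
    have h8 := Finset.card_union_le
      (S.image (fun t : ℕ × ℕ × ℕ => (t.2.2, t.1, t.2.1)) ∪
        S.image (fun t : ℕ × ℕ × ℕ => (t.2.2, t.2.1, t.1)))
      (S.image (fun t : ℕ × ℕ × ℕ => (t.1, t.2.2, t.2.1)) ∪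
        S.image (fun t : ℕ × ℕ × ℕ => (t.2.1, t.2.2, t.1)))
    have h9 := Finset.card_union_le
      (S.image (fun t : ℕ × ℕ × ℕ => (t.2.2, t.1, t.2.1)))
      (S.image (fun t : ℕ × ℕ × ℕ => (t.2.2, t.2.1, t.1)))
    have h10 := Finset.card_union_le
      (S.image (fun t : ℕ × ℕ × ℕ => (t.1, t.2.2, t.2.1)))
      (S.image (fun t : ℕ × ℕ × ℕ => (t.2.1, t.2.2, t.1)))
    have i1 := Finset.card_image_le (s := S) (f := fun t : ℕ × ℕ × ℕ => (t.1, t.2.1, t.2.2))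
    have i2 := Finset.card_image_le (s := S) (f := fun t : ℕ × ℕ × ℕ => (t.2.1, t.1, t.2.2))
    have i3 := Finset.card_image_le (s := S) (f := fun t : ℕ × ℕ × ℕ => (t.2.2, t.1, t.2.1))
    have i4 := Finset.card_image_le (s := S) (f := fun t : ℕ × ℕ × ℕ => (t.2.2, t.2.1, t.1))
    have i5 := Finset.card_image_le (s := S) (f := fun t : ℕ × ℕ × ℕ => (t.1, t.2.2, t.2.1))
    have i6 := Finset.card_image_le (s := S) (f := fun t : ℕ × ℕ × ℕ => (t.2.1, t.2.2, t.1))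
    rw [hT]
    omega
  have hsub : {t : ℕ × ℕ × ℕ | AbcTriple t.1 t.2.1 t.2.2 ∧
      (rad (t.1 * t.2.1 * t.2.2) : ℝ) ≤ Y ∧
      Y ^ (99 / 100 : ℝ) ≤ t.2.2 ∧ (t.2.2 : ℝ) ≤ Y ^ K} ⊆ (T : Set (ℕ × ℕ × ℕ)) := by
    rintro ⟨a, b, c⟩ ⟨⟨ha, hb, hc, hab, hac, hbc, habc⟩, hrad, hc1, hc2⟩
    simp only at ha hb hc hab hac hbc habc hrad hc1 hc2
    have hradm : rad (a * b * c) = rad a * rad b * rad c := by
      rw [rad_mul_coprime (Nat.Coprime.mul_left hac hbc), rad_mul_coprime hab]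
    rw [hradm] at hrad
    have hac' : (a : ℝ) ≤ Y ^ K := by
      have : (a : ℝ) ≤ c := by exact_mod_cast (by omega : a ≤ c)
      exact this.trans hc2
    have hbc' : (b : ℝ) ≤ Y ^ K := by
      have : (b : ℝ) ≤ c := by exact_mod_cast (by omega : b ≤ c)
      exact this.trans hc2
    have hclarge : Y ^ (98 / 100 : ℝ) ≤ c := by
      have h0 : 0 ≤ Y ^ (98 / 100 : ℝ) := Real.rpow_nonneg hpos.le _
      linarith
    have halarge : b ≤ a → Y ^ (98 / 100 : ℝ) ≤ a := by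
      intro h
      have h1 : (c : ℝ) ≤ 2 * a := by exact_mod_cast (by omega : c ≤ 2 * a)
      linarith
    have hblarge : a ≤ b → Y ^ (98 / 100 : ℝ) ≤ b := by
      intro h
      have h1 : (c : ℝ) ≤ 2 * b := by exact_mod_cast (by omega : c ≤ 2 * b)
      linarith
    rw [Finset.mem_coe, hT]
    simp only [Finset.mem_union, Finset.mem_image, Prod.exists, Prod.mk.injEq]
    rcases Nat.le_total b a with hle | hle
    · rcases Nat.le_total (rad a) (rad c) with h | h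
      · rcases good_mem (K := K) (Y := Y) ha hb hc hac' hbc' hc2 (Or.inl habc) hac hbc (Or.inl h)
          hrad hclarge with h1 | h1
        · exact Or.inl (Or.inl ⟨a, b, c, h1, rfl, rfl, rfl⟩)
        · exact Or.inl (Or.inr ⟨b, a, c, h1, rfl, rfl, rfl⟩)
      · rcases good_mem (K := K) (Y := Y) (x := b) (y := c) (n := a) hb hc ha hbc' hc2 hac'
          (Or.inr (Or.inl (by omega))) hab.symm hac.symm (Or.inr h)
          (by
            have e : rad b * rad c * rad a = rad a * rad b * rad c := by ring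
            rw [e]; exact hrad) (halarge hle) with h1 | h1
        · exact Or.inr (Or.inl (Or.inl ⟨b, c, a, h1, rfl, rfl, rfl⟩))
        · exact Or.inr (Or.inl (Or.inr ⟨c, b, a, h1, rfl, rfl, rfl⟩))
    · rcases Nat.le_total (rad b) (rad c) with h | h
      · rcases good_mem (K := K) (Y := Y) ha hb hc hac' hbc' hc2 (Or.inl habc) hac hbc (Or.inr h)
          hrad hclarge with h1 | h1
        · exact Or.inl (Or.inl ⟨a, b, c, h1, rfl, rfl, rfl⟩)
        · exact Or.inl (Or.inr ⟨b, a, c, h1, rfl, rfl, rfl⟩)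
      · rcases good_mem (K := K) (Y := Y) (x := a) (y := c) (n := b) ha hc hb hac' hc2 hbc'
          (Or.inr (Or.inl (by omega))) hab hbc.symm (Or.inr h)
          (by
            have e : rad a * rad c * rad b = rad a * rad b * rad c := by ring
            rw [e]; exact hrad) (hblarge hle) with h1 | h1
        · exact Or.inr (Or.inr (Or.inl ⟨a, c, b, h1, rfl, rfl, rfl⟩))
        · exact Or.inr (Or.inr (Or.inr ⟨c, a, b, h1, rfl, rfl, rfl⟩))
  have hncard := Set.ncard_le_ncard hsub (Finset.finite_toSet T)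
  rw [Set.ncard_coe_finset] at hncard
  have h6 : (6 : ℝ) * Y ^ (3 / 5 - 1 / 1000 : ℝ) ≤ Y ^ (3 / 5 : ℝ) := by
    have : Y ^ (3 / 5 : ℝ) = Y ^ (1 / 1000 : ℝ) * Y ^ (3 / 5 - 1 / 1000 : ℝ) := by
      rw [← Real.rpow_add hpos]; norm_num
    rw [this]
    exact mul_le_mul_of_nonneg_right hC (Real.rpow_nonneg hpos.le _)
  calc (({t : ℕ × ℕ × ℕ | AbcTriple t.1 t.2.1 t.2.2 ∧
      (rad (t.1 * t.2.1 * t.2.2) : ℝ) ≤ Y ∧
      Y ^ (99 / 100 : ℝ) ≤ t.2.2 ∧ (t.2.2 : ℝ) ≤ Y ^ K}.ncard : ℕ) : ℝ) ≤ (T.card : ℝ) := by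
        exact_mod_cast hncard
    _ ≤ 6 * (S.card : ℝ) := by exact_mod_cast hTcard
    _ ≤ 6 * Y ^ (3 / 5 - 1 / 1000 : ℝ) := by linarith
    _ ≤ _ := h6

end Pool.Agent.Lib.Pabcv
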