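import Pool.Agent.Lib.Pabcv.FinalA

/-!
# Violators of the abc conjecture

Proof of `violators_card_le`.  With `X ≥ X0`, cover `c ∈ [1, X]` by the dyadic ranges
`C/2 < c ≤ C`, `C = X / 2^j` (real), `0 ≤ j ≤ log2 X`.  If `rad(abc)^M ≤ c` then
`rad(abc) ≤ C^(1/M) =: Y`, and `c > C/2 = Y^M / 2 ≥ Y^0.99` and `c ≤ C = Y^M` if `Y ≥ Y1`.
So the number for this `C` is at most `Y^0.6 = C^(3/(5M)) ≤ X^(3/(5M))` if `C ≥ Y1^M` by
`triples_card_le` with `K = max M 1`; the triples with `c ≤ Y1^M` are at most a constant number.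
Total `≤ (log2 X + 1) X^(3/(5M)) + const ≤ X^(3/(5M) + ε)`.
-/

namespace Pool.Agent.Lib.Pabcv

open Finset

theorem finite_abc_le (B : ℝ) :
    {t : ℕ × ℕ × ℕ | AbcTriple t.1 t.2.1 t.2.2 ∧ (t.2.2 : ℝ) ≤ B}.Finite := by
  refine Set.Finite.subset ((Finset.Icc 0 ⌊B⌋₊ ×ˢ (Finset.Icc 0 ⌊B⌋₊ ×ˢ
    Finset.Icc 0 ⌊B⌋₊)).finite_toSet) ?_
  rintro ⟨a, b, c⟩ ⟨⟨ha, hb, hc, _, _, _, habc⟩, hB⟩
  simp only at ha hb hc habc hB
  have h : c ≤ ⌊B⌋₊ := Nat.le_floor hB
  simp only [Finset.coe_product, Set.mem_prod, Finset.mem_coe, Finset.mem_Icc, zero_le, true_and]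
  omega

theorem eventually_log_bound (ε : ℝ) (hε : 0 < ε) (C0 : ℝ) :
    ∃ X0 : ℕ, ∀ X : ℕ, X0 ≤ X → ((Nat.log 2 X : ℕ) : ℝ) + 1 + C0 ≤ (X : ℝ) ^ ε := by
  have hl2 : 0 < Real.log 2 := Real.log_pos (by norm_num)
  have h1 := (isLittleO_log_rpow_atTop hε).bound (show 0 < Real.log 2 / 2 by positivity)
  have h2 := (tendsto_rpow_atTop hε).eventually_ge_atTop (2 * (1 + C0))
  have h3 := (h1.and (h2.and (Filter.eventually_ge_atTop (1 : ℝ))))
  have h4 := (tendsto_natCast_atTop_atTop (R := ℝ)).eventually h3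
  obtain ⟨X0, hX0⟩ := Filter.eventually_atTop.mp h4
  refine ⟨X0, fun X hX => ?_⟩
  obtain ⟨ha, hb, hc⟩ := hX0 X hX
  have hXε : 0 ≤ (X : ℝ) ^ ε := Real.rpow_nonneg (Nat.cast_nonneg _) _
  rw [Real.norm_of_nonneg (Real.log_nonneg hc), Real.norm_of_nonneg hXε] at ha
  have hlog : ((Nat.log 2 X : ℕ) : ℝ) ≤ Real.log X / Real.log 2 := by
    have := Real.natLog_le_logb X 2
    simpa [Real.logb] using this
  have h5 : Real.log X / Real.log 2 ≤ (X : ℝ) ^ ε / 2 := by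
    rw [div_le_iff₀ hl2]
    linarith
  linarith

theorem violators_card_le (M : ℝ) (hM : 99 / 100 < M) (ε : ℝ) (hε : 0 < ε) : ∃ X0 : ℕ, ∀ X : ℕ,
    X0 ≤ X →
    ({t : ℕ × ℕ × ℕ | AbcTriple t.1 t.2.1 t.2.2 ∧ t.2.2 ≤ X ∧
      (rad (t.1 * t.2.1 * t.2.2) : ℝ) ^ M ≤ t.2.2}.ncard : ℝ) ≤
      (X : ℝ) ^ (3 / (5 * M) + ε) := by
  classical
  have hM0 : 0 < M := by linarith
  have hM1 : 0 < M - 99 / 100 := by linarith
  obtain ⟨Y0, hY0⟩ := triples_card_le (max M 1) (le_max_right _ _)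
  set Y1 : ℝ := max Y0 (2 ^ (1 / (M - 99 / 100))) with hY1
  have hY1a : Y0 ≤ Y1 := le_max_left _ _
  have hY1b : (2 : ℝ) ^ (1 / (M - 99 / 100)) ≤ Y1 := le_max_right _ _
  have hY1c : (1 : ℝ) ≤ Y1 :=
    le_trans (Real.one_le_rpow (by norm_num) (by positivity)) hY1b
  have hY1pos : 0 < Y1 := by linarith
  set S : Finset (ℕ × ℕ × ℕ) := (finite_abc_le (Y1 ^ M)).toFinset with hS
  obtain ⟨X0, hX0⟩ := eventually_log_bound ε hε (S.card : ℝ)
  refine ⟨max X0 1, fun X hX => ?_⟩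
  have hX1 : 1 ≤ X := le_trans (le_max_right _ _) hX
  have hX1r : (1 : ℝ) ≤ X := by exact_mod_cast hX1
  have hXX0 : X0 ≤ X := le_trans (le_max_left _ _) hX
  -- the dyadic parameters
  set Cj : ℕ → ℝ := fun j => (X : ℝ) / 2 ^ j with hCj
  set Yj : ℕ → ℝ := fun j => (Cj j) ^ (1 / M) with hYj
  have hCpos : ∀ j, 0 < Cj j := fun j => by simp only [hCj]; positivity
  have hYpos : ∀ j, 0 < Yj j := fun j => Real.rpow_pos_of_pos (hCpos j) _
  have hYM : ∀ j, (Yj j) ^ M = Cj j := fun j => by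
    simp only [hYj]
    rw [← Real.rpow_mul (hCpos j).le, one_div_mul_cancel hM0.ne', Real.rpow_one]
  have hCX : ∀ j, Cj j ≤ X := fun j => by
    simp only [hCj]
    exact div_le_self (by linarith) (one_le_pow₀ (by norm_num))
  have hTfin : ∀ Y : ℝ, {t : ℕ × ℕ × ℕ | AbcTriple t.1 t.2.1 t.2.2 ∧
      (rad (t.1 * t.2.1 * t.2.2) : ℝ) ≤ Y ∧
      Y ^ (99 / 100 : ℝ) ≤ t.2.2 ∧ (t.2.2 : ℝ) ≤ Y ^ (max M 1)}.Finite := fun Y =>
    (finite_abc_le (Y ^ (max M 1))).subset fun t ht => ⟨ht.1, ht.2.2.2⟩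
  set T : ℕ → Finset (ℕ × ℕ × ℕ) := fun j =>
    if Y1 ≤ Yj j then (hTfin (Yj j)).toFinset else ∅ with hT
  have hTcard : ∀ j, ((T j).card : ℝ) ≤ (X : ℝ) ^ (3 / (5 * M)) := by
    intro j
    simp only [hT]
    split_ifs with h
    · have h1 := hY0 (Yj j) (hY1a.trans h)
      rw [Set.ncard_eq_toFinset_card _ (hTfin (Yj j))] at h1
      refine h1.trans ?_
      have h2 : (Yj j) ^ (3 / 5 : ℝ) = (Cj j) ^ (3 / (5 * M)) := by
        simp only [hYj]
        rw [← Real.rpow_mul (hCpos j).le]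
        congr 1
        field_simp
      rw [h2]
      exact Real.rpow_le_rpow (hCpos j).le (hCX j) (by positivity)
    · simp only [Finset.card_empty, Nat.cast_zero]
      exact Real.rpow_nonneg (Nat.cast_nonneg _) _
  set V : Set (ℕ × ℕ × ℕ) := {t : ℕ × ℕ × ℕ | AbcTriple t.1 t.2.1 t.2.2 ∧ t.2.2 ≤ X ∧
      (rad (t.1 * t.2.1 * t.2.2) : ℝ) ^ M ≤ t.2.2} with hV
  have hsub : V ⊆ ((S ∪ (Finset.range (Nat.log 2 X + 1)).biUnion T : Finset (ℕ × ℕ × ℕ)) :
      Set (ℕ × ℕ × ℕ)) := by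
    rintro ⟨a, b, c⟩ ⟨habc, hcX, hrad⟩
    simp only at habc hcX hrad
    have hc : 1 ≤ c := habc.2.2.1
    rw [Finset.mem_coe, Finset.mem_union]
    set j := Nat.log 2 (X / c) with hj
    have hXc : X / c ≠ 0 := by
      have := Nat.div_pos hcX hc
      omega
    have hj1 : 2 ^ j * c ≤ X := by
      have := Nat.pow_log_le_self 2 hXc
      exact (Nat.le_div_iff_mul_le hc).mp this
    have hj2 : X < 2 ^ (j + 1) * c := by
      have := Nat.lt_pow_succ_log_self (b := 2) (by norm_num) (X / c)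
      exact (Nat.div_lt_iff_lt_mul hc).mp this
    have hjle : j ≤ Nat.log 2 X := Nat.log_mono_right (Nat.div_le_self X c)
    have hcC : (c : ℝ) ≤ Cj j := by
      simp only [hCj]
      rw [le_div_iff₀ (by positivity)]
      have : ((2 ^ j * c : ℕ) : ℝ) ≤ X := by exact_mod_cast hj1
      push_cast at this
      linarith
    have hcC2 : Cj j / 2 < c := by
      simp only [hCj]
      rw [div_div, div_lt_iff₀ (by positivity)]
      have : (X : ℝ) < ((2 ^ (j + 1) * c : ℕ) : ℝ) := by exact_mod_cast hj2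
      push_cast at this
      rw [pow_succ] at this
      linarith
    by_cases hY : Y1 ≤ Yj j
    · right
      refine Finset.mem_biUnion.mpr ⟨j, Finset.mem_range.mpr (by omega), ?_⟩
      simp only [hT, if_pos hY]
      rw [Set.Finite.mem_toFinset]
      refine ⟨habc, ?_, ?_, ?_⟩
      · -- rad ≤ Y
        have h1 : (rad (a * b * c) : ℝ) ^ M ≤ Cj j := hrad.trans hcC
        have h2 : ((rad (a * b * c) : ℝ) ^ M) ^ (1 / M) ≤ (Cj j) ^ (1 / M) :=
          Real.rpow_le_rpow (Real.rpow_nonneg (Nat.cast_nonneg _) _) h1 (by positivity)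
        rwa [← Real.rpow_mul (Nat.cast_nonneg _), mul_one_div_cancel hM0.ne', Real.rpow_one] at h2
      · -- Y^0.99 ≤ c
        refine le_trans ?_ hcC2.le
        rw [← hYM j, le_div_iff₀ (by norm_num)]
        have hYbig : (2 : ℝ) ^ (1 / (M - 99 / 100)) ≤ Yj j := hY1b.trans hY
        have h2le : (2 : ℝ) ≤ (Yj j) ^ (M - 99 / 100) := by
          calc (2 : ℝ) = ((2 : ℝ) ^ (1 / (M - 99 / 100))) ^ (M - 99 / 100) := by
                rw [← Real.rpow_mul (by norm_num), one_div_mul_cancel hM1.ne', Real.rpow_one]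
            _ ≤ (Yj j) ^ (M - 99 / 100) :=
                Real.rpow_le_rpow (Real.rpow_nonneg (by norm_num) _) hYbig hM1.le
        calc (Yj j) ^ (99 / 100 : ℝ) * 2
            ≤ (Yj j) ^ (99 / 100 : ℝ) * (Yj j) ^ (M - 99 / 100) :=
              mul_le_mul_of_nonneg_left h2le (Real.rpow_nonneg (hYpos j).le _)
          _ = Yj j ^ M := by
              rw [← Real.rpow_add (hYpos j)]
              congr 1
              ring
      · show (c : ℝ) ≤ (Yj j) ^ (max M 1)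
        refine hcC.trans ?_
        rw [← hYM j]
        exact Real.rpow_le_rpow_of_exponent_le (hY1c.trans hY) (le_max_left _ _)
    · left
      rw [hS, Set.Finite.mem_toFinset]
      refine ⟨habc, ?_⟩
      show (c : ℝ) ≤ Y1 ^ M
      refine hcC.trans ?_
      rw [← hYM j]
      exact Real.rpow_le_rpow (hYpos j).le (not_le.mp hY).le hM0.le
  have hcard : (V.ncard : ℝ) ≤ S.card + (Nat.log 2 X + 1) * (X : ℝ) ^ (3 / (5 * M)) := by
    have h1 : V.ncard ≤ (S ∪ (Finset.range (Nat.log 2 X + 1)).biUnion T).card := by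
      have := Set.ncard_le_ncard hsub (Finset.finite_toSet _)
      rwa [Set.ncard_coe_finset] at this
    have h2 : (S ∪ (Finset.range (Nat.log 2 X + 1)).biUnion T).card ≤
        S.card + ∑ j ∈ Finset.range (Nat.log 2 X + 1), (T j).card :=
      (Finset.card_union_le _ _).trans (Nat.add_le_add_left Finset.card_biUnion_le _)
    have h3 : (V.ncard : ℝ) ≤ S.card + ∑ j ∈ Finset.range (Nat.log 2 X + 1), ((T j).card : ℝ) := by
      exact_mod_cast h1.trans h2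
    refine h3.trans ?_
    have h4 : ∑ j ∈ Finset.range (Nat.log 2 X + 1), ((T j).card : ℝ) ≤
        ∑ _j ∈ Finset.range (Nat.log 2 X + 1), (X : ℝ) ^ (3 / (5 * M)) :=
      Finset.sum_le_sum fun j _ => hTcard j
    rw [Finset.sum_const, Finset.card_range, nsmul_eq_mul] at h4
    push_cast at h4
    linarith
  refine hcard.trans ?_
  have hXs : (1 : ℝ) ≤ (X : ℝ) ^ (3 / (5 * M)) := Real.one_le_rpow hX1r (by positivity)
  rw [Real.rpow_add (by linarith)]
  have h5 := hX0 X hXX0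
  have hS0 : (0 : ℝ) ≤ S.card := Nat.cast_nonneg _
  calc (S.card : ℝ) + (Nat.log 2 X + 1) * (X : ℝ) ^ (3 / (5 * M))
      ≤ S.card * (X : ℝ) ^ (3 / (5 * M)) + (Nat.log 2 X + 1) * (X : ℝ) ^ (3 / (5 * M)) := by
        have := mul_le_mul_of_nonneg_left hXs hS0
        linarith
    _ = (X : ℝ) ^ (3 / (5 * M)) * ((Nat.log 2 X : ℕ) + 1 + S.card) := by ring
    _ ≤ (X : ℝ) ^ (3 / (5 * M)) * (X : ℝ) ^ ε := mul_le_mul_of_nonneg_left h5 (by linarith)

end Pool.Agent.Lib.Pabcv
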