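import Pool.Agent.Lib.Pabcv.Roots
import Pool.Agent.Lib.P5632c9.DivBound

/-!
# Energies of intervals

`boxEnergy α (fun _ : Fin k => i) (fun _ => M)` counts `(v, v') ∈ ([1,M]^k)²` with
`(∏ v)^i ≡ (∏ v')^i` mod `α`, a unit.

Fix `v` (`M^k` choices).  `u = ∏ v'` satisfies `(u : ZMod α)^i = (∏ v)^i`, a unit, so
(`i ≥ 1`) `u` is a unit mod `α` lying in at most `C α^δ` residue classes (`roots_le`), and
`u ≤ M^k`; the number of such integers `u` is at most `C α^δ (M^k/α + 1)`.  Given `u`, each `v' j`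
divides `u`, so there are at most `d(u)^k ≤ (C' (M^k)^δ'')^k` vectors `v'`
(`Pool.Agent.Lib.P5632c9.card_divisors_le`), `δ'' = δ / k^2`.
-/

namespace Pool.Agent.Lib.Pabcv

open Finset

namespace EBoundAux

/-- the size of a set is at most the size of an image times a bound for the fibres -/
theorem card_le_mul_image {β γ : Type*} [DecidableEq γ] (s : Finset β) (f : β → γ) (B : ℝ)
    (hB : ∀ a ∈ s, ((s.filter fun x => f x = f a).card : ℝ) ≤ B) :
    (s.card : ℝ) ≤ B * ((s.image f).card : ℝ) := by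
  rw [Finset.card_eq_sum_card_image f s, Nat.cast_sum, mul_comm, ← nsmul_eq_mul]
  apply Finset.sum_le_card_nsmul
  intro b hb
  obtain ⟨a, ha, rfl⟩ := Finset.mem_image.1 hb
  exact hB a ha

/-- the number of integers of `[1, N]` in one residue class modulo `α` -/
theorem card_class_le (α N : ℕ) (hα : 1 ≤ α) (v : ℕ) :
    (((Finset.Icc 1 N).filter fun u : ℕ => (u : ZMod α) = (v : ZMod α)).card : ℝ) ≤
      (N : ℝ) / α + 1 := by
  have h1 : (Finset.Icc 1 N).filter (fun u : ℕ => (u : ZMod α) = (v : ZMod α)) =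
      (Finset.Ioc 0 N).filter (fun u : ℕ => u ≡ v [MOD α]) := by
    ext u
    simp only [Finset.mem_filter, Finset.mem_Icc, Finset.mem_Ioc, ZMod.natCast_eq_natCast_iff]
    constructor <;> rintro ⟨⟨h1, h2⟩, h3⟩ <;> exact ⟨⟨by omega, by omega⟩, h3⟩
  have h2 := Nat.Ioc_filter_modEq_card 0 N (show 0 < α by omega) v
  have hα' : (0 : ℚ) < (α : ℚ) := by exact_mod_cast (show 0 < α by omega)
  have h3 : (((Finset.Ioc 0 N).filter (fun u : ℕ => u ≡ v [MOD α])).card : ℤ) ≤
      ⌊((N : ℚ) / α + 1)⌋ := by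
    rw [h2]
    apply max_le
    · rw [Int.le_floor]
      push_cast
      have e1 : ((⌊((N : ℚ) - (v : ℚ)) / (α : ℚ)⌋ : ℤ) : ℚ) ≤ ((N : ℚ) - v) / α := Int.floor_le _
      have e2 : ((0 : ℚ) - v) / α - 1 < ((⌊((0 : ℚ) - (v : ℚ)) / (α : ℚ)⌋ : ℤ) : ℚ) :=
        Int.sub_one_lt_floor _
      have e3 : ((N : ℚ) - v) / α - ((0 : ℚ) - v) / α = (N : ℚ) / α := by
        field_simp
        ring
      linarith
    · apply Int.floor_nonneg.2
      positivity
  rw [h1]
  have h4 : ((((Finset.Ioc 0 N).filter (fun u : ℕ => u ≡ v [MOD α])).card : ℤ) : ℚ) ≤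
      (N : ℚ) / α + 1 := Int.le_floor.1 h3
  have h5 : (((((Finset.Ioc 0 N).filter (fun u : ℕ => u ≡ v [MOD α])).card : ℤ) : ℚ) : ℝ) ≤
      (((N : ℚ) / α + 1 : ℚ) : ℝ) := by exact_mod_cast h4
  push_cast at h5
  exact h5

end EBoundAux

open EBoundAux in
theorem eBound (I k : ℕ) (hk : 1 ≤ k) (δ : ℝ) (hδ : 0 < δ) : ∃ C : ℝ, 1 ≤ C ∧
    ∀ i α M : ℕ, 1 ≤ i → i ≤ I → 1 ≤ α → 1 ≤ M →
      (boxEnergy α (fun _ : Fin k => i) (fun _ => M) : ℝ) ≤
        C * ((α : ℝ) * M) ^ δ * ((M : ℝ) ^ k + (M : ℝ) ^ (2 * k) / α) := by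
  classical
  have hk0 : (0 : ℝ) < k := by exact_mod_cast (show 0 < k by omega)
  obtain ⟨C₁, hC₁, hroots⟩ := roots_le I δ hδ
  obtain ⟨C₂, hC₂, hdiv⟩ := Pool.Agent.Lib.P5632c9.card_divisors_le (δ / (k : ℝ) ^ 2) (by positivity)
  refine ⟨C₁ * C₂ ^ k, one_le_mul_of_one_le_of_one_le hC₁ (one_le_pow₀ hC₂), ?_⟩
  intro i α M hi hiI hα hM
  have : NeZero α := ⟨by omega⟩
  have hα0 : (0 : ℝ) < α := by exact_mod_cast (show 0 < α by omega)
  have hM0 : (0 : ℝ) < M := by exact_mod_cast (show 0 < M by omega)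
  set box : Finset (Fin k → ℕ) := Fintype.piFinset (fun _ : Fin k => Finset.Icc 1 M) with hbox
  set N := M ^ k with hN
  have hprod : ∀ v ∈ box, 1 ≤ ∏ j, v j ∧ ∏ j, v j ≤ N := by
    intro v hv
    rw [hbox, Fintype.mem_piFinset] at hv
    have h1 : ∀ j, 1 ≤ v j ∧ v j ≤ M := fun j => Finset.mem_Icc.1 (hv j)
    refine ⟨Nat.succ_le_of_lt (Finset.prod_pos fun j _ => (h1 j).1), ?_⟩
    calc ∏ j, v j ≤ ∏ _j : Fin k, M := Finset.prod_le_prod' fun j _ => (h1 j).2
      _ = N := by rw [Finset.prod_const, Finset.card_univ, Fintype.card_fin]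
  -- the number of integers with a given i-th power
  have hU : ∀ w : ZMod α, IsUnit w →
      (((Finset.Icc 1 N).filter fun u : ℕ => (u : ZMod α) ^ i = w).card : ℝ) ≤
        ((N : ℝ) / α + 1) * (C₁ * (α : ℝ) ^ δ) := by
    intro w hw
    obtain ⟨w', hw'⟩ := hw
    have h1 := card_le_mul_image ((Finset.Icc 1 N).filter fun u : ℕ => (u : ZMod α) ^ i = w)
      (fun u : ℕ => (u : ZMod α)) ((N : ℝ) / α + 1) (by
        intro a _
        refine le_trans ?_ (card_class_le α N hα a)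
        exact_mod_cast Finset.card_le_card (by
          intro u hu
          rw [Finset.mem_filter] at hu ⊢
          exact ⟨(Finset.mem_filter.1 hu.1).1, hu.2⟩))
    refine h1.trans (mul_le_mul_of_nonneg_left ?_ (by positivity))
    refine le_trans ?_ (hroots i α hi hiI hα w')
    have h2 : ((Finset.Icc 1 N).filter fun u : ℕ => (u : ZMod α) ^ i = w).image
        (fun u : ℕ => (u : ZMod α)) ⊆
        (Finset.univ.filter fun x : (ZMod α)ˣ => x ^ i = w').image
          (fun x : (ZMod α)ˣ => (x : ZMod α)) := by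
      intro x hx
      obtain ⟨u, hu, rfl⟩ := Finset.mem_image.1 hx
      rw [Finset.mem_filter] at hu
      have h3 : IsUnit ((u : ZMod α) ^ i) := by rw [hu.2, ← hw']; exact w'.isUnit
      have h4 : IsUnit (u : ZMod α) := (isUnit_pow_iff (by omega)).1 h3
      obtain ⟨y, hy⟩ := h4
      refine Finset.mem_image.2 ⟨y, ?_, hy⟩
      rw [Finset.mem_filter]
      refine ⟨Finset.mem_univ _, ?_⟩
      apply Units.ext
      rw [Units.val_pow_eq_pow_val, hy, hu.2, hw']
    have h3 : ({x : (ZMod α)ˣ | x ^ i = w'}.ncard) =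
        (Finset.univ.filter fun x : (ZMod α)ˣ => x ^ i = w').card := by
      rw [← Set.ncard_coe_finset]
      congr 1
      ext x
      simp
    rw [h3]
    exact_mod_cast (Finset.card_le_card h2).trans Finset.card_image_le
  -- the number of vectors with a given product
  have hfib : ∀ u : ℕ, 1 ≤ u → u ≤ N →
      ((box.filter fun v => ∏ j, v j = u).card : ℝ) ≤ C₂ ^ k * (M : ℝ) ^ δ := by
    intro u hu huN
    have h1 : (box.filter fun v => ∏ j, v j = u) ⊆ Fintype.piFinset fun _ : Fin k => u.divisors := by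
      intro v hv
      rw [Finset.mem_filter] at hv
      rw [Fintype.mem_piFinset]
      intro j
      rw [Nat.mem_divisors]
      exact ⟨by rw [← hv.2]; exact Finset.dvd_prod_of_mem _ (Finset.mem_univ j), by omega⟩
    have h2 : ((box.filter fun v => ∏ j, v j = u).card : ℝ) ≤ (u.divisors.card : ℝ) ^ k := by
      have h3 := Finset.card_le_card h1
      rw [Fintype.card_piFinset, Finset.prod_const, Finset.card_univ, Fintype.card_fin] at h3
      exact_mod_cast h3
    have hu0 : (0 : ℝ) < u := by exact_mod_cast hu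
    calc ((box.filter fun v => ∏ j, v j = u).card : ℝ) ≤ (u.divisors.card : ℝ) ^ k := h2
      _ ≤ (C₂ * (u : ℝ) ^ (δ / (k : ℝ) ^ 2)) ^ k :=
          pow_le_pow_left₀ (by positivity) (hdiv u (by omega)) k
      _ ≤ (C₂ * (N : ℝ) ^ (δ / (k : ℝ) ^ 2)) ^ k := by
          apply pow_le_pow_left₀ (by positivity)
          apply mul_le_mul_of_nonneg_left _ (by linarith)
          apply Real.rpow_le_rpow hu0.le (by exact_mod_cast huN) (by positivity)
      _ = C₂ ^ k * (M : ℝ) ^ δ := by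
          rw [mul_pow, hN]
          congr 1
          push_cast
          rw [← Real.rpow_natCast (M : ℝ) k, ← Real.rpow_mul hM0.le, ← Real.rpow_natCast,
            ← Real.rpow_mul hM0.le]
          congr 1
          field_simp
  -- the number of partners of a given vector
  have hpart : ∀ v ∈ box, IsUnit (∏ j, ((v j : ℕ) : ZMod α) ^ i) →
      ((box.filter fun v' => ∏ j, ((v j : ℕ) : ZMod α) ^ i = ∏ j, ((v' j : ℕ) : ZMod α) ^ i).card
        : ℝ) ≤ C₂ ^ k * (M : ℝ) ^ δ * (((N : ℝ) / α + 1) * (C₁ * (α : ℝ) ^ δ)) := by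
    intro v hv hunit
    have h1 := card_le_mul_image
      (box.filter fun v' => ∏ j, ((v j : ℕ) : ZMod α) ^ i = ∏ j, ((v' j : ℕ) : ZMod α) ^ i)
      (fun v' : Fin k → ℕ => ∏ j, v' j) (C₂ ^ k * (M : ℝ) ^ δ) (by
        intro a ha
        have ha' := hprod a (Finset.mem_filter.1 ha).1
        refine le_trans ?_ (hfib (∏ j, a j) ha'.1 ha'.2)
        refine Nat.cast_le.2 (Finset.card_le_card ?_)
        intro v' hv'
        rw [Finset.mem_filter] at hv' ⊢
        exact ⟨(Finset.mem_filter.1 hv'.1).1, hv'.2⟩)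
    refine h1.trans (mul_le_mul_of_nonneg_left ?_ (by positivity))
    refine le_trans ?_ (hU _ hunit)
    refine Nat.cast_le.2 (Finset.card_le_card ?_)
    · intro u hu
      obtain ⟨v', hv', rfl⟩ := Finset.mem_image.1 hu
      rw [Finset.mem_filter] at hv' ⊢
      have h2 := hprod v' hv'.1
      refine ⟨Finset.mem_Icc.2 h2, ?_⟩
      rw [hv'.2, Nat.cast_prod, Finset.prod_pow]
  -- summing up
  have hbcard : (box.card : ℝ) = (N : ℝ) := by
    rw [hbox, Fintype.card_piFinset, Finset.prod_const, Finset.card_univ, Fintype.card_fin,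
      Nat.card_Icc, Nat.add_sub_cancel]
  have htot : (boxEnergy α (fun _ : Fin k => i) (fun _ => M) : ℝ) ≤
      C₂ ^ k * (M : ℝ) ^ δ * (((N : ℝ) / α + 1) * (C₁ * (α : ℝ) ^ δ)) * (N : ℝ) := by
    have hbe : boxEnergy α (fun _ : Fin k => i) (fun _ => M) =
        ((box ×ˢ box).filter (fun v : (Fin k → ℕ) × (Fin k → ℕ) =>
          IsUnit (∏ j, ((v.1 j : ℕ) : ZMod α) ^ i) ∧
          ∏ j, ((v.1 j : ℕ) : ZMod α) ^ i = ∏ j, ((v.2 j : ℕ) : ZMod α) ^ i)).card := by
      unfold boxEnergy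
      refine congrArg Finset.card ?_
      ext s
      simp only [Finset.mem_filter, Finset.mem_product, Fintype.mem_piFinset, hbox]
    rw [hbe]
    have h1 := card_le_mul_image
      ((box ×ˢ box).filter (fun v : (Fin k → ℕ) × (Fin k → ℕ) =>
        IsUnit (∏ j, ((v.1 j : ℕ) : ZMod α) ^ i) ∧
        ∏ j, ((v.1 j : ℕ) : ZMod α) ^ i = ∏ j, ((v.2 j : ℕ) : ZMod α) ^ i))
      (fun v => v.1) (C₂ ^ k * (M : ℝ) ^ δ * (((N : ℝ) / α + 1) * (C₁ * (α : ℝ) ^ δ))) (by
        intro a ha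
        rw [Finset.mem_filter, Finset.mem_product] at ha
        refine le_trans ?_ (hpart a.1 ha.1.1 ha.2.1)
        have h2 : (((box ×ˢ box).filter (fun v : (Fin k → ℕ) × (Fin k → ℕ) =>
            IsUnit (∏ j, ((v.1 j : ℕ) : ZMod α) ^ i) ∧
            ∏ j, ((v.1 j : ℕ) : ZMod α) ^ i = ∏ j, ((v.2 j : ℕ) : ZMod α) ^ i)).filter
            (fun x => x.1 = a.1)).card ≤
            (box.filter fun v' => ∏ j, ((a.1 j : ℕ) : ZMod α) ^ i =
              ∏ j, ((v' j : ℕ) : ZMod α) ^ i).card := by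
          apply Finset.card_le_card_of_injOn (fun x => x.2)
          · intro x hx
            rw [Finset.mem_coe, Finset.mem_filter, Finset.mem_filter, Finset.mem_product] at hx
            rw [Finset.mem_coe, Finset.mem_filter]
            exact ⟨hx.1.1.2, by rw [← hx.2]; exact hx.1.2.2⟩
          · intro x hx y hy hxy
            rw [Finset.mem_coe, Finset.mem_filter] at hx hy
            exact Prod.ext (hx.2.trans hy.2.symm) hxy
        exact Nat.cast_le.2 h2)
    refine h1.trans (mul_le_mul_of_nonneg_left ?_ (by positivity))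
    rw [← hbcard]
    refine Nat.cast_le.2 (Finset.card_le_card ?_)
    intro v hv
    obtain ⟨x, hx, rfl⟩ := Finset.mem_image.1 hv
    rw [Finset.mem_filter, Finset.mem_product] at hx
    exact hx.1.1
  refine htot.trans (le_of_eq ?_)
  rw [Real.mul_rpow hα0.le hM0.le, hN]
  push_cast
  field_simp
  ring

end Pool.Agent.Lib.Pabcv
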