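import Pool.Agent.Lib.Pabcv.BoxHolder
import Pool.Agent.Lib.Pabcv.EBound

/-!
# The energy of a box of powers
-/

namespace Pool.Agent.Lib.Pabcv

open Finset

theorem boxEnergy_le_prod (α : ℕ) {ι : Type} [Fintype ι] (e M : ι → ℕ) :
    boxEnergy α e M ≤ (∏ j, M j) * ∏ j, M j := by
  classical
  rw [boxEnergy]
  refine (Finset.card_filter_le _ _).trans ?_
  rw [Finset.card_product, Fintype.card_piFinset]
  simp

/-- The loss from the integrality of the moments. -/
theorem loss_le (W0 W σ κ μ A : ℝ) (hμ : 0 < μ) (hμW : μ ≤ W0) (hW : W0 ≤ W)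
    (hWσ : W < σ) (hκ0 : 0 ≤ κ) (hκ : σ ≤ 2 * W → (2 * W - σ) ^ 2 ≤ 4 * W * κ)
    (hk1 : A ≤ W0) : (1 - A / W0) * max 0 (A + μ - σ) ≤ μ * κ / W0 := by
  have hW0 : 0 < W0 := lt_of_lt_of_le hμ hμW
  have hWp : 0 < W := lt_of_lt_of_le hW0 hW
  have e1 : (1 - A / W0) * max 0 (A + μ - σ) = (W0 - A) * max 0 (A + μ - σ) / W0 := by
    field_simp
  rw [e1]
  refine div_le_div_of_nonneg_right ?_ hW0.le
  rcases le_or_gt (A + μ) σ with h | h
  · rw [max_eq_left (by linarith), mul_zero]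
    positivity
  · rw [max_eq_right (by linarith)]
    have h2W : σ ≤ 2 * W0 := by linarith
    have h2W' : σ ≤ 2 * W := by linarith
    have h3 := hκ h2W'
    have h4 : (W0 - A) * (A + μ - σ) ≤ (W0 + μ - σ) ^ 2 / 4 := by
      nlinarith [sq_nonneg ((W0 - A) - (A + μ - σ))]
    have h5 : (W0 + μ - σ) ^ 2 * W0 ≤ μ * (2 * W0 - σ) ^ 2 := by
      have hc : (σ - W0) ≤ μ := by linarith
      have hc0 : 0 < σ - W0 := by linarith
      have hc2 : (σ - W0) ^ 2 ≤ μ * W0 := by nlinarith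
      nlinarith [mul_nonneg (sub_nonneg.2 hμW) (sub_nonneg.2 hc2)]
    have h6 : (2 * W0 - σ) ^ 2 * W ≤ W0 * (2 * W - σ) ^ 2 := by
      have hs : 0 ≤ 4 * W * W0 - σ ^ 2 := by nlinarith
      nlinarith [mul_nonneg (sub_nonneg.2 hW) hs]
    have h7 : (W0 + μ - σ) ^ 2 * (W0 * W) ≤ (4 * μ * κ) * (W0 * W) := by
      calc (W0 + μ - σ) ^ 2 * (W0 * W) = ((W0 + μ - σ) ^ 2 * W0) * W := by ring
        _ ≤ (μ * (2 * W0 - σ) ^ 2) * W := mul_le_mul_of_nonneg_right h5 hWp.le
        _ = μ * ((2 * W0 - σ) ^ 2 * W) := by ring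
        _ ≤ μ * (W0 * (2 * W - σ) ^ 2) := mul_le_mul_of_nonneg_left h6 hμ.le
        _ ≤ μ * (W0 * (4 * W * κ)) := by gcongr
        _ = (4 * μ * κ) * (W0 * W) := by ring
    have h8 : (W0 + μ - σ) ^ 2 ≤ 4 * μ * κ := le_of_mul_le_mul_right h7 (by positivity)
    linarith

theorem boxEnergy_le (J : ℕ) (h σ δ K : ℝ) (hh : 0 < h) (hσ : 0 < σ) (hδ : 0 < δ) (hK : σ ≤ K) :
    ∃ Y0 : ℝ, ∀ Y : ℝ, Y0 ≤ Y → ∀ (ν : Fin J → ℕ) (α : ℕ) (W κ : ℝ), Y ^ σ ≤ α →
      (α : ℝ) ≤ Y ^ K → h * ∑ j, (ν j : ℝ) ≤ W → W < σ → 0 ≤ κ →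
      (σ ≤ 2 * W → (2 * W - σ) ^ 2 ≤ 4 * W * κ) →
      (boxEnergy α (fun j : Fin J => (j : ℕ) + 1) (fun j => ⌊Y ^ (h * ν j)⌋₊) : ℝ) ≤
        Y ^ (W + κ + δ) := by
  classical
  have hK0 : 0 < K := by linarith
  set δ' : ℝ := δ / (4 * K) with hδ'
  have hδ'0 : 0 < δ' := by positivity
  set km : ℕ := ⌊σ / h⌋₊ + 2 with hkm
  choose C hC1 hC using fun k : ℕ => eBound J (k + 1) (by omega) δ' hδ'0
  set C0 : ℝ := ∑ k ∈ range km, C k with hC0
  have hC01 : 1 ≤ C0 := by
    have h0 : (0 : ℕ) ∈ range km := by rw [mem_range]; omega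
    exact (hC1 0).trans (Finset.single_le_sum (f := C) (fun i _ => by linarith [hC1 i]) h0)
  have hE : ∀ k i α M : ℕ, 1 ≤ k → k ≤ km → 1 ≤ i → i ≤ J → 1 ≤ α → 1 ≤ M →
      (boxEnergy α (fun _ : Fin k => i) (fun _ => M) : ℝ) ≤
        C0 * ((α : ℝ) * M) ^ δ' * ((M : ℝ) ^ k + (M : ℝ) ^ (2 * k) / α) := by
    intro k i α M hk1 hk2 hi1 hi2 hα hM
    obtain ⟨k', rfl⟩ : ∃ k', k = k' + 1 := ⟨k - 1, by omega⟩
    refine (hC k' i α M hi1 hi2 hα hM).trans ?_
    have hle : C k' ≤ C0 := Finset.single_le_sum (f := C) (fun i _ => by linarith [hC1 i])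
      (mem_range.2 (by omega))
    gcongr
  refine ⟨max 1 ((2 * C0) ^ (2 / δ)), ?_⟩
  intro Y hY ν α W κ hα1 hα2 hνW hWσ hκ0 hκ
  have hY1 : 1 ≤ Y := (le_max_left _ _).trans hY
  have hY0 : 0 < Y := by linarith
  have hYC : 2 * C0 ≤ Y ^ (δ / 2) := by
    have h1 : (2 * C0) ^ (2 / δ) ≤ Y := (le_max_right _ _).trans hY
    have h2 : 2 * C0 = ((2 * C0) ^ (2 / δ)) ^ (δ / 2) := by
      rw [← Real.rpow_mul (by positivity)]
      rw [show 2 / δ * (δ / 2) = 1 by field_simp, Real.rpow_one]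
    rw [h2]
    exact Real.rpow_le_rpow (by positivity) h1 (by positivity)
  have hα0 : 1 ≤ α := by
    have : (0 : ℝ) < α := lt_of_lt_of_le (Real.rpow_pos_of_pos hY0 _) hα1
    have h' : 0 < α := by exact_mod_cast this
    exact h'
  have hαpos : (0 : ℝ) < α := by exact_mod_cast hα0
  set W0 : ℝ := h * ∑ j, (ν j : ℝ) with hW0
  have hW00 : 0 ≤ W0 := by positivity
  set M : Fin J → ℕ := fun j => ⌊Y ^ (h * ν j)⌋₊ with hM
  have hM1 : ∀ j, 1 ≤ M j := by
    intro j
    rw [hM]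
    apply Nat.le_floor
    rw [Nat.cast_one]
    exact Real.one_le_rpow hY1 (by positivity)
  have hM2 : ∀ j, (M j : ℝ) ≤ Y ^ (h * ν j) := fun j => Nat.floor_le (by positivity)
  set T : Finset (Fin J) := univ.filter (fun j => ν j ≠ 0) with hT
  have hMT : ∀ j ∉ T, M j = 1 := by
    intro j hj
    have : ν j = 0 := by
      by_contra h'
      exact hj (by rw [hT, mem_filter]; exact ⟨mem_univ _, h'⟩)
    simp [hM, this]
  rcases T.eq_empty_or_nonempty with hTe | hTne
  · have hall : ∀ j, M j = 1 := fun j => hMT j (by rw [hTe]; simp)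
    have h1 : (boxEnergy α (fun j : Fin J => (j : ℕ) + 1) M : ℝ) ≤ 1 := by
      have := boxEnergy_le_prod α (fun j : Fin J => (j : ℕ) + 1) M
      simp only [hall, prod_const_one, mul_one] at this
      exact_mod_cast this
    refine h1.trans (Real.one_le_rpow hY1 ?_)
    linarith
  · -- the main case
    have hνpos : ∀ j ∈ T, 1 ≤ ν j := by
      intro j hj
      rw [hT, mem_filter] at hj
      exact Nat.one_le_iff_ne_zero.2 hj.2
    have hμpos : ∀ j ∈ T, 0 < h * (ν j : ℝ) := by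
      intro j hj
      have : (1 : ℝ) ≤ ν j := by exact_mod_cast hνpos j hj
      positivity
    have hsumT : ∑ j ∈ T, h * (ν j : ℝ) = W0 := by
      rw [hW0, Finset.mul_sum]
      apply Finset.sum_subset (Finset.subset_univ _)
      intro j _ hj
      have : ν j = 0 := by
        by_contra h'
        exact hj (by rw [hT, mem_filter]; exact ⟨mem_univ _, h'⟩)
      simp [this]
    have hμle : ∀ j ∈ T, h * (ν j : ℝ) ≤ W0 := by
      intro j hj
      rw [← hsumT]
      exact Finset.single_le_sum (f := fun j => h * (ν j : ℝ)) (fun i hi => (hμpos i hi).le) hj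
    have hW0pos : 0 < W0 := by
      obtain ⟨j, hj⟩ := hTne
      exact lt_of_lt_of_le (hμpos j hj) (hμle j hj)
    -- the moments
    set k : Fin J → ℕ := fun j => ⌊W0 / (h * ν j)⌋₊ with hk
    have hk1 : ∀ j ∈ T, 1 ≤ k j := by
      intro j hj
      rw [hk]
      apply Nat.le_floor
      rw [Nat.cast_one, one_le_div (hμpos j hj)]
      exact hμle j hj
    have hkμ : ∀ j ∈ T, (k j : ℝ) * (h * ν j) ≤ W0 := by
      intro j hj
      have : (k j : ℝ) ≤ W0 / (h * ν j) := Nat.floor_le (by have := hμpos j hj; positivity)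
      rwa [le_div_iff₀ (hμpos j hj)] at this
    have hkμ' : ∀ j ∈ T, W0 < ((k j : ℝ) + 1) * (h * ν j) := by
      intro j hj
      have : W0 / (h * ν j) < (k j : ℝ) + 1 := Nat.lt_floor_add_one _
      rwa [div_lt_iff₀ (hμpos j hj)] at this
    have hkm : ∀ j ∈ T, k j + 1 ≤ km := by
      intro j hj
      have h1 : (k j : ℝ) ≤ σ / h := by
        rw [le_div_iff₀ hh]
        have h2 : (1 : ℝ) ≤ ν j := by exact_mod_cast hνpos j hj
        have h3 := hkμ j hj
        have h4 : (k j : ℝ) * h ≤ (k j : ℝ) * (h * ν j) := by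
          apply mul_le_mul_of_nonneg_left _ (Nat.cast_nonneg _)
          nlinarith
        linarith
      have h2 : k j ≤ ⌊σ / h⌋₊ := Nat.le_floor h1
      omega
    set a : Fin J → ℝ := fun j => ((k j : ℝ) + 1) * (h * ν j) / W0 - 1 with ha
    set b : Fin J → ℝ := fun j => 1 - (k j : ℝ) * (h * ν j) / W0 with hb
    have ha0 : ∀ j ∈ T, 0 ≤ a j := by
      intro j hj
      rw [ha]
      have : 1 ≤ ((k j : ℝ) + 1) * (h * ν j) / W0 := by
        rw [one_le_div hW0pos]; exact (hkμ' j hj).le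
      simpa using this
    have hb0 : ∀ j ∈ T, 0 ≤ b j := by
      intro j hj
      rw [hb]
      have : (k j : ℝ) * (h * ν j) / W0 ≤ 1 := by
        rw [div_le_one hW0pos]; exact hkμ j hj
      simpa using this
    have hab' : ∀ j, a j + b j = h * ν j / W0 := by
      intro j
      simp only [ha, hb]
      ring
    have hab : ∑ j ∈ T, (a j + b j) = 1 := by
      rw [Finset.sum_congr rfl (fun j _ => hab' j), ← Finset.sum_div, hsumT]
      field_simp
    have hab1 : ∀ j ∈ T, a j * k j + b j * (k j + 1) = 1 := by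
      intro j _
      simp only [ha, hb]
      field_simp
      ring
    have hH := boxEnergy_holder α hα0 T (fun j : Fin J => (j : ℕ) + 1) M k hMT hk1 a b ha0 hb0
      hab hab1
    refine hH.trans ?_
    -- bound each energy
    set G : ℝ := 2 * C0 * Y ^ (δ / 2) with hG
    have hG1 : 1 ≤ G := by
      have : 1 ≤ Y ^ (δ / 2) := Real.one_le_rpow hY1 (by positivity)
      rw [hG]
      nlinarith
    have hG0 : 0 < G := by linarith
    have hEj : ∀ j ∈ T, ∀ k' : ℕ, 1 ≤ k' → k' ≤ km →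
        (boxEnergy α (fun _ : Fin k' => (j : ℕ) + 1) (fun _ => M j) : ℝ) ≤
          G * Y ^ ((k' : ℝ) * (h * ν j) + max 0 ((k' : ℝ) * (h * ν j) - σ)) := by
      intro j hj k' hk'1 hk'2
      refine (hE k' ((j : ℕ) + 1) α (M j) hk'1 hk'2 (by omega) (by have := j.2; omega) hα0
        (hM1 j)).trans ?_
      have hMj0 : (0 : ℝ) < M j := by exact_mod_cast hM1 j
      have e1 : ((α : ℝ) * M j) ^ δ' ≤ Y ^ (δ / 2) := by
        have h1 : (α : ℝ) * M j ≤ Y ^ (2 * K) := by
          have h2 : (M j : ℝ) ≤ Y ^ K := by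
            refine (hM2 j).trans (Real.rpow_le_rpow_of_exponent_le hY1 ?_)
            have := hμle j hj
            linarith
          calc (α : ℝ) * M j ≤ Y ^ K * Y ^ K := by gcongr
            _ = Y ^ (2 * K) := by rw [← Real.rpow_add hY0]; ring_nf
        calc ((α : ℝ) * M j) ^ δ' ≤ (Y ^ (2 * K)) ^ δ' :=
              Real.rpow_le_rpow (by positivity) h1 hδ'0.le
          _ = Y ^ (δ / 2) := by
              rw [← Real.rpow_mul hY0.le, hδ']
              congr 1
              field_simp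
              ring
      have e2 : (M j : ℝ) ^ k' ≤ Y ^ ((k' : ℝ) * (h * ν j)) := by
        calc (M j : ℝ) ^ k' ≤ (Y ^ (h * ν j)) ^ k' := pow_le_pow_left₀ hMj0.le (hM2 j) k'
          _ = Y ^ ((k' : ℝ) * (h * ν j)) := by
              rw [← Real.rpow_natCast, ← Real.rpow_mul hY0.le]; ring_nf
      have e3 : (M j : ℝ) ^ (2 * k') / α ≤ Y ^ ((k' : ℝ) * (h * ν j) +
          ((k' : ℝ) * (h * ν j) - σ)) := by
        rw [div_le_iff₀ hαpos]
        calc (M j : ℝ) ^ (2 * k') = (M j : ℝ) ^ k' * (M j : ℝ) ^ k' := by ring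
          _ ≤ Y ^ ((k' : ℝ) * (h * ν j)) * Y ^ ((k' : ℝ) * (h * ν j)) := by gcongr
          _ = Y ^ ((k' : ℝ) * (h * ν j) + ((k' : ℝ) * (h * ν j) - σ)) * Y ^ σ := by
              rw [← Real.rpow_add hY0, ← Real.rpow_add hY0]; ring_nf
          _ ≤ _ := by gcongr
      have e4 : (M j : ℝ) ^ k' + (M j : ℝ) ^ (2 * k') / α ≤
          2 * Y ^ ((k' : ℝ) * (h * ν j) + max 0 ((k' : ℝ) * (h * ν j) - σ)) := by
        have f1 : Y ^ ((k' : ℝ) * (h * ν j)) ≤
            Y ^ ((k' : ℝ) * (h * ν j) + max 0 ((k' : ℝ) * (h * ν j) - σ)) :=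
          Real.rpow_le_rpow_of_exponent_le hY1 (by
            have := le_max_left 0 ((k' : ℝ) * (h * ν j) - σ)
            linarith)
        have f2 : Y ^ ((k' : ℝ) * (h * ν j) + ((k' : ℝ) * (h * ν j) - σ)) ≤
            Y ^ ((k' : ℝ) * (h * ν j) + max 0 ((k' : ℝ) * (h * ν j) - σ)) :=
          Real.rpow_le_rpow_of_exponent_le hY1 (by
            have := le_max_right 0 ((k' : ℝ) * (h * ν j) - σ)
            linarith)
        linarith
      calc C0 * ((α : ℝ) * M j) ^ δ' * ((M j : ℝ) ^ k' + (M j : ℝ) ^ (2 * k') / α)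
          ≤ C0 * Y ^ (δ / 2) *
            (2 * Y ^ ((k' : ℝ) * (h * ν j) + max 0 ((k' : ℝ) * (h * ν j) - σ))) := by
              gcongr
        _ = _ := by rw [hG]; ring
    have hfac : ∀ j ∈ T,
        (boxEnergy α (fun _ : Fin (k j) => (j : ℕ) + 1) (fun _ => M j) : ℝ) ^ a j *
          (boxEnergy α (fun _ : Fin (k j + 1) => (j : ℕ) + 1) (fun _ => M j) : ℝ) ^ b j ≤
        Y ^ (h * ν j + h * ν j * κ / W0) * G ^ (a j + b j) := by
      intro j hj
      have g1 := hEj j hj (k j) (hk1 j hj) (by have := hkm j hj; omega)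
      have g2 := hEj j hj (k j + 1) (by omega) (hkm j hj)
      have hmax : max 0 ((k j : ℝ) * (h * ν j) - σ) = 0 := by
        apply max_eq_left
        have := hkμ j hj
        linarith
      rw [hmax, add_zero] at g1
      push_cast at g2
      have p1 : (boxEnergy α (fun _ : Fin (k j) => (j : ℕ) + 1) (fun _ => M j) : ℝ) ^ a j ≤
          G ^ a j * Y ^ ((k j : ℝ) * (h * ν j) * a j) := by
        calc _ ≤ (G * Y ^ ((k j : ℝ) * (h * ν j))) ^ a j :=
              Real.rpow_le_rpow (Nat.cast_nonneg _) g1 (ha0 j hj)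
          _ = _ := by
              rw [Real.mul_rpow hG0.le (by positivity), ← Real.rpow_mul hY0.le]
      have p2 : (boxEnergy α (fun _ : Fin (k j + 1) => (j : ℕ) + 1) (fun _ => M j) : ℝ) ^ b j ≤
          G ^ b j * Y ^ ((((k j : ℝ) + 1) * (h * ν j) +
            max 0 (((k j : ℝ) + 1) * (h * ν j) - σ)) * b j) := by
        calc _ ≤ (G * Y ^ (((k j : ℝ) + 1) * (h * ν j) +
              max 0 (((k j : ℝ) + 1) * (h * ν j) - σ))) ^ b j :=
              Real.rpow_le_rpow (Nat.cast_nonneg _) g2 (hb0 j hj)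
          _ = _ := by
              rw [Real.mul_rpow hG0.le (by positivity), ← Real.rpow_mul hY0.le]
      have hloss := loss_le W0 W σ κ (h * ν j) ((k j : ℝ) * (h * ν j)) (hμpos j hj)
        (hμle j hj) hνW hWσ hκ0 hκ (hkμ j hj)
      have hexp : (k j : ℝ) * (h * ν j) * a j + (((k j : ℝ) + 1) * (h * ν j) +
            max 0 (((k j : ℝ) + 1) * (h * ν j) - σ)) * b j ≤
          h * ν j + h * ν j * κ / W0 := by
        have q1 := hab1 j hj
        have q2 : ((k j : ℝ) + 1) * (h * ν j) - σ = (k j : ℝ) * (h * ν j) + h * ν j - σ := by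
          ring
        rw [q2]
        have q3 : (k j : ℝ) * (h * ν j) * a j + (((k j : ℝ) + 1) * (h * ν j) +
            max 0 ((k j : ℝ) * (h * ν j) + h * ν j - σ)) * b j =
            (h * ν j) * (a j * k j + b j * (k j + 1)) +
            b j * max 0 ((k j : ℝ) * (h * ν j) + h * ν j - σ) := by ring
        rw [q3, q1, mul_one]
        simp only [hb]
        linarith
      calc _ ≤ (G ^ a j * Y ^ ((k j : ℝ) * (h * ν j) * a j)) *
            (G ^ b j * Y ^ ((((k j : ℝ) + 1) * (h * ν j) +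
            max 0 (((k j : ℝ) + 1) * (h * ν j) - σ)) * b j)) :=
            mul_le_mul p1 p2 (Real.rpow_nonneg (Nat.cast_nonneg _) _) (by positivity)
        _ = Y ^ ((k j : ℝ) * (h * ν j) * a j + (((k j : ℝ) + 1) * (h * ν j) +
            max 0 (((k j : ℝ) + 1) * (h * ν j) - σ)) * b j) * G ^ (a j + b j) := by
            rw [Real.rpow_add hY0, Real.rpow_add hG0]; ring
        _ ≤ _ := by
            apply mul_le_mul_of_nonneg_right _ (by positivity)
            exact Real.rpow_le_rpow_of_exponent_le hY1 hexp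
    calc _ ≤ ∏ j ∈ T, Y ^ (h * ν j + h * ν j * κ / W0) * G ^ (a j + b j) :=
          Finset.prod_le_prod (fun j _ => mul_nonneg (Real.rpow_nonneg (Nat.cast_nonneg _) _)
            (Real.rpow_nonneg (Nat.cast_nonneg _) _)) hfac
      _ = Y ^ (∑ j ∈ T, (h * ν j + h * ν j * κ / W0)) * G ^ (∑ j ∈ T, (a j + b j)) := by
          rw [Finset.prod_mul_distrib, Real.rpow_sum_of_pos hY0, Real.rpow_sum_of_pos hG0]
      _ = Y ^ (W0 + κ) * G := by
          rw [hab, Real.rpow_one, Finset.sum_add_distrib, hsumT]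
          congr 3
          rw [← Finset.sum_div, ← Finset.sum_mul, hsumT]
          field_simp
      _ ≤ Y ^ (W + κ) * Y ^ δ := by
          gcongr
          rw [hG]
          calc 2 * C0 * Y ^ (δ / 2) ≤ Y ^ (δ / 2) * Y ^ (δ / 2) := by gcongr
            _ = Y ^ δ := by rw [← Real.rpow_add hY0]; ring_nf
      _ = Y ^ (W + κ + δ) := by rw [← Real.rpow_add hY0]

end Pool.Agent.Lib.Pabcv
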