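import Pool.Agent.Lib.Pabcv.Defs

/-!
# Pairs whose sum or difference is `w z ^ k`

Sketch: split `curveSet` into three parts according to the alternative of `Rel`
(`x + y = w z^k`, `x + w z^k = y`, `y + w z^k = x`); it suffices to show
`T ≤ #B + #A √(D #B)` for the size `T` of each part `P ⊆ A × B`.
Let `N y = #{x ∈ A : (x,y) ∈ P}`.  Cauchy-Schwarz: `T² ≤ #B ∑_y N y ^ 2`
(`sq_sum_le_card_mul_sum_sq`), and `∑_y N y ^ 2 = #{(x,x',y) : (x,y), (x',y) ∈ P}
≤ T + #A² D`.  Indeed for `x' < x` fixed there are at most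
`D` values of `y`: e.g. in the first part `x + y = w z^k`, `x' + y = w z'^k`, so
`w (z^k - z'^k) = x - x' > 0`, `z' < z`, and `d = z - z'` divides `x - x'`;
given `d ≥ 1`, `z' ↦ w ((z'+d)^k - z'^k)` is strictly increasing (`k ≥ 2`, `w ≥ 1`), so `y ↦ d` is
an injection into `(x - x').divisors`.
Finally `T² ≤ #B (T + #A² D)` implies `T ≤ #B + #A √(D #B)`.
-/

namespace Pool.Agent.Lib.Pabcv

open Finset

lemma pow_add_le_aux (d a b : ℕ) (hab : a ≤ b) (m : ℕ) :
    (a + d) ^ m + b ^ m ≤ (b + d) ^ m + a ^ m := by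
  induction m with
  | zero => simp
  | succ m ih =>
    have h1 : a ^ m ≤ (a + d) ^ m := Nat.pow_le_pow_left (by omega) m
    have h2 : (a + d) ^ m ≤ (b + d) ^ m := Nat.pow_le_pow_left (by omega) m
    simp only [pow_succ]
    zify at *
    nlinarith [mul_le_mul_of_nonneg_left ih (Nat.cast_nonneg (α := ℤ) b),
      mul_nonneg (sub_nonneg.2 hab) (sub_nonneg.2 h1),
      mul_nonneg (Nat.cast_nonneg (α := ℤ) d) (sub_nonneg.2 h2)]

lemma pow_add_lt_aux (d a b : ℕ) (hab : a < b) (hd : 1 ≤ d) (m : ℕ) (hm : 2 ≤ m) :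
    (a + d) ^ m + b ^ m < (b + d) ^ m + a ^ m := by
  obtain ⟨m, rfl⟩ : ∃ j, m = j + 1 := ⟨m - 1, by omega⟩
  have ih := pow_add_le_aux d a b hab.le m
  have h1 : a ^ m ≤ (a + d) ^ m := Nat.pow_le_pow_left (by omega) m
  have h2 : (a + d) ^ m < (b + d) ^ m := Nat.pow_lt_pow_left (by omega) (by omega)
  simp only [pow_succ]
  zify at *
  nlinarith [mul_le_mul_of_nonneg_left ih (Nat.cast_nonneg (α := ℤ) b),
    mul_nonneg (sub_nonneg.2 hab.le) (sub_nonneg.2 h1),
    mul_pos (show (0:ℤ) < d by omega) (sub_pos.2 h2)]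

/-- the solution of `w Z^k = w Z'^k + N` is determined by `Z - Z'`. -/
lemma solution_unique {w k N : ℕ} (hw : 1 ≤ w) (hk : 2 ≤ k) (hN : 1 ≤ N) {Z Z' Y Y' : ℕ}
    (h1 : w * Z ^ k = w * Z' ^ k + N) (h2 : w * Y ^ k = w * Y' ^ k + N)
    (hd : Z - Z' = Y - Y') : Z = Y ∧ Z' = Y' := by
  have hlt : ∀ {U U' : ℕ}, w * U ^ k = w * U' ^ k + N → U' < U := by
    intro U U' h
    by_contra hcon
    have h3 : U ^ k ≤ U' ^ k := Nat.pow_le_pow_left (by omega) k
    have h4 : w * U ^ k ≤ w * U' ^ k := Nat.mul_le_mul_left w h3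
    omega
  have hZ := hlt h1
  have hY := hlt h2
  have key : ∀ {U V d : ℕ}, 1 ≤ d → U < V → w * (U + d) ^ k = w * U ^ k + N →
      w * (V + d) ^ k = w * V ^ k + N → False := by
    intro U V d hd hUV h3 h4
    have h5 := pow_add_lt_aux d U V hUV hd k hk
    have h6 : w * ((U + d) ^ k + V ^ k) < w * ((V + d) ^ k + U ^ k) :=
      Nat.mul_lt_mul_of_pos_left h5 (by omega)
    rw [mul_add, mul_add] at h6
    omega
  have e1 : Z = Z' + (Z - Z') := by omega
  have e2 : Y = Y' + (Z - Z') := by omega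
  have h1' : w * (Z' + (Z - Z')) ^ k = w * Z' ^ k + N := by rw [← e1]; exact h1
  have h2' : w * (Y' + (Z - Z')) ^ k = w * Y' ^ k + N := by rw [← e2]; exact h2
  have h3 : Z' = Y' := by
    rcases lt_trichotomy Z' Y' with h | h | h
    · exact (key (by omega) h h1' h2').elim
    · exact h
    · exact (key (by omega) h h2' h1').elim
  exact ⟨by omega, h3⟩

lemma sub_dvd_of_eq {w k N : ℕ} {Z Z' : ℕ} (h1 : w * Z ^ k = w * Z' ^ k + N) :
    Z - Z' ∣ N := by
  have h2 : N = w * (Z ^ k - Z' ^ k) := by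
    rw [Nat.mul_sub]
    omega
  rw [h2]
  exact (Nat.sub_dvd_pow_sub_pow Z Z' k).mul_left w

lemma final_ineq {T b a D : ℝ} (hT : 0 ≤ T) (hb : 0 ≤ b) (ha : 0 ≤ a) (hD : 0 ≤ D)
    (h : T ^ 2 ≤ b * (T + a ^ 2 * D)) : T ≤ b + a * √(D * b) := by
  by_contra hcon
  push Not at hcon
  have h1 : 0 ≤ a * √(D * b) := by positivity
  have h2 : (a * √(D * b)) ^ 2 = a ^ 2 * (D * b) := by
    rw [mul_pow, Real.sq_sqrt (by positivity)]
  nlinarith [mul_lt_mul_of_pos_right hcon (show 0 < T by linarith),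
    mul_le_mul_of_nonneg_left (show a * √(D * b) ≤ T by linarith) h1]

open Classical in
lemma part_card_le (A B : Finset ℕ) (w k : ℕ) (hw : 1 ≤ w) (hk : 2 ≤ k) (D : ℝ)
    (hD0 : 0 ≤ D)
    (hD : ∀ x ∈ A, ∀ x' ∈ A, x' < x → ((x - x').divisors.card : ℝ) ≤ D)
    (P : Finset (ℕ × ℕ)) (hP : P ⊆ A ×ˢ B) (f : ℕ → ℕ → ℕ → ℕ)
    (hf : ∀ x x' y, (x, y) ∈ P → (x', y) ∈ P → x' < x →
      ∃ Z Z', w * Z ^ k = w * Z' ^ k + (x - x') ∧ y = f x Z Z') :
    (P.card : ℝ) ≤ (B.card : ℝ) + A.card * √(D * B.card) := by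
  set c : ℕ → ℕ → ℝ := fun x y => if (x, y) ∈ P then 1 else 0 with hc
  have hc0 : ∀ x y, 0 ≤ c x y := by
    intro x y
    simp only [hc]
    split_ifs <;> norm_num
  have hcc : ∀ x y, c x y * c x y = c x y := by
    intro x y
    simp only [hc]
    split_ifs <;> norm_num
  set T : ℝ := ∑ y ∈ B, ∑ x ∈ A, c x y
  have hPT : (P.card : ℝ) = T := by
    have h1 : P = (A ×ˢ B).filter (fun q => q ∈ P) := by
      ext q
      rw [Finset.mem_filter]
      exact ⟨fun h => ⟨hP h, h⟩, fun h => h.2⟩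
    have h2 : (P.card : ℝ) = ∑ q ∈ A ×ˢ B, if q ∈ P then (1:ℝ) else 0 := by
      conv_lhs => rw [h1]
      rw [Finset.card_filter]
      push_cast
      rfl
    rw [h2, Finset.sum_product_right]
  -- the number of `y` for a pair
  have hpair : ∀ x ∈ A, ∀ x' ∈ A, x' < x → ∑ y ∈ B, c x y * c x' y ≤ D := by
    intro x hx x' hx' hlt
    refine le_trans ?_ (hD x hx x' hx' hlt)
    have h1 : ∑ y ∈ B, c x y * c x' y =
        ((B.filter (fun y => (x, y) ∈ P ∧ (x', y) ∈ P)).card : ℝ) := by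
      rw [Finset.card_filter]
      push_cast
      refine Finset.sum_congr rfl fun y _ => ?_
      simp only [hc]
      by_cases h2 : (x, y) ∈ P
      · by_cases h3 : (x', y) ∈ P
        · rw [if_pos h2, if_pos h3, if_pos ⟨h2, h3⟩, mul_one]
        · rw [if_pos h2, if_neg h3, if_neg (fun h => h3 h.2), mul_zero]
      · rw [if_neg h2, zero_mul, if_neg (fun h => h2 h.1)]
    rw [h1]
    have hN : 1 ≤ x - x' := by omega
    choose! Z Z' hZ using fun (y : ℕ) (h : (x, y) ∈ P ∧ (x', y) ∈ P) =>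
      hf x x' y h.1 h.2 hlt
    have h2 : (B.filter (fun y => (x, y) ∈ P ∧ (x', y) ∈ P)).card ≤ (x - x').divisors.card := by
      apply Finset.card_le_card_of_injOn (fun y => Z y - Z' y)
      · intro y hy
        rw [Finset.mem_coe, Finset.mem_filter] at hy
        rw [Finset.mem_coe, Nat.mem_divisors]
        exact ⟨sub_dvd_of_eq (hZ y hy.2).1, by omega⟩
      · intro y hy y' hy' heq
        rw [Finset.mem_coe, Finset.mem_filter] at hy hy'
        obtain ⟨e1, e2⟩ := solution_unique hw hk hN (hZ y hy.2).1 (hZ y' hy'.2).1 heq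
        rw [(hZ y hy.2).2, (hZ y' hy'.2).2, e1, e2]
    exact_mod_cast h2
  have hpair2 : ∀ x ∈ A, ∀ x' ∈ A, ∑ y ∈ B, c x y * c x' y ≤
      (if x = x' then ∑ y ∈ B, c x y else 0) + D := by
    intro x hx x' hx'
    rcases lt_trichotomy x x' with h | h | h
    · rw [if_neg (by omega), zero_add]
      have := hpair x' hx' x hx h
      refine le_trans (le_of_eq ?_) this
      exact Finset.sum_congr rfl fun y _ => mul_comm _ _
    · subst h
      rw [if_pos rfl]
      simp_rw [hcc]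
      linarith
    · rw [if_neg (by omega), zero_add]
      exact hpair x hx x' hx' h
  have hT0 : 0 ≤ T := Finset.sum_nonneg fun y _ => Finset.sum_nonneg fun x _ => hc0 x y
  have hsq : ∑ y ∈ B, (∑ x ∈ A, c x y) ^ 2 ≤ T + (A.card : ℝ) ^ 2 * D := by
    have h1 : ∑ y ∈ B, (∑ x ∈ A, c x y) ^ 2 =
        ∑ x ∈ A, ∑ x' ∈ A, ∑ y ∈ B, c x y * c x' y := by
      simp_rw [pow_two, Finset.sum_mul_sum]
      rw [Finset.sum_comm]
      refine Finset.sum_congr rfl fun x _ => ?_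
      rw [Finset.sum_comm]
    rw [h1]
    calc ∑ x ∈ A, ∑ x' ∈ A, ∑ y ∈ B, c x y * c x' y
        ≤ ∑ x ∈ A, ∑ x' ∈ A, ((if x = x' then ∑ y ∈ B, c x y else 0) + D) :=
          Finset.sum_le_sum fun x hx => Finset.sum_le_sum fun x' hx' => hpair2 x hx x' hx'
      _ = T + (A.card : ℝ) ^ 2 * D := by
          simp_rw [Finset.sum_add_distrib]
          congr 1
          · have hT' : T = ∑ x ∈ A, ∑ y ∈ B, c x y := Finset.sum_comm
            rw [hT']
            refine Finset.sum_congr rfl fun x hx => ?_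
            rw [Finset.sum_ite_eq, if_pos hx]
          · simp only [Finset.sum_const, nsmul_eq_mul]
            ring
  have hCS : T ^ 2 ≤ (B.card : ℝ) * ∑ y ∈ B, (∑ x ∈ A, c x y) ^ 2 :=
    sq_sum_le_card_mul_sum_sq
  rw [hPT]
  apply final_ineq hT0 (Nat.cast_nonneg _) (Nat.cast_nonneg _) hD0
  exact hCS.trans (mul_le_mul_of_nonneg_left hsq (Nat.cast_nonneg _))

theorem curveSet_card_le (A B : Finset ℕ) (w k : ℕ) (hw : 1 ≤ w) (hk : 2 ≤ k) (D : ℝ)
    (hD0 : 0 ≤ D)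
    (hD : ∀ x ∈ A, ∀ x' ∈ A, x' < x → ((x - x').divisors.card : ℝ) ≤ D) :
    ((curveSet A B w k).card : ℝ) ≤ 3 * ((B.card : ℝ) + A.card * √(D * B.card)) := by
  classical
  set P1 : Finset (ℕ × ℕ) := (A ×ˢ B).filter (fun q => ∃ z : ℕ, q.1 + q.2 = w * z ^ k) with hP1
  set P2 : Finset (ℕ × ℕ) := (A ×ˢ B).filter (fun q => ∃ z : ℕ, q.1 + w * z ^ k = q.2) with hP2
  set P3 : Finset (ℕ × ℕ) := (A ×ˢ B).filter (fun q => ∃ z : ℕ, q.2 + w * z ^ k = q.1) with hP3
  have hsub : curveSet A B w k ⊆ P1 ∪ P2 ∪ P3 := by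
    intro q hq
    rw [curveSet, Finset.mem_filter] at hq
    obtain ⟨hq1, z, -, h | h | h⟩ := hq
    · exact Finset.mem_union_left _ (Finset.mem_union_left _ (Finset.mem_filter.2 ⟨hq1, z, h⟩))
    · exact Finset.mem_union_left _ (Finset.mem_union_right _ (Finset.mem_filter.2 ⟨hq1, z, h⟩))
    · exact Finset.mem_union_right _ (Finset.mem_filter.2 ⟨hq1, z, h⟩)
  have h1 : (P1.card : ℝ) ≤ (B.card : ℝ) + A.card * √(D * B.card) := by
    apply part_card_le A B w k hw hk D hD0 hD P1 (Finset.filter_subset _ _)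
      (fun x Z _ => w * Z ^ k - x)
    intro x x' y hx hx' hlt
    obtain ⟨z, hz⟩ := (Finset.mem_filter.1 hx).2
    obtain ⟨z', hz'⟩ := (Finset.mem_filter.1 hx').2
    simp only at hz hz'
    exact ⟨z, z', by omega, by omega⟩
  have h2 : (P2.card : ℝ) ≤ (B.card : ℝ) + A.card * √(D * B.card) := by
    apply part_card_le A B w k hw hk D hD0 hD P2 (Finset.filter_subset _ _)
      (fun x _ Z' => x + w * Z' ^ k)
    intro x x' y hx hx' hlt
    obtain ⟨z, hz⟩ := (Finset.mem_filter.1 hx).2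
    obtain ⟨z', hz'⟩ := (Finset.mem_filter.1 hx').2
    simp only at hz hz'
    exact ⟨z', z, by omega, by omega⟩
  have h3 : (P3.card : ℝ) ≤ (B.card : ℝ) + A.card * √(D * B.card) := by
    apply part_card_le A B w k hw hk D hD0 hD P3 (Finset.filter_subset _ _)
      (fun x Z _ => x - w * Z ^ k)
    intro x x' y hx hx' hlt
    obtain ⟨z, hz⟩ := (Finset.mem_filter.1 hx).2
    obtain ⟨z', hz'⟩ := (Finset.mem_filter.1 hx').2
    simp only at hz hz'
    exact ⟨z, z', by omega, by omega⟩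
  have h4 : ((curveSet A B w k).card : ℝ) ≤ P1.card + P2.card + P3.card := by
    have h5 : (curveSet A B w k).card ≤ P1.card + P2.card + P3.card :=
      (Finset.card_le_card hsub).trans ((Finset.card_union_le _ _).trans
        (Nat.add_le_add_right (Finset.card_union_le _ _) _))
    exact_mod_cast h5
  linarith

end Pool.Agent.Lib.Pabcv
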