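import Pool.Agent.Lib.Pabcv.Defs

/-!
# A divisor of size at least `√n` with small radical

Sketch.  Let `R = rad n = ∏ p`, `p` over the primes of `n`, and for a set `T` of primes of `n` put
`α_T = ∏ p ∈ T, p ^ n.factorization p`, so that `α_T α_{T^c} = n`, `rad α_T = ∏ p ∈ T, p`,
`rad α_T * rad α_{T^c} = R`.

If there is `T` with `R ≤ (∏ T)^3` and `(∏ T)^3 ≤ R^2` then both `T` and its complement satisfy
`(rad α)^3 ≤ R^2`, and one of `α_T, α_{T^c}` has square `≥ n`: first alternative.
Otherwise take `T` minimal (in cardinality) among the sets with `R ≤ (∏ T)^3`; any `p ∈ T` then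
satisfies `R^2 < p^3`. Let `k = n.factorization p`, `w = n / p^k`.  Either `n ≤ (p^k)^2`: second
alternative; or `n ≤ w^2` and `(rad w)^3 ≤ R`, so `α = w` works in the first alternative.
-/

namespace Pool.Agent.Lib.Pabcv

open Finset

namespace SplitAux

/-- the part of `n` supported on `T` -/
def part (n : ℕ) (T : Finset ℕ) : ℕ := ∏ p ∈ T, p ^ n.factorization p

theorem primeFactors_part (n : ℕ) (T : Finset ℕ) (hT : T ⊆ n.primeFactors) :
    (part n T).primeFactors = T := by
  classical
  induction T using Finset.induction_on with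
  | empty => simp [part]
  | insert p T hp ih =>
    have hpp : p ∈ n.primeFactors := hT (Finset.mem_insert_self p T)
    have hprime := Nat.prime_of_mem_primeFactors hpp
    have hfac : n.factorization p ≠ 0 := by
      have h1 : p ∈ n.factorization.support := by
        rw [Nat.support_factorization]; exact hpp
      exact Finsupp.mem_support_iff.1 h1
    have hT' : T ⊆ n.primeFactors := fun q hq => hT (Finset.mem_insert_of_mem hq)
    have h0 : part n T ≠ 0 := by
      rw [part, Finset.prod_ne_zero_iff]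
      intro q hq
      exact pow_ne_zero _ (Nat.prime_of_mem_primeFactors (hT' hq)).ne_zero
    have h1 : part n (insert p T) = p ^ n.factorization p * part n T := by
      rw [part, Finset.prod_insert hp]; rfl
    rw [h1, Nat.primeFactors_mul (pow_ne_zero _ hprime.ne_zero) h0,
      Nat.primeFactors_prime_pow hfac hprime, ih hT']
    rfl

theorem rad_part (n : ℕ) (T : Finset ℕ) (hT : T ⊆ n.primeFactors) :
    rad (part n T) = ∏ p ∈ T, p := by
  rw [rad, primeFactors_part n T hT]

theorem part_full (n : ℕ) (hn : n ≠ 0) : part n n.primeFactors = n :=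
  Nat.prod_factorization_pow_eq_self hn

theorem part_mul (n : ℕ) (hn : n ≠ 0) (T : Finset ℕ) (hT : T ⊆ n.primeFactors) :
    part n T * part n (n.primeFactors \ T) = n := by
  conv_rhs => rw [← part_full n hn]
  rw [part, part, part, mul_comm]
  exact Finset.prod_sdiff hT

theorem rad_mul (n : ℕ) (T : Finset ℕ) (hT : T ⊆ n.primeFactors) :
    (∏ p ∈ T, p) * ∏ p ∈ n.primeFactors \ T, p = rad n := by
  rw [rad, mul_comm]
  exact Finset.prod_sdiff hT

end SplitAux

open SplitAux in
theorem split (n : ℕ) (hn : 2 ≤ n) :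
    (∃ α : ℕ, α ∣ n ∧ n ≤ α ^ 2 ∧ rad α ^ 3 ≤ rad n ^ 2) ∨
    (∃ p k w : ℕ, p.Prime ∧ 1 ≤ k ∧ 1 ≤ w ∧ n = w * p ^ k ∧ n ≤ (p ^ k) ^ 2 ∧
      rad n = rad w * p ∧ rad n ^ 2 < p ^ 3) := by
  classical
  have hn0 : n ≠ 0 := by omega
  have hRpos : 1 ≤ rad n := rad_pos n
  have hR2 : 2 ≤ rad n := by
    obtain ⟨p, hp, hpn⟩ := Nat.exists_prime_and_dvd (show n ≠ 1 by omega)
    have h1 : p ∣ rad n := Finset.dvd_prod_of_mem (fun q => q)
      (Nat.mem_primeFactors.2 ⟨hp, hpn, hn0⟩)
    exact hp.two_le.trans (Nat.le_of_dvd hRpos h1)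
  have hfpos : ∀ T : Finset ℕ, T ⊆ n.primeFactors → 1 ≤ ∏ p ∈ T, p := fun T hT =>
    Finset.prod_pos fun p hp => (Nat.prime_of_mem_primeFactors (hT hp)).pos
  by_cases hex : ∃ T : Finset ℕ, T ⊆ n.primeFactors ∧ rad n ≤ (∏ p ∈ T, p) ^ 3 ∧
      (∏ p ∈ T, p) ^ 3 ≤ rad n ^ 2
  · obtain ⟨T, hT, h1, h2⟩ := hex
    left
    have hT' : n.primeFactors \ T ⊆ n.primeFactors := Finset.sdiff_subset
    have h3 : (∏ p ∈ n.primeFactors \ T, p) ^ 3 ≤ rad n ^ 2 := by
      have h4 : (∏ p ∈ n.primeFactors \ T, p) ^ 3 * rad n ≤ rad n ^ 2 * rad n := by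
        calc (∏ p ∈ n.primeFactors \ T, p) ^ 3 * rad n
            ≤ (∏ p ∈ n.primeFactors \ T, p) ^ 3 * (∏ p ∈ T, p) ^ 3 := Nat.mul_le_mul_left _ h1
          _ = ((∏ p ∈ T, p) * ∏ p ∈ n.primeFactors \ T, p) ^ 3 := by ring
          _ = rad n ^ 2 * rad n := by rw [rad_mul n T hT]; ring
      exact Nat.le_of_mul_le_mul_right h4 hRpos
    rcases le_or_gt n (part n T ^ 2) with h5 | h5
    · exact ⟨part n T, ⟨_, (part_mul n hn0 T hT).symm⟩, h5, by rw [rad_part n T hT]; exact h2⟩
    · refine ⟨part n (n.primeFactors \ T), ⟨part n T, ?_⟩, ?_, by rw [rad_part n _ hT']; exact h3⟩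
      · rw [mul_comm]; exact (part_mul n hn0 T hT).symm
      · by_contra hlt
        rw [not_le] at hlt
        have h6 : part n T ^ 2 * part n (n.primeFactors \ T) ^ 2 < n * n :=
          Nat.mul_lt_mul'' h5 hlt
        rw [← mul_pow, part_mul n hn0 T hT, sq] at h6
        exact lt_irrefl _ h6
  · push Not at hex
    -- a minimal set
    have hfull : rad n ≤ (∏ p ∈ n.primeFactors, p) ^ 3 := by
      change rad n ≤ rad n ^ 3
      exact Nat.le_self_pow (by norm_num) _
    obtain ⟨T, hTm, hmin⟩ := Finset.exists_min_image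
      (n.primeFactors.powerset.filter fun T => rad n ≤ (∏ p ∈ T, p) ^ 3) Finset.card
      ⟨n.primeFactors, by simp only [Finset.mem_filter, Finset.mem_powerset]
                          exact ⟨subset_rfl, hfull⟩⟩
    rw [Finset.mem_filter, Finset.mem_powerset] at hTm
    obtain ⟨hT, h1⟩ := hTm
    have hne : T.Nonempty := by
      rw [Finset.nonempty_iff_ne_empty]
      rintro rfl
      simp at h1
      omega
    obtain ⟨p, hp⟩ := hne
    have hpP : p ∈ n.primeFactors := hT hp
    have hprime := Nat.prime_of_mem_primeFactors hpP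
    have h2 := hex T hT h1
    have h3 : (∏ q ∈ T.erase p, q) ^ 3 < rad n := by
      by_contra hcon
      rw [not_lt] at hcon
      have h4 := hmin (T.erase p) (by
        rw [Finset.mem_filter, Finset.mem_powerset]
        exact ⟨(Finset.erase_subset _ _).trans hT, hcon⟩)
      have h5 := Finset.card_erase_lt_of_mem hp
      omega
    have h4 : rad n < p ^ 3 := by
      have h5 : p * ∏ q ∈ T.erase p, q = ∏ q ∈ T, q := Finset.mul_prod_erase T (fun q => q) hp
      by_contra hcon
      rw [not_lt] at hcon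
      have h6 : (∏ q ∈ T, q) ^ 3 ≤ rad n * rad n := by
        rw [← h5, mul_pow]
        exact Nat.mul_le_mul hcon h3.le
      rw [← sq] at h6
      omega
    have hsing : ({p} : Finset ℕ) ⊆ n.primeFactors := Finset.singleton_subset_iff.2 hpP
    have h5 : rad n ^ 2 < p ^ 3 := by
      have h6 := hex {p} hsing (by rw [Finset.prod_singleton]; exact h4.le)
      rwa [Finset.prod_singleton] at h6
    have hsd : n.primeFactors \ {p} ⊆ n.primeFactors := Finset.sdiff_subset
    have hw1 : p ^ n.factorization p * part n (n.primeFactors \ {p}) = n := by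
      have := part_mul n hn0 {p} hsing
      rwa [part, Finset.prod_singleton] at this
    have hw2 : p * rad (part n (n.primeFactors \ {p})) = rad n := by
      have := rad_mul n {p} hsing
      rwa [Finset.prod_singleton, ← rad_part n _ hsd] at this
    have hwpos : 1 ≤ part n (n.primeFactors \ {p}) := by
      rcases Nat.eq_zero_or_pos (part n (n.primeFactors \ {p})) with h0 | h0
      · rw [h0, mul_zero] at hw1; omega
      · exact h0
    have hk : 1 ≤ n.factorization p := by
      have h1 : p ∈ n.factorization.support := by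
        rw [Nat.support_factorization]; exact hpP
      exact Nat.one_le_iff_ne_zero.2 (Finsupp.mem_support_iff.1 h1)
    rcases le_or_gt n ((p ^ n.factorization p) ^ 2) with h6 | h6
    · right
      exact ⟨p, n.factorization p, part n (n.primeFactors \ {p}), hprime, hk, hwpos,
        by rw [mul_comm]; exact hw1.symm, h6, by rw [mul_comm]; exact hw2.symm, h5⟩
    · left
      refine ⟨part n (n.primeFactors \ {p}), ⟨p ^ n.factorization p, ?_⟩, ?_, ?_⟩
      · rw [mul_comm]; exact hw1.symm
      · by_contra hcon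
        rw [not_le] at hcon
        have h7 : (p ^ n.factorization p) ^ 2 * part n (n.primeFactors \ {p}) ^ 2 < n * n :=
          Nat.mul_lt_mul'' h6 hcon
        rw [← mul_pow, hw1, sq] at h7
        exact lt_irrefl _ h7
      · set r := rad (part n (n.primeFactors \ {p})) with hr
        have h7 : r ^ 3 * rad n ^ 2 ≤ rad n * rad n ^ 2 := by
          calc r ^ 3 * rad n ^ 2 ≤ r ^ 3 * p ^ 3 := Nat.mul_le_mul_left _ h5.le
            _ = (p * r) ^ 3 := by ring
            _ = rad n * rad n ^ 2 := by rw [hw2]; ring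
        have h8 : r ^ 3 ≤ rad n := Nat.le_of_mul_le_mul_right h7 (pow_pos hRpos 2)
        exact h8.trans (Nat.le_self_pow (by norm_num) _)

end Pool.Agent.Lib.Pabcv
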