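import Pool.Agent.Lib.Pabcv.RadEnergy
import Pool.Agent.Lib.Pabcv.Curve
import Pool.Agent.Lib.Pabcv.Split
import Pool.Agent.Lib.P5632c9.DivBound

/-!
# The building blocks of the main count
-/

namespace Pool.Agent.Lib.Pabcv

open Finset

theorem rpow_floor_le {Y K : ℝ} (hY : 0 ≤ Y) : ((⌊Y ^ K⌋₊ : ℕ) : ℝ) ≤ Y ^ K :=
  Nat.floor_le (Real.rpow_nonneg hY _)

theorem radSet_card_pow (K δ : ℝ) (hK : 0 < K) (hδ : 0 < δ) : ∃ C : ℝ, 1 ≤ C ∧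
    ∀ Y v : ℝ, 1 ≤ Y → ((radSet ⌊Y ^ K⌋₊ (Y ^ v)).card : ℝ) ≤ C * Y ^ (v + δ) := by
  obtain ⟨C, hC1, hC⟩ := card_radSet_le (δ / K) (by positivity)
  refine ⟨C, hC1, fun Y v hY => ?_⟩
  have hY0 : 0 < Y := by linarith
  refine (hC _ _ (by positivity)).trans ?_
  have h1 : ((⌊Y ^ K⌋₊ : ℕ) : ℝ) ^ (δ / K) ≤ Y ^ δ := by
    calc ((⌊Y ^ K⌋₊ : ℕ) : ℝ) ^ (δ / K) ≤ (Y ^ K) ^ (δ / K) :=
          Real.rpow_le_rpow (Nat.cast_nonneg _) (rpow_floor_le hY0.le) (by positivity)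
      _ = Y ^ δ := by
          rw [← Real.rpow_mul hY0.le]
          congr 1
          field_simp
  calc C * Y ^ v * ((⌊Y ^ K⌋₊ : ℕ) : ℝ) ^ (δ / K) ≤ C * Y ^ v * Y ^ δ := by gcongr
    _ = C * Y ^ (v + δ) := by rw [Real.rpow_add hY0]; ring

open Classical in
/-- The pairs of `pairSet α` for some `α ≥ Y ^ σ` with `rad α ≤ Y ^ ρ`. -/
noncomputable def alphaPairs (K Y σ ρ V₁ V₂ : ℝ) : Finset (ℕ × ℕ) :=
  ((radSet ⌊Y ^ K⌋₊ (Y ^ ρ)).filter (fun α : ℕ => Y ^ σ ≤ (α : ℝ))).biUnion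
    (fun α : ℕ => pairSet α ⌊Y ^ K⌋₊ (Y ^ V₁) (Y ^ V₂))

theorem mem_alphaPairs {K Y σ ρ V₁ V₂ : ℝ} {q : ℕ × ℕ} : q ∈ alphaPairs K Y σ ρ V₁ V₂ ↔
    ∃ α ∈ radSet ⌊Y ^ K⌋₊ (Y ^ ρ), Y ^ σ ≤ (α : ℝ) ∧
      q ∈ pairSet α ⌊Y ^ K⌋₊ (Y ^ V₁) (Y ^ V₂) := by
  classical
  simp only [alphaPairs, mem_biUnion, mem_filter]
  constructor
  · rintro ⟨α, ⟨h1, h2⟩, h3⟩; exact ⟨α, h1, h2, h3⟩
  · rintro ⟨α, h1, h2, h3⟩; exact ⟨α, ⟨h1, h2⟩, h3⟩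

theorem alphaPairs_card (K σ δ : ℝ) (hσ : 0 < σ) (hK : σ ≤ K) (hδ : 0 < δ) :
    ∃ C Y0 : ℝ, 1 ≤ C ∧ ∀ Y : ℝ, Y0 ≤ Y → ∀ (ρ V₁ V₂ κ₁ κ₂ : ℝ),
      0 ≤ V₁ → 0 ≤ V₂ → V₁ + δ < σ → V₂ + δ < σ → 0 ≤ κ₁ → 0 ≤ κ₂ →
      (σ ≤ 2 * (V₁ + δ) → (2 * (V₁ + δ) - σ) ^ 2 ≤ 4 * (V₁ + δ) * κ₁) →
      (σ ≤ 2 * (V₂ + δ) → (2 * (V₂ + δ) - σ) ^ 2 ≤ 4 * (V₂ + δ) * κ₂) →
      ((alphaPairs K Y σ ρ V₁ V₂).card : ℝ) ≤ C * Y ^ (ρ + (V₁ + κ₁ + V₂ + κ₂) / 2 + 6 * δ) := by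
  classical
  have hK0 : 0 < K := by linarith
  obtain ⟨C, hC1, hC⟩ := radSet_card_pow K δ hK0 hδ
  obtain ⟨Y1, hY1⟩ := pairSet_le K σ δ hσ hK hδ
  refine ⟨C, max 1 Y1, hC1, ?_⟩
  intro Y hY ρ V₁ V₂ κ₁ κ₂ hV1 hV2 hVσ1 hVσ2 hκ1 hκ2 hc1 hc2
  have hY1' : 1 ≤ Y := (le_max_left _ _).trans hY
  have hYY1 : Y1 ≤ Y := (le_max_right _ _).trans hY
  have hY0 : 0 < Y := by linarith
  set S := (radSet ⌊Y ^ K⌋₊ (Y ^ ρ)).filter (fun α : ℕ => Y ^ σ ≤ (α : ℝ)) with hS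
  have h1 : ∀ α ∈ S, ((pairSet α ⌊Y ^ K⌋₊ (Y ^ V₁) (Y ^ V₂)).card : ℝ) ≤
      Y ^ ((V₁ + κ₁ + V₂ + κ₂) / 2 + 5 * δ) := by
    intro α hα
    rw [hS, mem_filter, mem_radSet] at hα
    refine hY1 Y hYY1 α V₁ V₂ κ₁ κ₂ hα.2 ?_ hV1 hV2 hVσ1 hVσ2 hκ1 hκ2 hc1 hc2
    calc (α : ℝ) ≤ ((⌊Y ^ K⌋₊ : ℕ) : ℝ) := by exact_mod_cast hα.1.1.2
      _ ≤ Y ^ K := rpow_floor_le hY0.le
  have h2 : ((alphaPairs K Y σ ρ V₁ V₂).card : ℝ) ≤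
      ∑ α ∈ S, ((pairSet α ⌊Y ^ K⌋₊ (Y ^ V₁) (Y ^ V₂)).card : ℝ) := by
    have : (alphaPairs K Y σ ρ V₁ V₂).card ≤
        ∑ α ∈ S, (pairSet α ⌊Y ^ K⌋₊ (Y ^ V₁) (Y ^ V₂)).card := by
      rw [alphaPairs]
      exact Finset.card_biUnion_le
    exact_mod_cast this
  have h3 : (S.card : ℝ) ≤ C * Y ^ (ρ + δ) := by
    refine le_trans ?_ (hC Y ρ hY1')
    exact_mod_cast Finset.card_filter_le _ _
  calc ((alphaPairs K Y σ ρ V₁ V₂).card : ℝ)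
      ≤ ∑ α ∈ S, ((pairSet α ⌊Y ^ K⌋₊ (Y ^ V₁) (Y ^ V₂)).card : ℝ) := h2
    _ ≤ ∑ α ∈ S, Y ^ ((V₁ + κ₁ + V₂ + κ₂) / 2 + 5 * δ) := Finset.sum_le_sum h1
    _ = (S.card : ℝ) * Y ^ ((V₁ + κ₁ + V₂ + κ₂) / 2 + 5 * δ) := by
        rw [Finset.sum_const, nsmul_eq_mul]
    _ ≤ (C * Y ^ (ρ + δ)) * Y ^ ((V₁ + κ₁ + V₂ + κ₂) / 2 + 5 * δ) := by gcongr
    _ = C * Y ^ (ρ + (V₁ + κ₁ + V₂ + κ₂) / 2 + 6 * δ) := by
        rw [mul_assoc, ← Real.rpow_add hY0]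
        congr 2
        ring

open Classical in
/-- The pairs of `curveSet w k` for some `w` with `rad w ≤ Y ^ ρ` and `2 ≤ k ≤ k0`. -/
noncomputable def curvePairs (K Y ρ V₁ V₂ : ℝ) (k0 : ℕ) : Finset (ℕ × ℕ) :=
  ((radSet ⌊Y ^ K⌋₊ (Y ^ ρ)) ×ˢ Finset.Icc 2 k0).biUnion
    (fun i : ℕ × ℕ => curveSet (radSet ⌊Y ^ K⌋₊ (Y ^ V₁)) (radSet ⌊Y ^ K⌋₊ (Y ^ V₂)) i.1 i.2)

theorem mem_curvePairs {K Y ρ V₁ V₂ : ℝ} {k0 : ℕ} {q : ℕ × ℕ} :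
    q ∈ curvePairs K Y ρ V₁ V₂ k0 ↔
    ∃ w ∈ radSet ⌊Y ^ K⌋₊ (Y ^ ρ), ∃ k ∈ Finset.Icc 2 k0,
      q ∈ curveSet (radSet ⌊Y ^ K⌋₊ (Y ^ V₁)) (radSet ⌊Y ^ K⌋₊ (Y ^ V₂)) w k := by
  classical
  simp only [curvePairs, mem_biUnion, mem_product]
  constructor
  · rintro ⟨⟨w, k⟩, ⟨h1, h2⟩, h3⟩; exact ⟨w, h1, k, h2, h3⟩
  · rintro ⟨w, h1, k, h2, h3⟩; exact ⟨(w, k), ⟨h1, h2⟩, h3⟩

theorem curvePairs_card (K δ : ℝ) (hK : 0 < K) (hδ : 0 < δ) :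
    ∃ C : ℝ, 1 ≤ C ∧ ∀ Y : ℝ, 1 ≤ Y → ∀ (ρ V₁ V₂ : ℝ) (k0 : ℕ),
      ((curvePairs K Y ρ V₁ V₂ k0).card : ℝ) ≤
        C * k0 * Y ^ (ρ + max V₂ (V₁ + V₂ / 2) + 4 * δ) := by
  classical
  obtain ⟨C, hC1, hC⟩ := radSet_card_pow K δ hK hδ
  obtain ⟨Cd, hCd1, hCd⟩ := Pool.Agent.Lib.P5632c9.card_divisors_le (δ / K) (by positivity)
  refine ⟨C * (3 * (C + C * (Cd * C))), ?_, ?_⟩
  · have h1 : 1 ≤ C * (3 * (C + C * (Cd * C))) := by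
      have h2 : 1 ≤ Cd * C := by nlinarith
      have h3 : 1 ≤ C * (Cd * C) := by nlinarith
      nlinarith
    exact h1
  intro Y hY ρ V₁ V₂ k0
  have hY0 : 0 < Y := by linarith
  set X : ℕ := ⌊Y ^ K⌋₊ with hX
  have hXle : (X : ℝ) ≤ Y ^ K := rpow_floor_le hY0.le
  set A := radSet X (Y ^ V₁) with hA
  set B := radSet X (Y ^ V₂) with hB
  set D : ℝ := Cd * Y ^ δ with hD
  have hD0 : 0 ≤ D := by positivity
  have hA1 : (A.card : ℝ) ≤ C * Y ^ (V₁ + δ) := hC Y V₁ hY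
  have hB1 : (B.card : ℝ) ≤ C * Y ^ (V₂ + δ) := hC Y V₂ hY
  have hDd : ∀ x ∈ A, ∀ x' ∈ A, x' < x → ((x - x').divisors.card : ℝ) ≤ D := by
    intro x hx x' _ hlt
    rw [hA, mem_radSet] at hx
    refine (hCd (x - x') (by omega)).trans ?_
    rw [hD]
    have h1 : ((x - x' : ℕ) : ℝ) ≤ Y ^ K := by
      refine le_trans ?_ hXle
      have : x - x' ≤ X := by omega
      exact_mod_cast this
    calc Cd * ((x - x' : ℕ) : ℝ) ^ (δ / K) ≤ Cd * (Y ^ K) ^ (δ / K) := by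
          gcongr
      _ = Cd * Y ^ δ := by
          rw [← Real.rpow_mul hY0.le]
          congr 2
          field_simp
  set E : ℝ := 3 * (C + C * (Cd * C)) * Y ^ (max V₂ (V₁ + V₂ / 2) + 3 * δ) with hE
  have hE0 : 0 ≤ E := by positivity
  have hcurve : ∀ w ∈ radSet X (Y ^ ρ), ∀ k ∈ Finset.Icc 2 k0,
      ((curveSet A B w k).card : ℝ) ≤ E := by
    intro w hw k hk
    rw [mem_radSet] at hw
    rw [mem_Icc] at hk
    refine (curveSet_card_le A B w k hw.1.1 hk.1 D hD0 hDd).trans ?_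
    have hsq : √(D * B.card) ≤ (Cd * C) * Y ^ (V₂ / 2 + δ) := by
      rw [Real.sqrt_le_left (by positivity)]
      have hCdC : 1 ≤ Cd * C := by nlinarith
      calc D * (B.card : ℝ) ≤ (Cd * Y ^ δ) * (C * Y ^ (V₂ + δ)) := by rw [hD]; gcongr
        _ = (Cd * C) * (Y ^ (V₂ / 2 + δ)) ^ 2 := by
            rw [← Real.rpow_natCast, ← Real.rpow_mul hY0.le]
            rw [show (Cd * Y ^ δ) * (C * Y ^ (V₂ + δ)) = (Cd * C) * (Y ^ δ * Y ^ (V₂ + δ)) by ring]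
            rw [← Real.rpow_add hY0]
            congr 2
            push_cast
            ring
        _ ≤ (Cd * C) ^ 2 * (Y ^ (V₂ / 2 + δ)) ^ 2 := by
            gcongr
            nlinarith
        _ = _ := by ring
    have h1 : (B.card : ℝ) ≤ C * Y ^ (max V₂ (V₁ + V₂ / 2) + 3 * δ) := by
      refine hB1.trans ?_
      apply mul_le_mul_of_nonneg_left _ (by linarith)
      apply Real.rpow_le_rpow_of_exponent_le hY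
      have := le_max_left V₂ (V₁ + V₂ / 2)
      linarith
    have h2 : (A.card : ℝ) * √(D * B.card) ≤
        (C * (Cd * C)) * Y ^ (max V₂ (V₁ + V₂ / 2) + 3 * δ) := by
      calc (A.card : ℝ) * √(D * B.card) ≤ (C * Y ^ (V₁ + δ)) * ((Cd * C) * Y ^ (V₂ / 2 + δ)) := by
            gcongr
        _ = (C * (Cd * C)) * (Y ^ (V₁ + δ) * Y ^ (V₂ / 2 + δ)) := by ring
        _ = (C * (Cd * C)) * Y ^ ((V₁ + δ) + (V₂ / 2 + δ)) := by rw [← Real.rpow_add hY0]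
        _ ≤ _ := by
            apply mul_le_mul_of_nonneg_left _ (by positivity)
            apply Real.rpow_le_rpow_of_exponent_le hY
            have := le_max_right V₂ (V₁ + V₂ / 2)
            linarith
    rw [hE]
    calc 3 * ((B.card : ℝ) + (A.card : ℝ) * √(D * B.card))
        ≤ 3 * (C * Y ^ (max V₂ (V₁ + V₂ / 2) + 3 * δ) +
          (C * (Cd * C)) * Y ^ (max V₂ (V₁ + V₂ / 2) + 3 * δ)) := by gcongr
      _ = _ := by ring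
  have h2 : ((curvePairs K Y ρ V₁ V₂ k0).card : ℝ) ≤
      ∑ i ∈ (radSet X (Y ^ ρ)) ×ˢ Finset.Icc 2 k0, ((curveSet A B i.1 i.2).card : ℝ) := by
    have : (curvePairs K Y ρ V₁ V₂ k0).card ≤
        ∑ i ∈ (radSet X (Y ^ ρ)) ×ˢ Finset.Icc 2 k0, (curveSet A B i.1 i.2).card := by
      rw [curvePairs]
      exact Finset.card_biUnion_le
    exact_mod_cast this
  have hk0 : ((Finset.Icc 2 k0).card : ℝ) ≤ k0 := by
    rw [Nat.card_Icc]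
    have : k0 + 1 - 2 ≤ k0 := by omega
    exact_mod_cast this
  calc ((curvePairs K Y ρ V₁ V₂ k0).card : ℝ)
      ≤ ∑ i ∈ (radSet X (Y ^ ρ)) ×ˢ Finset.Icc 2 k0, ((curveSet A B i.1 i.2).card : ℝ) := h2
    _ ≤ ∑ i ∈ (radSet X (Y ^ ρ)) ×ˢ Finset.Icc 2 k0, E := by
        refine Finset.sum_le_sum fun i hi => ?_
        rw [mem_product] at hi
        exact hcurve i.1 hi.1 i.2 hi.2
    _ = ((radSet X (Y ^ ρ)).card : ℝ) * ((Finset.Icc 2 k0).card : ℝ) * E := by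
        rw [Finset.sum_const, nsmul_eq_mul, Finset.card_product]
        push_cast
        ring
    _ ≤ (C * Y ^ (ρ + δ)) * k0 * E := by
        gcongr
        exact hC Y ρ hY
    _ = _ := by
        rw [hE]
        rw [show ρ + max V₂ (V₁ + V₂ / 2) + 4 * δ = (ρ + δ) + (max V₂ (V₁ + V₂ / 2) + 3 * δ) by
          ring, Real.rpow_add hY0 (ρ + δ)]
        ring

/-- The three projections of a set of triples with `Rel x y n` are at most three to one. -/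
theorem proj_card_xy (Q : Finset (ℕ × ℕ × ℕ)) (hQ : ∀ t ∈ Q, Rel t.1 t.2.1 t.2.2)
    (R : Finset (ℕ × ℕ)) (hR : ∀ t ∈ Q, (t.1, t.2.1) ∈ R) : Q.card ≤ 3 * R.card := by
  classical
  refine Finset.card_le_mul_card_image_of_maps_to (f := fun t : ℕ × ℕ × ℕ => (t.1, t.2.1)) hR 3 ?_
  rintro ⟨x, y⟩ _
  have hsub : (Q.filter (fun t : ℕ × ℕ × ℕ => (t.1, t.2.1) = (x, y))) ⊆
      {(x, y, x + y), (x, y, y - x), (x, y, x - y)} := by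
    rintro ⟨a, b, c⟩ ht
    rw [mem_filter, Prod.mk.injEq] at ht
    obtain ⟨ht1, ht2, ht3⟩ := ht
    have h := hQ _ ht1
    simp only at h ht2 ht3
    subst ht2 ht3
    simp only [mem_insert, mem_singleton, Prod.mk.injEq, true_and]
    rcases h with h | h | h
    · left; exact h.symm
    · right; left; omega
    · right; right; omega
  exact (Finset.card_le_card hsub).trans (Finset.card_le_three)

theorem Rel.swap {x y n : ℕ} (h : Rel x y n) : Rel x n y := by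
  rcases h with h | h | h
  · right; left; exact h
  · left; exact h
  · right; right; omega

theorem Rel.rot {x y n : ℕ} (h : Rel x y n) : Rel y n x := by
  rcases h with h | h | h
  · right; left; omega
  · right; right; omega
  · left; omega

theorem proj_card_xn (Q : Finset (ℕ × ℕ × ℕ)) (hQ : ∀ t ∈ Q, Rel t.1 t.2.1 t.2.2)
    (R : Finset (ℕ × ℕ)) (hR : ∀ t ∈ Q, (t.1, t.2.2) ∈ R) : Q.card ≤ 3 * R.card := by
  classical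
  have h1 : Q.card = (Q.image (fun t : ℕ × ℕ × ℕ => (t.1, t.2.2, t.2.1))).card := by
    rw [Finset.card_image_of_injective]
    rintro ⟨a, b, c⟩ ⟨a', b', c'⟩ h
    simp only [Prod.mk.injEq] at h ⊢
    exact ⟨h.1, h.2.2, h.2.1⟩
  rw [h1]
  refine proj_card_xy _ ?_ R ?_
  · intro t ht
    rw [mem_image] at ht
    obtain ⟨s, hs, rfl⟩ := ht
    exact (hQ s hs).swap
  · intro t ht
    rw [mem_image] at ht
    obtain ⟨s, hs, rfl⟩ := ht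
    exact hR s hs

theorem proj_card_yn (Q : Finset (ℕ × ℕ × ℕ)) (hQ : ∀ t ∈ Q, Rel t.1 t.2.1 t.2.2)
    (R : Finset (ℕ × ℕ)) (hR : ∀ t ∈ Q, (t.2.1, t.2.2) ∈ R) : Q.card ≤ 3 * R.card := by
  classical
  have h1 : Q.card = (Q.image (fun t : ℕ × ℕ × ℕ => (t.2.1, t.2.2, t.1))).card := by
    rw [Finset.card_image_of_injective]
    rintro ⟨a, b, c⟩ ⟨a', b', c'⟩ h
    simp only [Prod.mk.injEq] at h ⊢
    exact ⟨h.2.2, h.1, h.2.1⟩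
  rw [h1]
  refine proj_card_xy _ ?_ R ?_
  · intro t ht
    rw [mem_image] at ht
    obtain ⟨s, hs, rfl⟩ := ht
    exact (hQ s hs).rot
  · intro t ht
    rw [mem_image] at ht
    obtain ⟨s, hs, rfl⟩ := ht
    exact hR s hs

end Pool.Agent.Lib.Pabcv
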