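import Pool.Agent.Lib.Pabcv.Defs

/-!
# The box energy as a moment of character sums

Sketch: `∏ j, ∑ s ∈ Icc 1 (M j), χ s ^ e j = ∑ s ∈ piFinset (Icc 1 (M ·)), χ (∏ j, s j ^ e j)`
(`Finset.prod_univ_sum`, `map_prod`, `map_pow`).  Its squared norm is
`∑ s, ∑ s', χ (P s) * conj (χ (P s'))`.  Sum over `χ`, using
`DirichletCharacter.sum_char_inv_mul_char_eq` (with `a = P s'`, when it is a unit; if it is not a
unit then `χ (P s') = 0`), and `conj (χ a) = χ a⁻¹` for units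
(`MulChar.star_apply'`, `MulChar.inv_apply'`, or `DirichletCharacter`/`MulChar` lemmas;
`star χ = χ⁻¹`).
-/

namespace Pool.Agent.Lib.Pabcv

open Finset

lemma conj_char_unit {α : ℕ} [NeZero α] (χ : DirichletCharacter ℂ α) {a : ZMod α}
    (ha : IsUnit a) : (starRingEnd ℂ) (χ a) = χ a⁻¹ := by
  obtain ⟨u, rfl⟩ := ha
  have h := MulChar.star_apply' χ (u : ZMod α)
  rw [starRingEnd_apply, h, MulChar.inv_apply, Ring.inverse_unit, ZMod.inv_coe_unit]

set_option maxHeartbeats 1000000 in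
theorem totient_mul_boxEnergy (α : ℕ) [NeZero α] {ι : Type} [Fintype ι] (e M : ι → ℕ) :
    (α.totient : ℝ) * (boxEnergy α e M : ℝ) =
      ∑ χ : DirichletCharacter ℂ α,
        ∏ j, ‖∑ s ∈ Finset.Icc 1 (M j), χ (s : ZMod α) ^ e j‖ ^ 2 := by
  classical
  set Box := Fintype.piFinset (fun j => Finset.Icc 1 (M j)) with hBox
  set P : (ι → ℕ) → ZMod α := fun s => ∏ j, ((s j : ℕ) : ZMod α) ^ e j with hP
  have h1 : ∀ χ : DirichletCharacter ℂ α,
      ∏ j, ∑ s ∈ Finset.Icc 1 (M j), χ (s : ZMod α) ^ e j = ∑ s ∈ Box, χ (P s) := by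
    intro χ
    rw [Finset.prod_univ_sum]
    refine Finset.sum_congr rfl fun s _ => ?_
    simp only [hP, map_prod, map_pow]
  have h2 : ∀ χ : DirichletCharacter ℂ α,
      ((∏ j, ‖∑ s ∈ Finset.Icc 1 (M j), χ (s : ZMod α) ^ e j‖ ^ 2 : ℝ) : ℂ) =
        ∑ s ∈ Box, ∑ s' ∈ Box, χ (P s) * (starRingEnd ℂ) (χ (P s')) := by
    intro χ
    rw [Finset.prod_pow, ← norm_prod, h1 χ, Complex.ofReal_pow, ← Complex.mul_conj', map_sum,
      Finset.sum_mul_sum]
  have h3 : ∀ s s' : ι → ℕ, ∑ χ : DirichletCharacter ℂ α, χ (P s) * (starRingEnd ℂ) (χ (P s')) =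
      if IsUnit (P s) ∧ P s = P s' then (α.totient : ℂ) else 0 := by
    intro s s'
    by_cases hu : IsUnit (P s')
    · have h4 := DirichletCharacter.sum_char_inv_mul_char_eq ℂ hu (P s)
      have h5 : ∑ χ : DirichletCharacter ℂ α, χ (P s) * (starRingEnd ℂ) (χ (P s')) =
          ∑ χ : DirichletCharacter ℂ α, χ (P s')⁻¹ * χ (P s) := by
        refine Finset.sum_congr rfl fun χ _ => ?_
        rw [conj_char_unit χ hu, mul_comm]
      rw [h5, h4]
      by_cases he : P s' = P s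
      · rw [if_pos he, if_pos ⟨he ▸ hu, he.symm⟩]
      · rw [if_neg he, if_neg fun h => he h.2.symm]
    · have h5 : ∀ χ : DirichletCharacter ℂ α, χ (P s) * (starRingEnd ℂ) (χ (P s')) = 0 := by
        intro χ
        rw [MulChar.map_nonunit χ hu, map_zero, mul_zero]
      rw [Finset.sum_congr rfl fun χ _ => h5 χ, Finset.sum_const_zero,
        if_neg fun h : IsUnit (P s) ∧ P s = P s' => hu (h.2 ▸ h.1)]
  apply Complex.ofReal_injective
  rw [Complex.ofReal_mul, Complex.ofReal_sum, Finset.sum_congr rfl fun χ _ => h2 χ,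
    Finset.sum_comm]
  have h6 : ∀ s ∈ Box, ∑ χ : DirichletCharacter ℂ α,
      ∑ s' ∈ Box, χ (P s) * (starRingEnd ℂ) (χ (P s')) =
      ∑ s' ∈ Box, if IsUnit (P s) ∧ P s = P s' then (α.totient : ℂ) else 0 := by
    intro s _
    rw [Finset.sum_comm]
    exact Finset.sum_congr rfl fun s' _ => h3 s s'
  have h7 : boxEnergy α e M =
      ((Box ×ˢ Box).filter (fun v : (ι → ℕ) × (ι → ℕ) => IsUnit (P v.1) ∧ P v.1 = P v.2)).card := by
    unfold boxEnergy
    congr!
  rw [Finset.sum_congr rfl h6, ← Finset.sum_product', ← Finset.sum_filter, Finset.sum_const,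
    nsmul_eq_mul, h7, Complex.ofReal_natCast, Complex.ofReal_natCast, mul_comm]

end Pool.Agent.Lib.Pabcv
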