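import Pool.Agent.Lib.Pabcv.Holder
import Pool.Agent.Lib.Pabcv.Chars

/-!
# Hölder's inequality for box energies

Sketch: put `S j χ = ‖∑ s ∈ Icc 1 (M j), χ s ^ e j‖`.  By `totient_mul_boxEnergy`,
`φ(α) boxEnergy α e M = ∑ χ, ∏ j, S j χ ^ 2`.  For `j ∉ T` the sum is over `{1}`, so `S j χ = 1`.
For `j ∈ T`, `S j χ ^ 2 = (S j χ ^ (2 k j)) ^ a j * (S j χ ^ (2 (k j + 1))) ^ b j`, since
`a j * k j + b j * (k j + 1) = 1` (both sides `0` if `S j χ = 0`: then, as `k j ≥ 1`, at least one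
of `a j, b j` is non-zero; `0 ^ (0:ℝ) = 1`).  Apply `sum_prod_rpow_le` with index set the disjoint
union of two copies of `T` (e.g. `T.disjSum T` in `ι ⊕ ι`, weights `Sum.elim a b`).  By
`totient_mul_boxEnergy` with `ι = Fin k`, `∑ χ, S j χ ^ (2 k) = φ(α) boxEnergy α (Fin k) ...`.
The powers of `φ(α)` multiply to `φ(α) ^ (∑ (a j + b j)) = φ(α)`.
-/

namespace Pool.Agent.Lib.Pabcv

open Finset

lemma sq_eq_rpow_mul {s a b : ℝ} {k : ℕ} (hs : 0 ≤ s) (hk : 1 ≤ k) (ha : 0 ≤ a) (hb : 0 ≤ b)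
    (h : a * k + b * (k + 1) = 1) :
    s ^ 2 = (s ^ (2 * k)) ^ a * (s ^ (2 * (k + 1))) ^ b := by
  rcases hs.eq_or_lt with rfl | hpos
  · rw [zero_pow (by norm_num), zero_pow (by omega), zero_pow (by omega)]
    rcases ha.eq_or_lt with rfl | ha'
    · rcases hb.eq_or_lt with rfl | hb'
      · norm_num at h
      · rw [Real.zero_rpow hb'.ne', mul_zero]
    · rw [Real.zero_rpow ha'.ne', zero_mul]
  · rw [← Real.rpow_natCast s (2 * k), ← Real.rpow_natCast s (2 * (k + 1)),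
      ← Real.rpow_mul hs, ← Real.rpow_mul hs, ← Real.rpow_add hpos, ← Real.rpow_natCast s 2]
    congr 1
    push_cast
    linarith

theorem boxEnergy_holder (α : ℕ) (hα : 1 ≤ α) {ι : Type} [Fintype ι] (T : Finset ι)
    (e M k : ι → ℕ) (hT : ∀ j ∉ T, M j = 1) (hk : ∀ j ∈ T, 1 ≤ k j) (a b : ι → ℝ)
    (ha : ∀ j ∈ T, 0 ≤ a j) (hb : ∀ j ∈ T, 0 ≤ b j) (hab : ∑ j ∈ T, (a j + b j) = 1)
    (h1 : ∀ j ∈ T, a j * k j + b j * (k j + 1) = 1) :
    (boxEnergy α e M : ℝ) ≤ ∏ j ∈ T,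
      ((boxEnergy α (fun _ : Fin (k j) => e j) (fun _ => M j) : ℝ) ^ a j *
        (boxEnergy α (fun _ : Fin (k j + 1) => e j) (fun _ => M j) : ℝ) ^ b j) := by
  classical
  have : NeZero α := ⟨by omega⟩
  have hφ : (0:ℝ) < α.totient := by exact_mod_cast Nat.totient_pos.mpr (by omega)
  set S : ι → DirichletCharacter ℂ α → ℝ := fun j χ =>
    ‖∑ s ∈ Finset.Icc 1 (M j), χ (s : ZMod α) ^ e j‖ with hS
  have hS0 : ∀ j χ, 0 ≤ S j χ := fun j χ => norm_nonneg _
  have hS1 : ∀ j ∉ T, ∀ χ, S j χ = 1 := by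
    intro j hj χ
    simp only [hS, hT j hj]
    simp
  have hpow : ∀ j : ι, ∀ m : ℕ, ∑ χ : DirichletCharacter ℂ α, S j χ ^ (2 * m) =
      (α.totient : ℝ) * (boxEnergy α (fun _ : Fin m => e j) (fun _ => M j) : ℝ) := by
    intro j m
    rw [totient_mul_boxEnergy α (fun _ : Fin m => e j) (fun _ => M j)]
    refine Finset.sum_congr rfl fun χ _ => ?_
    rw [Finset.prod_const, Finset.card_univ, Fintype.card_fin, ← pow_mul]
  have hmain : (α.totient : ℝ) * (boxEnergy α e M : ℝ) =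
      ∑ χ : DirichletCharacter ℂ α, ∏ x ∈ T.disjSum T,
        (Sum.elim (fun j => S j χ ^ (2 * k j)) (fun j => S j χ ^ (2 * (k j + 1))) x) ^
          (Sum.elim a b x) := by
    rw [totient_mul_boxEnergy]
    refine Finset.sum_congr rfl fun χ _ => ?_
    rw [Finset.prod_disjSum]
    simp only [Sum.elim_inl, Sum.elim_inr]
    rw [← Finset.prod_mul_distrib, ← Finset.prod_subset (Finset.subset_univ T)
      (fun j _ hj => by
        have := hS1 j hj χ
        simp only [hS] at this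
        rw [this]
        norm_num)]
    exact Finset.prod_congr rfl fun j hj =>
      sq_eq_rpow_mul (hS0 j χ) (hk j hj) (ha j hj) (hb j hj) (h1 j hj)
  have hh := sum_prod_rpow_le (Finset.univ : Finset (DirichletCharacter ℂ α)) (T.disjSum T)
    (fun x χ => Sum.elim (fun j => S j χ ^ (2 * k j)) (fun j => S j χ ^ (2 * (k j + 1))) x)
    (Sum.elim a b)
    (by
      intro x _ χ _
      rcases x with j | j
      · exact pow_nonneg (hS0 j χ) _
      · exact pow_nonneg (hS0 j χ) _)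
    (by
      intro x hx
      rcases x with j | j
      · exact ha j (Finset.inl_mem_disjSum.mp hx)
      · exact hb j (Finset.inr_mem_disjSum.mp hx))
    (by
      rw [Finset.sum_disjSum]
      simp only [Sum.elim_inl, Sum.elim_inr]
      rw [← Finset.sum_add_distrib, hab])
  have hrhs : ∏ x ∈ T.disjSum T, (∑ χ : DirichletCharacter ℂ α,
      Sum.elim (fun j => S j χ ^ (2 * k j)) (fun j => S j χ ^ (2 * (k j + 1))) x) ^
        (Sum.elim a b x) =
      (α.totient : ℝ) * ∏ j ∈ T,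
        ((boxEnergy α (fun _ : Fin (k j) => e j) (fun _ => M j) : ℝ) ^ a j *
        (boxEnergy α (fun _ : Fin (k j + 1) => e j) (fun _ => M j) : ℝ) ^ b j) := by
    rw [Finset.prod_disjSum]
    simp only [Sum.elim_inl, Sum.elim_inr]
    rw [← Finset.prod_mul_distrib]
    have h2 : ∀ j ∈ T, (∑ χ : DirichletCharacter ℂ α, S j χ ^ (2 * k j)) ^ a j *
        (∑ χ : DirichletCharacter ℂ α, S j χ ^ (2 * (k j + 1))) ^ b j =
        (α.totient : ℝ) ^ (a j + b j) *
        ((boxEnergy α (fun _ : Fin (k j) => e j) (fun _ => M j) : ℝ) ^ a j *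
        (boxEnergy α (fun _ : Fin (k j + 1) => e j) (fun _ => M j) : ℝ) ^ b j) := by
      intro j _
      rw [hpow j (k j), hpow j (k j + 1), Real.mul_rpow hφ.le (Nat.cast_nonneg _),
        Real.mul_rpow hφ.le (Nat.cast_nonneg _), Real.rpow_add hφ]
      ring
    rw [Finset.prod_congr rfl h2, Finset.prod_mul_distrib, ← Real.rpow_sum_of_pos hφ, hab,
      Real.rpow_one]
  rw [← hmain, hrhs] at hh
  exact le_of_mul_le_mul_left hh hφ

end Pool.Agent.Lib.Pabcv
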