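import Pool.Agent.Lib.Pabcv.Defs

/-!
# Splitting an integer by the exponents of its primes

Take `s j = ∏ p ∈ x.primeFactors with x.factorization p = j + 1, p` and
`t = ∏ p ∈ x.primeFactors with J < x.factorization p, p ^ x.factorization p`.
-/

namespace Pool.Agent.Lib.Pabcv

open Finset

/-- Splitting a product over a finite set by a positive exponent function. -/
lemma prod_split_exp (P : Finset ℕ) (e f : ℕ → ℕ) (he : ∀ p ∈ P, 1 ≤ e p) (J : ℕ) :
    ∏ p ∈ P, f p = (∏ p ∈ P.filter (fun p => J < e p), f p) *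
      ∏ j : Fin J, ∏ p ∈ P.filter (fun p => e p = (j : ℕ) + 1), f p := by
  have h1 : ∏ j : Fin J, ∏ p ∈ P.filter (fun p => e p = (j : ℕ) + 1), f p =
      ∏ p ∈ P.filter (fun p => ¬ J < e p), f p := by
    simp only [Finset.prod_filter]
    rw [Finset.prod_comm]
    refine Finset.prod_congr rfl fun p hp => ?_
    by_cases h : J < e p
    · rw [if_neg (not_not.mpr h)]
      refine Finset.prod_eq_one fun j _ => ?_
      rw [if_neg]
      have := j.2
      omega
    · rw [if_pos h]
      have h2 := he p hp
      have h3 : e p - 1 < J := by omega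
      rw [Finset.prod_eq_single (⟨e p - 1, h3⟩ : Fin J)]
      · rw [if_pos]
        show e p = e p - 1 + 1
        omega
      · intro j _ hj
        rw [if_neg]
        intro h4
        apply hj
        apply Fin.ext
        show (j : ℕ) = e p - 1
        omega
      · intro h4
        exact absurd (Finset.mem_univ _) h4
  rw [h1]
  exact (Finset.prod_filter_mul_prod_filter_not P (fun p => J < e p) f).symm

lemma primeFactors_prod_pow (Q : Finset ℕ) (e : ℕ → ℕ) (hQ : ∀ p ∈ Q, p.Prime)
    (he : ∀ p ∈ Q, e p ≠ 0) : (∏ p ∈ Q, p ^ e p).primeFactors = Q := by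
  have h0 : ∏ p ∈ Q, p ^ e p ≠ 0 := by
    rw [Finset.prod_ne_zero_iff]
    intro p hp
    exact pow_ne_zero _ (hQ p hp).ne_zero
  ext p
  rw [Nat.mem_primeFactors]
  constructor
  · rintro ⟨hp, hd, _⟩
    rw [Prime.dvd_finsetProd_iff hp.prime] at hd
    obtain ⟨q, hq, hpq⟩ := hd
    have h1 : p ∣ q := hp.dvd_of_dvd_pow hpq
    rw [(Nat.prime_dvd_prime_iff_eq hp (hQ q hq)).mp h1]
    exact hq
  · intro hp
    refine ⟨hQ p hp, ?_, h0⟩
    exact (dvd_pow_self p (he p hp)).trans (Finset.dvd_prod_of_mem _ hp)

theorem decomp (J x : ℕ) (hx : 1 ≤ x) : ∃ (t : ℕ) (s : Fin J → ℕ), 1 ≤ t ∧ (∀ j, 1 ≤ s j) ∧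
    x = t * ∏ j, s j ^ ((j : ℕ) + 1) ∧ rad x = rad t * ∏ j, s j ∧ rad t ^ (J + 1) ≤ t := by
  have he : ∀ p ∈ x.primeFactors, 1 ≤ x.factorization p := by
    intro p hp
    have := (Nat.support_factorization x ▸ hp : p ∈ x.factorization.support)
    exact Nat.one_le_iff_ne_zero.mpr (Finsupp.mem_support_iff.mp this)
  have hprime : ∀ p ∈ x.primeFactors, p.Prime := fun p hp => Nat.prime_of_mem_primeFactors hp
  set t : ℕ := ∏ p ∈ x.primeFactors.filter (fun p => J < x.factorization p),
    p ^ x.factorization p with ht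
  have htpf : t.primeFactors = x.primeFactors.filter (fun p => J < x.factorization p) := by
    rw [ht]
    refine primeFactors_prod_pow _ _ (fun p hp => ?_) (fun p hp => ?_)
    · exact hprime p (Finset.mem_filter.mp hp).1
    · have := (Finset.mem_filter.mp hp).2
      omega
  refine ⟨t, fun j => ∏ p ∈ x.primeFactors.filter (fun p => x.factorization p = (j : ℕ) + 1), p,
    ?_, ?_, ?_, ?_, ?_⟩
  · rw [ht]
    have h : 0 < ∏ p ∈ x.primeFactors.filter (fun p => J < x.factorization p),
        p ^ x.factorization p := by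
      refine Finset.prod_pos fun p hp => ?_
      exact pow_pos (hprime p (Finset.mem_filter.mp hp).1).pos _
    exact h
  · intro j
    have h : 0 < ∏ p ∈ x.primeFactors.filter (fun p => x.factorization p = (j : ℕ) + 1), p := by
      refine Finset.prod_pos fun p hp => ?_
      exact (hprime p (Finset.mem_filter.mp hp).1).pos
    exact h
  · have h1 : x = ∏ p ∈ x.primeFactors, p ^ x.factorization p :=
      (Nat.prod_factorization_pow_eq_self (by omega : x ≠ 0)).symm
    conv_lhs => rw [h1]
    rw [prod_split_exp x.primeFactors x.factorization (fun p => p ^ x.factorization p) he J]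
    congr 1
    refine Finset.prod_congr rfl fun j _ => ?_
    rw [← Finset.prod_pow]
    refine Finset.prod_congr rfl fun p hp => ?_
    rw [(Finset.mem_filter.mp hp).2]
  · unfold rad
    rw [htpf]
    exact prod_split_exp x.primeFactors x.factorization (fun p => p) he J
  · unfold rad
    rw [htpf, ← Finset.prod_pow, ht]
    refine Finset.prod_le_prod' fun p hp => ?_
    exact Nat.pow_le_pow_right (hprime p (Finset.mem_filter.mp hp).1).pos
      (Finset.mem_filter.mp hp).2

end Pool.Agent.Lib.Pabcv
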