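import Mathlib

/-!
# abc violators: common definitions

`rad n` is the radical, `radSet X Z` the set of `n ∈ [1, X]` with `rad n ≤ Z`.
-/

namespace Pool.Agent.Lib.Pabcv

open Finset

/-- The radical of `n`: the product of the distinct primes dividing `n`. -/
def rad (n : ℕ) : ℕ := ∏ p ∈ n.primeFactors, p

theorem rad_pos (n : ℕ) : 1 ≤ rad n :=
  Finset.prod_pos fun _ hp => (Nat.prime_of_mem_primeFactors hp).pos

theorem rad_dvd (n : ℕ) : rad n ∣ n := Nat.prod_primeFactors_dvd n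

theorem rad_le {n : ℕ} (hn : 1 ≤ n) : rad n ≤ n := Nat.le_of_dvd hn (rad_dvd n)

/-- The integers `n ∈ [1, X]` with `rad n ≤ Z`. -/
noncomputable def radSet (X : ℕ) (Z : ℝ) : Finset ℕ :=
  (Finset.Icc 1 X).filter (fun n => (rad n : ℝ) ≤ Z)

theorem mem_radSet {X : ℕ} {Z : ℝ} {n : ℕ} :
    n ∈ radSet X Z ↔ (1 ≤ n ∧ n ≤ X) ∧ (rad n : ℝ) ≤ Z := by
  rw [radSet, Finset.mem_filter, Finset.mem_Icc]

open Classical in
/-- The number of pairs `(s, s')` of points of the box `∏ [1, M j]` such that `∏ s_j ^ e_j` is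
a unit mod `α` and congruent to `∏ s'_j ^ e_j` mod `α`. -/
noncomputable def boxEnergy (α : ℕ) {ι : Type} [Fintype ι] (e M : ι → ℕ) : ℕ :=
  ((Fintype.piFinset (fun j => Finset.Icc 1 (M j)) ×ˢ
      Fintype.piFinset (fun j => Finset.Icc 1 (M j))).filter
    (fun v : (ι → ℕ) × (ι → ℕ) => IsUnit (∏ j, ((v.1 j : ℕ) : ZMod α) ^ e j) ∧
      ∏ j, ((v.1 j : ℕ) : ZMod α) ^ e j = ∏ j, ((v.2 j : ℕ) : ZMod α) ^ e j)).card

open Classical in
/-- The number of pairs `x, x' ∈ radSet X Z` with `x ≡ x'` a unit mod `α`. -/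
noncomputable def radEnergy (α X : ℕ) (Z : ℝ) : ℕ :=
  ((radSet X Z ×ˢ radSet X Z).filter
    (fun q : ℕ × ℕ => IsUnit (q.1 : ZMod α) ∧ (q.1 : ZMod α) = (q.2 : ZMod α))).card

open Classical in
/-- The pairs `(x, y)`, `x ∈ radSet X Z₁`, `y ∈ radSet X Z₂`, with `x` a unit mod `α` and
`x ≡ y` or `x ≡ -y` mod `α`. -/
noncomputable def pairSet (α X : ℕ) (Z₁ Z₂ : ℝ) : Finset (ℕ × ℕ) :=
  (radSet X Z₁ ×ˢ radSet X Z₂).filter
    (fun q : ℕ × ℕ => IsUnit (q.1 : ZMod α) ∧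
      ((q.1 : ZMod α) = (q.2 : ZMod α) ∨ (q.1 : ZMod α) = -(q.2 : ZMod α)))

/-- `n` is one of `x + y`, `y - x`, `x - y`. -/
def Rel (x y n : ℕ) : Prop := x + y = n ∨ x + n = y ∨ y + n = x

open Classical in
/-- The pairs `(x, y) ∈ A × B` for which some `w z ^ k` is one of `x + y`, `y - x`, `x - y`. -/
noncomputable def curveSet (A B : Finset ℕ) (w k : ℕ) : Finset (ℕ × ℕ) :=
  (A ×ˢ B).filter (fun q : ℕ × ℕ => ∃ z : ℕ, 1 ≤ z ∧ Rel q.1 q.2 (w * z ^ k))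

end Pool.Agent.Lib.Pabcv
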