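import Mathlib

/-!
# Weighted Hölder inequality for finite sums with finitely many factors

If some `∑ x ∈ S, f j x = 0` (`j ∈ T`) and `w j ≠ 0` both sides vanish; else divide by
the sums and use the weighted AM-GM inequality
`Real.geom_mean_le_arith_mean_weighted` pointwise, and sum over `x`.
-/

namespace Pool.Agent.Lib.Pabcv

open Finset

theorem sum_prod_rpow_le {κ ι : Type*} (S : Finset κ) (T : Finset ι) (f : ι → κ → ℝ)
    (w : ι → ℝ) (hf : ∀ j ∈ T, ∀ x ∈ S, 0 ≤ f j x) (hw : ∀ j ∈ T, 0 ≤ w j)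
    (hsum : ∑ j ∈ T, w j = 1) :
    ∑ x ∈ S, ∏ j ∈ T, f j x ^ w j ≤ ∏ j ∈ T, (∑ x ∈ S, f j x) ^ w j := by
  by_cases hz : ∃ j ∈ T, (∑ x ∈ S, f j x) = 0 ∧ w j ≠ 0
  · obtain ⟨j, hj, h0, hwj⟩ := hz
    have h1 : ∀ x ∈ S, f j x = 0 := (Finset.sum_eq_zero_iff_of_nonneg (hf j hj)).mp h0
    have h2 : ∑ x ∈ S, ∏ j ∈ T, f j x ^ w j = 0 := by
      refine Finset.sum_eq_zero (fun x hx => ?_)
      refine Finset.prod_eq_zero hj ?_
      rw [h1 x hx, Real.zero_rpow hwj]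
    rw [h2]
    exact Finset.prod_nonneg (fun i hi => Real.rpow_nonneg (Finset.sum_nonneg (hf i hi)) _)
  · push Not at hz
    have hF : ∀ j ∈ T, 0 ≤ ∑ x ∈ S, f j x := fun j hj => Finset.sum_nonneg (hf j hj)
    have hpt : ∀ x ∈ S, ∏ j ∈ T, f j x ^ w j ≤
        (∏ j ∈ T, (∑ x ∈ S, f j x) ^ w j) * ∑ j ∈ T, w j * (f j x / ∑ x ∈ S, f j x) := by
      intro x hx
      have e1 : ∏ j ∈ T, f j x ^ w j = (∏ j ∈ T, (∑ x ∈ S, f j x) ^ w j) *
          ∏ j ∈ T, (f j x / ∑ x ∈ S, f j x) ^ w j := by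
        rw [← Finset.prod_mul_distrib]
        refine Finset.prod_congr rfl (fun j hj => ?_)
        by_cases hwj : w j = 0
        · rw [hwj]; simp
        · have hne : (∑ x ∈ S, f j x) ≠ 0 := fun h => hwj (hz j hj h)
          have hpos : 0 < ∑ x ∈ S, f j x := lt_of_le_of_ne (hF j hj) (Ne.symm hne)
          rw [← Real.mul_rpow (hF j hj) (div_nonneg (hf j hj x hx) (hF j hj)),
            mul_div_cancel₀ _ hne]
      rw [e1]
      refine mul_le_mul_of_nonneg_left ?_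
        (Finset.prod_nonneg (fun i hi => Real.rpow_nonneg (hF i hi) _))
      exact Real.geom_mean_le_arith_mean_weighted T w (fun j => f j x / ∑ x ∈ S, f j x) hw hsum
        (fun j hj => div_nonneg (hf j hj x hx) (hF j hj))
    calc ∑ x ∈ S, ∏ j ∈ T, f j x ^ w j
        ≤ ∑ x ∈ S, (∏ j ∈ T, (∑ x ∈ S, f j x) ^ w j) *
            ∑ j ∈ T, w j * (f j x / ∑ x ∈ S, f j x) := Finset.sum_le_sum hpt
      _ = (∏ j ∈ T, (∑ x ∈ S, f j x) ^ w j) *
            ∑ j ∈ T, w j * ((∑ x ∈ S, f j x) / ∑ x ∈ S, f j x) := by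
          rw [← Finset.mul_sum, Finset.sum_comm]
          congr 1
          refine Finset.sum_congr rfl (fun j _ => ?_)
          rw [← Finset.mul_sum, Finset.sum_div]
      _ ≤ (∏ j ∈ T, (∑ x ∈ S, f j x) ^ w j) * ∑ j ∈ T, w j := by
          refine mul_le_mul_of_nonneg_left ?_
            (Finset.prod_nonneg (fun i hi => Real.rpow_nonneg (hF i hi) _))
          refine Finset.sum_le_sum (fun j hj => ?_)
          exact mul_le_of_le_one_right (hw j hj) (div_self_le_one _)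
      _ = ∏ j ∈ T, (∑ x ∈ S, f j x) ^ w j := by rw [hsum, mul_one]

end Pool.Agent.Lib.Pabcv
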