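import Pool.Agent.Lib.Pabcv.Defs

/-!
# Cauchy-Schwarz for pairs congruent up to sign

Sketch: for `u : ZMod α` (finite as `1 ≤ α`) let `r₁ u = #{x ∈ radSet X Z₁ : x ≡ u}`, and `r₂`
similarly.  Then `#pairSet ≤ ∑_{u unit} r₁ u * r₂ u + ∑_{u unit} r₁ u * r₂ (-u)`, both sums are
`≤ sqrt (∑ r₁ u ^ 2) * sqrt (∑ r₂ u ^ 2)` (sums over units; `u ↦ -u` is a bijection of the
units) and `∑_{u unit} r_i u ^ 2 = radEnergy α X Z_i`.
-/

namespace Pool.Agent.Lib.Pabcv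

open Finset

open Classical in
/-- Number of elements of `S` in the class `u`. -/
noncomputable def rc (α : ℕ) (S : Finset ℕ) (u : ZMod α) : ℕ :=
  (S.filter (fun x : ℕ => (x : ZMod α) = u)).card

open Classical in
theorem card_pairs_eq (α : ℕ) [NeZero α] (S T : Finset ℕ) (σ : ZMod α → ZMod α) :
    ((S ×ˢ T).filter (fun q : ℕ × ℕ => IsUnit (q.1 : ZMod α) ∧
      (q.2 : ZMod α) = σ (q.1 : ZMod α))).card
      = ∑ u ∈ (univ : Finset (ZMod α)).filter (fun u => IsUnit u), rc α S u * rc α T (σ u) := by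
  rw [Finset.card_eq_sum_card_fiberwise (f := fun q : ℕ × ℕ => (q.1 : ZMod α))
    (t := (univ : Finset (ZMod α)).filter (fun u => IsUnit u))]
  · refine Finset.sum_congr rfl fun u hu => ?_
    rw [mem_filter] at hu
    unfold rc
    rw [← Finset.card_product]
    congr 1
    ext ⟨x, y⟩
    simp only [mem_filter, mem_product]
    constructor
    · rintro ⟨⟨⟨hx, hy⟩, _, h2⟩, h3⟩
      exact ⟨⟨hx, h3⟩, hy, by rw [h2, h3]⟩
    · rintro ⟨⟨hx, h3⟩, hy, h2⟩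
      exact ⟨⟨⟨hx, hy⟩, by rw [h3]; exact hu.2, by rw [h2, h3]⟩, h3⟩
  · intro q hq
    have hq' := (mem_filter.1 (Finset.mem_coe.1 hq)).2.1
    exact Finset.mem_coe.2 (mem_filter.2 ⟨mem_univ _, hq'⟩)

open Classical in
theorem radEnergy_eq (α X : ℕ) [NeZero α] (Z : ℝ) :
    (radEnergy α X Z : ℝ)
      = ∑ u ∈ (univ : Finset (ZMod α)).filter (fun u => IsUnit u),
        ((rc α (radSet X Z) u : ℕ) : ℝ) ^ 2 := by
  have h := card_pairs_eq α (radSet X Z) (radSet X Z) id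
  have h2 : radEnergy α X Z = ((radSet X Z ×ˢ radSet X Z).filter
      (fun q : ℕ × ℕ => IsUnit (q.1 : ZMod α) ∧ (q.2 : ZMod α) = id (q.1 : ZMod α))).card := by
    unfold radEnergy
    congr 1
    ext ⟨x, y⟩
    simp only [mem_filter, id]
    constructor
    · rintro ⟨h1, h2, h3⟩
      exact ⟨h1, h2, h3.symm⟩
    · rintro ⟨h1, h2, h3⟩
      exact ⟨h1, h2, h3.symm⟩
  rw [h2, h]
  push_cast
  refine Finset.sum_congr rfl fun u _ => ?_
  simp only [id]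
  ring

open Classical in
theorem mem_pairSet' {α X : ℕ} {Z₁ Z₂ : ℝ} {q : ℕ × ℕ} (hq : q ∈ pairSet α X Z₁ Z₂) :
    q ∈ radSet X Z₁ ×ˢ radSet X Z₂ ∧ IsUnit (q.1 : ZMod α) ∧
      ((q.1 : ZMod α) = (q.2 : ZMod α) ∨ (q.1 : ZMod α) = -(q.2 : ZMod α)) :=
  Finset.mem_filter.1 hq

theorem pairSet_card_le (α X : ℕ) (hα : 1 ≤ α) (Z₁ Z₂ : ℝ) :
    ((pairSet α X Z₁ Z₂).card : ℝ) ≤
      2 * (√(radEnergy α X Z₁ : ℝ) * √(radEnergy α X Z₂ : ℝ)) := by
  classical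
  have : NeZero α := ⟨by omega⟩
  set S := radSet X Z₁ with hS
  set T := radSet X Z₂ with hT
  set U := (univ : Finset (ZMod α)).filter (fun u => IsUnit u) with hU
  have hsub : pairSet α X Z₁ Z₂ ⊆
      ((S ×ˢ T).filter (fun q : ℕ × ℕ => IsUnit (q.1 : ZMod α) ∧
        (q.2 : ZMod α) = (fun u : ZMod α => u) (q.1 : ZMod α))) ∪
      ((S ×ˢ T).filter (fun q : ℕ × ℕ => IsUnit (q.1 : ZMod α) ∧
        (q.2 : ZMod α) = (fun u : ZMod α => -u) (q.1 : ZMod α))) := by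
    intro q hq
    obtain ⟨h1, h2, h3⟩ := mem_pairSet' hq
    rw [mem_union, mem_filter, mem_filter]
    rcases h3 with h3 | h3
    · left
      exact ⟨h1, h2, h3.symm⟩
    · right
      refine ⟨h1, h2, ?_⟩
      simp only [h3, neg_neg]
  have hcard : (pairSet α X Z₁ Z₂).card ≤
      ∑ u ∈ U, rc α S u * rc α T u + ∑ u ∈ U, rc α S u * rc α T (-u) := by
    refine (Finset.card_le_card hsub).trans ((Finset.card_union_le _ _).trans ?_)
    rw [card_pairs_eq α S T (fun u => u), card_pairs_eq α S T (fun u => -u)]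
  have hcard' : ((pairSet α X Z₁ Z₂).card : ℝ) ≤
      ∑ u ∈ U, (rc α S u : ℝ) * rc α T u + ∑ u ∈ U, (rc α S u : ℝ) * rc α T (-u) := by
    have : ((pairSet α X Z₁ Z₂).card : ℝ) ≤
      ((∑ u ∈ U, rc α S u * rc α T u + ∑ u ∈ U, rc α S u * rc α T (-u) : ℕ) : ℝ) := by
      exact_mod_cast hcard
    refine this.trans (le_of_eq ?_)
    push_cast
    rfl
  have hneg : ∑ u ∈ U, ((rc α T (-u) : ℕ) : ℝ) ^ 2 = ∑ u ∈ U, ((rc α T u : ℕ) : ℝ) ^ 2 := by
    refine Finset.sum_nbij' (fun u => -u) (fun u => -u) ?_ ?_ ?_ ?_ ?_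
    · intro u hu
      rw [hU, mem_filter] at hu ⊢
      exact ⟨mem_univ _, hu.2.neg⟩
    · intro u hu
      rw [hU, mem_filter] at hu ⊢
      exact ⟨mem_univ _, hu.2.neg⟩
    · intro u _; exact neg_neg u
    · intro u _; exact neg_neg u
    · intro u _; rfl
  have h1 := Real.sum_mul_le_sqrt_mul_sqrt U (fun u => (rc α S u : ℝ)) (fun u => (rc α T u : ℝ))
  have h2 := Real.sum_mul_le_sqrt_mul_sqrt U (fun u => (rc α S u : ℝ))
    (fun u => (rc α T (-u) : ℝ))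
  rw [hneg] at h2
  have e1 : (radEnergy α X Z₁ : ℝ) = ∑ u ∈ U, ((rc α S u : ℕ) : ℝ) ^ 2 := radEnergy_eq α X Z₁
  have e2 : (radEnergy α X Z₂ : ℝ) = ∑ u ∈ U, ((rc α T u : ℕ) : ℝ) ^ 2 := radEnergy_eq α X Z₂
  rw [e1, e2]
  calc ((pairSet α X Z₁ Z₂).card : ℝ)
      ≤ ∑ u ∈ U, (rc α S u : ℝ) * rc α T u + ∑ u ∈ U, (rc α S u : ℝ) * rc α T (-u) := hcard'
    _ ≤ _ := by linarith

end Pool.Agent.Lib.Pabcv
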