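import Pool.Agent.Lib.Pabcv.Defs
import Pool.Agent.Lib.P5632c9.DivBound

/-!
# Number of `i`-th roots modulo `α`

Sketch.  Let `ρ(α, i)` be the number of `x : (ZMod α)ˣ` with `x ^ i = 1`.  The number of `x`
with `x ^ i = u` is `0` or `ρ(α, i)` (coset).  `ρ` is multiplicative in `α` (`ZMod.chineseRemainder`,
`Units.mapEquiv`, `MulEquiv.prodUnits`), so by `Nat.recOnPosPrimePosCoprime` it is enough to show
`ρ(p^n, i) ≤ 2 i`: for odd `p` the unit group is cyclic (`ZMod.isCyclic_units_of_prime_pow`) and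
`IsCyclic.card_pow_eq_one_le` gives `≤ i`; for `p = 2`, `n ≤ 2` it is cyclic as well, and for
`n ≥ 3` the element `5` has order `2^(n-2)` (`ZMod.orderOf_five`), so the subgroup
`H = zpowers 5` has index `2`; the map `x ↦ x^2` sends the group into `H`... simply:
`{x : x^i = 1}` meets each of the two cosets of `H` in at most `i` elements (a coset of the
solutions in the cyclic group `H`).  So `ρ(α, i) ≤ (2 i)^(ω α)`.
With `2 i ≤ 2 I ≤ 2^I·...` choose `L` with `2 I ≤ 2 ^ L`; then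
`(2 i)^(ω α) ≤ (2^(ω α))^L ≤ (number of divisors of α)^L` and the divisor bound
`Pool.Agent.Lib.P5632c9.card_divisors_le (δ / L)` finishes
(`2 ^ ω ≤ d(α)`: `Nat.card_divisors`, each factor `v_p + 1 ≥ 2`).
-/

namespace Pool.Agent.Lib.Pabcv

lemma rt_cyclic {G : Type*} [Group G] [Finite G] [IsCyclic G] {i : ℕ} (hi : 0 < i) :
    {x : G | x ^ i = 1}.ncard ≤ i := by
  classical
  have := Fintype.ofFinite G
  have h := IsCyclic.card_pow_eq_one_le (α := G) hi
  rw [Set.ncard_eq_toFinset_card']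
  convert! h
  ext x
  simp

lemma rt_index_two {G : Type*} [CommGroup G] [Finite G] (H : Subgroup G) (hH : H.index = 2)
    [IsCyclic H] {i : ℕ} (hi : 0 < i) : {x : G | x ^ i = 1}.ncard ≤ 2 * i := by
  classical
  have hA : {x : G | x ^ i = 1 ∧ x ∈ H}.ncard ≤ i := by
    have h1 : {x : G | x ^ i = 1 ∧ x ∈ H} = (fun y : H => (y : G)) '' {y : H | y ^ i = 1} := by
      ext x
      constructor
      · rintro ⟨hx, hxH⟩
        exact ⟨⟨x, hxH⟩, Subtype.ext (by simpa using hx), rfl⟩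
      · rintro ⟨y, hy, rfl⟩
        exact ⟨by
          have := congrArg (fun z : H => (z : G)) hy
          simpa using this, y.2⟩
    rw [h1]
    exact (Set.ncard_image_le (Set.toFinite _)).trans (rt_cyclic hi)
  have hB : {x : G | x ^ i = 1 ∧ x ∉ H}.ncard ≤ i := by
    rcases Set.eq_empty_or_nonempty {x : G | x ^ i = 1 ∧ x ∉ H} with h0 | ⟨x0, hx0, hx0H⟩
    · rw [h0]; simp
    · have h1 : {x : G | x ^ i = 1 ∧ x ∉ H} ⊆ (fun y : G => x0 * y) '' {x : G | x ^ i = 1 ∧ x ∈ H} := by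
        rintro x ⟨hx, hxH⟩
        refine ⟨x0⁻¹ * x, ⟨?_, ?_⟩, by group⟩
        · rw [mul_pow, inv_pow, hx0, hx]; simp
        · rw [Subgroup.mul_mem_iff_of_index_two hH, H.inv_mem_iff]
          exact iff_of_false hx0H hxH
      exact ((Set.ncard_le_ncard h1 (Set.toFinite _)).trans
        (Set.ncard_image_le (Set.toFinite _))).trans hA
  have hU : {x : G | x ^ i = 1} = {x : G | x ^ i = 1 ∧ x ∈ H} ∪ {x : G | x ^ i = 1 ∧ x ∉ H} := by
    ext x
    by_cases h : x ∈ H <;> simp [h]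
  rw [hU]
  have := Set.ncard_union_le {x : G | x ^ i = 1 ∧ x ∈ H} {x : G | x ^ i = 1 ∧ x ∉ H}
  omega

lemma rt_prod {G A B : Type*} [Group G] [Group A] [Group B] [Finite A] [Finite B]
    (e : G ≃* A × B) (i : ℕ) :
    {x : G | x ^ i = 1}.ncard ≤ {x : A | x ^ i = 1}.ncard * {x : B | x ^ i = 1}.ncard := by
  rw [← Set.ncard_prod]
  refine Set.ncard_le_ncard_of_injOn (fun x => e x) ?_ (e.injective.injOn) (Set.toFinite _)
  intro x hx
  have h := congrArg e (show x ^ i = 1 from hx)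
  rw [map_pow, map_one] at h
  exact ⟨congrArg Prod.fst h, congrArg Prod.snd h⟩

lemma rt_two_pow (n : ℕ) {i : ℕ} (hi : 0 < i) :
    {x : (ZMod (2 ^ n))ˣ | x ^ i = 1}.ncard ≤ 2 * i := by
  have : NeZero (2 ^ n) := ⟨by positivity⟩
  by_cases hn : n ≤ 2
  · have := (ZMod.isCyclic_units_two_pow_iff n).mpr hn
    exact (rt_cyclic hi).trans (by omega)
  · obtain ⟨m, rfl⟩ : ∃ m, n = m + 3 := ⟨n - 3, by omega⟩
    have h5 : orderOf (5 : ZMod (2 ^ (m + 3))) = 2 ^ (m + 1) := ZMod.orderOf_five (m + 1)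
    have hu : IsUnit (5 : ZMod (2 ^ (m + 3))) := by
      have : ((5 : ℕ) : ZMod (2 ^ (m + 3))) = 5 := by norm_num
      rw [← this, ZMod.isUnit_iff_coprime]
      exact Nat.Coprime.pow_right _ (by norm_num)
    obtain ⟨g, hg⟩ := hu
    have hog : orderOf g = 2 ^ (m + 1) := by
      rw [← h5, ← hg, orderOf_units]
    have hcard : Nat.card (ZMod (2 ^ (m + 3)))ˣ = 2 ^ (m + 2) := by
      rw [Nat.card_eq_fintype_card, ZMod.card_units_eq_totient,
        Nat.totient_prime_pow_succ Nat.prime_two]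
      norm_num
    have hidx : (Subgroup.zpowers g).index = 2 := by
      have h1 := (Subgroup.zpowers g).card_mul_index
      rw [Nat.card_zpowers, hog, hcard] at h1
      have h2 : 2 ^ (m + 2) = 2 ^ (m + 1) * 2 := by ring
      rw [h2] at h1
      exact Nat.eq_of_mul_eq_mul_left (by positivity) h1
    exact rt_index_two _ hidx hi

lemma rho_le {i : ℕ} (hi : 0 < i) : ∀ α : ℕ, 1 ≤ α →
    {x : (ZMod α)ˣ | x ^ i = 1}.ncard ≤ (2 * i) ^ α.primeFactors.card := by
  intro α
  induction α using Nat.recOnPosPrimePosCoprime with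
  | prime_pow p n hp hn =>
    intro _
    rw [Nat.primeFactors_prime_pow hn.ne' hp, Finset.card_singleton, pow_one]
    have : NeZero (p ^ n) := ⟨pow_ne_zero _ hp.ne_zero⟩
    by_cases h2 : p = 2
    · subst h2
      exact rt_two_pow n hi
    · have := ZMod.isCyclic_units_of_prime_pow p hp h2 n
      exact (rt_cyclic hi).trans (by omega)
  | zero => intro h; omega
  | one =>
    intro _
    have : IsCyclic (ZMod 1)ˣ := ZMod.isCyclic_units_one
    simp only [Nat.primeFactors_one, Finset.card_empty, pow_zero]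
    have : {x : (ZMod 1)ˣ | x ^ i = 1} ⊆ {1} := by
      intro x _
      exact Subsingleton.elim _ _
    exact (Set.ncard_le_ncard this (Set.toFinite _)).trans (by simp)
  | coprime a b ha hb hab iha ihb =>
    intro _
    have : NeZero a := ⟨by omega⟩
    have : NeZero b := ⟨by omega⟩
    have e := (Units.mapEquiv (ZMod.chineseRemainder hab).toMulEquiv).trans MulEquiv.prodUnits
    refine (rt_prod e i).trans ?_
    rw [hab.primeFactors_mul, Finset.card_union_of_disjoint hab.disjoint_primeFactors, pow_add]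
    exact Nat.mul_le_mul (iha (by omega)) (ihb (by omega))

lemma two_pow_le_card_divisors {α : ℕ} (hα : α ≠ 0) :
    2 ^ α.primeFactors.card ≤ α.divisors.card := by
  rw [Nat.card_divisors hα, ← Finset.prod_const]
  refine Finset.prod_le_prod' fun p hp => ?_
  have := (Nat.prime_of_mem_primeFactors hp).factorization_pos_of_dvd hα
    (Nat.dvd_of_mem_primeFactors hp)
  omega

theorem roots_le (I : ℕ) (δ : ℝ) (hδ : 0 < δ) : ∃ C : ℝ, 1 ≤ C ∧ ∀ i α : ℕ, 1 ≤ i → i ≤ I →
    1 ≤ α → ∀ u : (ZMod α)ˣ, ({x : (ZMod α)ˣ | x ^ i = u}.ncard : ℝ) ≤ C * (α : ℝ) ^ δ := by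
  set L : ℕ := 2 * I + 1 with hL
  have hL0 : (0:ℝ) < L := by rw [hL]; positivity
  obtain ⟨C, hC1, hC⟩ := Pool.Agent.Lib.P5632c9.card_divisors_le (δ / L) (by positivity)
  refine ⟨C ^ L, one_le_pow₀ hC1, fun i α hi hiI hα u => ?_⟩
  have : NeZero α := ⟨by omega⟩
  have h1 : {x : (ZMod α)ˣ | x ^ i = u}.ncard ≤ {x : (ZMod α)ˣ | x ^ i = 1}.ncard := by
    rcases Set.eq_empty_or_nonempty {x : (ZMod α)ˣ | x ^ i = u} with h0 | ⟨x0, hx0⟩
    · rw [h0]; simp
    · refine Set.ncard_le_ncard_of_injOn (fun x => x0⁻¹ * x) ?_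
        (fun x _ y _ hxy => mul_left_cancel hxy) (Set.toFinite _)
      intro x hx
      have hx0' : x0 ^ i = u := hx0
      have hx' : x ^ i = u := hx
      show (x0⁻¹ * x) ^ i = 1
      rw [mul_pow, inv_pow, hx0', hx', inv_mul_cancel]
  have h2 : {x : (ZMod α)ˣ | x ^ i = u}.ncard ≤ α.divisors.card ^ L := by
    refine h1.trans ((rho_le (by omega) α hα).trans ?_)
    calc (2 * i) ^ α.primeFactors.card ≤ (2 ^ L) ^ α.primeFactors.card := by
          refine Nat.pow_le_pow_left ?_ _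
          calc 2 * i ≤ L := by omega
            _ ≤ 2 ^ L := Nat.lt_two_pow_self.le
      _ = (2 ^ α.primeFactors.card) ^ L := by rw [← pow_mul, ← pow_mul, mul_comm]
      _ ≤ _ := Nat.pow_le_pow_left (two_pow_le_card_divisors (by omega)) L
  calc ({x : (ZMod α)ˣ | x ^ i = u}.ncard : ℝ) ≤ ((α.divisors.card ^ L : ℕ) : ℝ) := by
        exact_mod_cast h2
    _ = (α.divisors.card : ℝ) ^ L := by push_cast; ring
    _ ≤ (C * (α : ℝ) ^ (δ / L)) ^ L := pow_le_pow_left₀ (by positivity) (hC α (by omega)) L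
    _ = C ^ L * (α : ℝ) ^ δ := by
        rw [mul_pow, ← Real.rpow_natCast ((α : ℝ) ^ (δ / L)) L, ← Real.rpow_mul (by positivity),
          div_mul_cancel₀ _ hL0.ne']

end Pool.Agent.Lib.Pabcv
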